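import Mathlib

set_option autoImplicit false

open Set Filter Topology Manifold ContDiff

namespace Pool.Agent.LibStein

/-- Real 5-space with coordinates `(x₁, y₁, x₂, y₂, z)`. -/
abbrev R5 : Type := Fin 5 → ℝ

/-- The integral Heisenberg group of dimension 5. -/
@[ext] structure Gam where
  a : ℤ
  b : ℤ
  c : ℤ
  d : ℤ
  n : ℤ

namespace Gam

instance : One Gam := ⟨⟨0, 0, 0, 0, 0⟩⟩
instance : Mul Gam := ⟨fun g h => ⟨g.a + h.a, g.b + h.b, g.c + h.c, g.d + h.d,
  g.n + h.n + g.a * h.b + g.c * h.d⟩⟩
instance : Inv Gam := ⟨fun g => ⟨-g.a, -g.b, -g.c, -g.d, -g.n + g.a * g.b + g.c * g.d⟩⟩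

@[simp] lemma one_a : (1 : Gam).a = 0 := rfl
@[simp] lemma one_b : (1 : Gam).b = 0 := rfl
@[simp] lemma one_c : (1 : Gam).c = 0 := rfl
@[simp] lemma one_d : (1 : Gam).d = 0 := rfl
@[simp] lemma one_n : (1 : Gam).n = 0 := rfl
@[simp] lemma mul_a (g h : Gam) : (g * h).a = g.a + h.a := rfl
@[simp] lemma mul_b (g h : Gam) : (g * h).b = g.b + h.b := rfl
@[simp] lemma mul_c (g h : Gam) : (g * h).c = g.c + h.c := rfl
@[simp] lemma mul_d (g h : Gam) : (g * h).d = g.d + h.d := rfl
@[simp] lemma mul_n (g h : Gam) : (g * h).n = g.n + h.n + g.a * h.b + g.c * h.d := rfl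
@[simp] lemma inv_a (g : Gam) : (g⁻¹).a = -g.a := rfl
@[simp] lemma inv_b (g : Gam) : (g⁻¹).b = -g.b := rfl
@[simp] lemma inv_c (g : Gam) : (g⁻¹).c = -g.c := rfl
@[simp] lemma inv_d (g : Gam) : (g⁻¹).d = -g.d := rfl
@[simp] lemma inv_n (g : Gam) : (g⁻¹).n = -g.n + g.a * g.b + g.c * g.d := rfl

instance : Group Gam := Group.ofLeftAxioms
  (by intro g h k; ext <;> simp <;> ring)
  (by intro g; ext <;> simp)
  (by intro g; ext <;> simp <;> ring)

/-- The action of the integral Heisenberg group on `ℝ⁵`. -/
def act (g : Gam) (y : R5) : R5 :=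
  ![y 0 + g.a, y 1 + g.b, y 2 + g.c, y 3 + g.d, y 4 + g.n + g.a * y 1 + g.c * y 3]

@[simp] lemma act_zero (g : Gam) (y : R5) : act g y 0 = y 0 + g.a := rfl
@[simp] lemma act_one (g : Gam) (y : R5) : act g y 1 = y 1 + g.b := rfl
@[simp] lemma act_two (g : Gam) (y : R5) : act g y 2 = y 2 + g.c := rfl
@[simp] lemma act_three (g : Gam) (y : R5) : act g y 3 = y 3 + g.d := rfl
@[simp] lemma act_four (g : Gam) (y : R5) :
    act g y 4 = y 4 + g.n + g.a * y 1 + g.c * y 3 := rfl

instance : MulAction Gam R5 where
  smul := act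
  one_smul y := by
    ext i
    change act 1 y i = y i
    fin_cases i <;> simp
  mul_smul g h y := by
    ext i
    change act (g * h) y i = act g (act h y) i
    fin_cases i <;> simp <;> ring

lemma smul_def (g : Gam) (y : R5) : g • y = act g y := rfl

/-- the linear part of the action as a continuous linear map -/
def lin (g : Gam) : R5 →L[ℝ] R5 :=
  ContinuousLinearMap.id ℝ R5 +
    ((g.a : ℝ) • ContinuousLinearMap.proj 1 + (g.c : ℝ) • ContinuousLinearMap.proj 3 :
      R5 →L[ℝ] ℝ).smulRight (Pi.single 4 1)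

lemma lin_apply (g : Gam) (y : R5) :
    lin g y = y + (g.a * y 1 + g.c * y 3) • (Pi.single 4 1 : R5) := by
  simp [lin]

lemma smul_eq_lin (g : Gam) (y : R5) :
    g • y = lin g y + ![(g.a : ℝ), g.b, g.c, g.d, g.n] := by
  ext i
  rw [smul_def, lin_apply]
  fin_cases i <;> simp [act]
  ring

lemma contDiff_smul (g : Gam) {n : WithTop ℕ∞} : ContDiff ℝ n (fun y : R5 => g • y) := by
  have : (fun y : R5 => g • y) = fun y => lin g y + ![(g.a : ℝ), g.b, g.c, g.d, g.n] := by
    ext1 y
    exact smul_eq_lin g y
  rw [this]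
  exact (lin g).contDiff.add contDiff_const

lemma hasFDerivAt_smul (g : Gam) (y : R5) : HasFDerivAt (fun y : R5 => g • y) (lin g) y := by
  have : (fun y : R5 => g • y) = fun y => lin g y + ![(g.a : ℝ), g.b, g.c, g.d, g.n] := by
    ext1 y
    exact smul_eq_lin g y
  rw [this]
  exact (lin g).hasFDerivAt.add_const _

instance : ContinuousConstSMul Gam R5 where
  continuous_const_smul g := (contDiff_smul g (n := 0)).continuous

/-- every nontrivial element displaces every point by at least one -/
lemma one_le_dist_smul {g : Gam} (hg : g ≠ 1) (y : R5) : 1 ≤ dist (g • y) y := by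
  have hcoord : ∀ i, |(g • y) i - y i| ≤ dist (g • y) y := by
    intro i
    rw [← Real.dist_eq]
    exact dist_le_pi_dist _ _ i
  have hint : ∀ k : ℤ, k ≠ 0 → (1 : ℝ) ≤ |(k : ℝ)| := by
    intro k hk
    have := Int.one_le_abs hk
    exact_mod_cast this
  by_cases ha : g.a = 0
  · by_cases hb : g.b = 0
    · by_cases hc : g.c = 0
      · by_cases hd : g.d = 0
        · have hn : g.n ≠ 0 := by
            intro hn
            apply hg
            ext <;> simp [ha, hb, hc, hd, hn]
          refine (hint _ hn).trans ?_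
          have := hcoord 4
          simpa [smul_def, ha, hc] using this
        · refine (hint _ hd).trans ?_
          have := hcoord 3
          simpa [smul_def] using this
      · refine (hint _ hc).trans ?_
        have := hcoord 2
        simpa [smul_def] using this
    · refine (hint _ hb).trans ?_
      have := hcoord 1
      simpa [smul_def] using this
  · refine (hint _ ha).trans ?_
    have := hcoord 0
    simpa [smul_def] using this

lemma eq_one_of_dist_smul_lt {g : Gam} {y : R5} (h : dist (g • y) y < 1) : g = 1 := by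
  by_contra hg
  exact absurd (one_le_dist_smul hg y) (not_le.2 h)

end Gam

/-- The quotient `ℝ⁵ / Γ`. -/
abbrev Q : Type := Quotient (MulAction.orbitRel Gam R5)

/-- The projection to the quotient -/
def mk (y : R5) : Q := Quotient.mk (MulAction.orbitRel Gam R5) y

lemma mk_eq_mk {y z : R5} : mk y = mk z ↔ ∃ g : Gam, g • z = y := by
  unfold mk
  rw [Quotient.eq]
  rfl

lemma mk_smul (g : Gam) (y : R5) : mk (g • y) = mk y := mk_eq_mk.2 ⟨g, rfl⟩

lemma mk_surjective : Function.Surjective mk := Quotient.mk_surjective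

lemma isQuotientCoveringMap_mk : IsQuotientCoveringMap mk Gam where
  __ := isQuotientMap_quotient_mk' (s := MulAction.orbitRel Gam R5)
  apply_eq_iff_mem_orbit := Quotient.eq''
  continuous_const_smul g := continuous_const_smul g
  disjoint e := by
    refine ⟨Metric.ball e (1/2), Metric.ball_mem_nhds _ (by norm_num), ?_⟩
    rintro g ⟨_, ⟨y, hy, rfl⟩, hgy⟩
    simp only [] at hgy
    apply Gam.eq_one_of_dist_smul_lt (y := y)
    have h1 : dist (g • y) e < 1/2 := hgy
    have h2 : dist y e < 1/2 := hy
    calc dist (g • y) y ≤ dist (g • y) e + dist y e := dist_triangle_right _ _ _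
      _ < 1/2 + 1/2 := add_lt_add h1 h2
      _ = 1 := by norm_num

lemma isCoveringMap_mk : IsCoveringMap mk := isQuotientCoveringMap_mk.isCoveringMap

lemma continuous_mk : Continuous mk := isCoveringMap_mk.continuous

section LP

variable {Y : Type*} [TopologicalSpace Y]

/-- Two lifts of the same map which are continuous at a point differ near the point by a fixed
element of the group. -/
lemma exists_smul_eq_near {x : Y} {R R' : Y → R5} (hR : ContinuousAt R x) (hR' : ContinuousAt R' x)
    (h : ∀ᶠ x' in 𝓝 x, mk (R x') = mk (R' x')) :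
    ∃ g : Gam, ∀ᶠ x' in 𝓝 x, R x' = g • R' x' := by
  obtain ⟨g, hg⟩ := mk_eq_mk.1 h.self_of_nhds
  refine ⟨g, ?_⟩
  have hc : ContinuousAt (fun x' => g • R' x') x := hR'.const_smul g
  have hd : ContinuousAt (fun x' => dist (R x') (g • R' x')) x := hR.dist hc
  have h0 : dist (R x) (g • R' x) < 1 := by
    rw [hg, dist_self]; exact one_pos
  filter_upwards [h, hd.eventually (gt_mem_nhds h0)] with x' hx' hlt
  obtain ⟨k, hk⟩ := mk_eq_mk.1 hx'
  have h1 : R x' = (k * g⁻¹) • (g • R' x') := by
    rw [← hk, mul_smul, inv_smul_smul]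
  have h2 : k * g⁻¹ = 1 := by
    apply Gam.eq_one_of_dist_smul_lt (y := g • R' x')
    rw [← h1]
    exact hlt
  rw [h1, h2, one_smul]

/-- Lifting property of a subset `A` of a topological space: any map `A → ℝ⁵/Γ` lifts to `ℝ⁵`. -/
def LP (A : Set Y) : Prop :=
  ∀ f : Y → Q, ContinuousOn f A → ∃ R : Y → R5, ContinuousOn R A ∧ ∀ x ∈ A, mk (R x) = f x

lemma LP_empty : LP (∅ : Set Y) := fun f _ => ⟨fun _ => 0, continuousOn_empty _, by simp⟩

lemma LP_of_simplyConnected {A : Set Y} [SimplyConnectedSpace A] [LocallyPathConnectedSpace A] :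
    LP A := by
  intro f hf
  classical
  let f' : C(A, Q) := ⟨A.domRestrict f, continuousOn_iff_continuous_domRestrict.1 hf⟩
  obtain ⟨a₀⟩ : Nonempty A := inferInstance
  obtain ⟨e₀, he₀⟩ := mk_surjective (f' a₀)
  obtain ⟨F, ⟨-, hF⟩, -⟩ := isCoveringMap_mk.existsUnique_continuousMap_lifts f' a₀ e₀ he₀
  refine ⟨fun x => if hx : x ∈ A then F ⟨x, hx⟩ else 0, ?_, ?_⟩
  · rw [continuousOn_iff_continuous_domRestrict]
    have : A.domRestrict (fun x => if hx : x ∈ A then F ⟨x, hx⟩ else 0) = F := by
      ext1 x
      simp [Set.domRestrict]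
    rw [this]
    exact F.continuous
  · intro x hx
    simp only [hx, dif_pos]
    exact congrFun hF ⟨x, hx⟩

lemma LP_union {A B : Set Y} (hA : IsOpen A) (hB : IsOpen B) (hLA : LP A) (hLB : LP B)
    (hAB : IsPreconnected (A ∩ B)) : LP (A ∪ B) := by
  classical
  intro f hf
  obtain ⟨R, hRc, hR⟩ := hLA f (hf.mono subset_union_left)
  obtain ⟨S, hSc, hS⟩ := hLB f (hf.mono subset_union_right)
  -- there is a single group element
  have hcontR : ∀ x ∈ A, ContinuousAt R x := fun x hx => hRc.continuousAt (hA.mem_nhds hx)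
  have hcontS : ∀ x ∈ B, ContinuousAt S x := fun x hx => hSc.continuousAt (hB.mem_nhds hx)
  have hloc : ∀ x ∈ A ∩ B, ∃ g : Gam, ∀ᶠ x' in 𝓝 x, R x' = g • S x' := by
    intro x hx
    apply exists_smul_eq_near (hcontR x hx.1) (hcontS x hx.2)
    filter_upwards [hA.mem_nhds hx.1, hB.mem_nhds hx.2] with x' h1 h2
    rw [hR x' h1, hS x' h2]
  have hglob : ∃ g : Gam, ∀ x ∈ A ∩ B, R x = g • S x := by
    rcases (A ∩ B).eq_empty_or_nonempty with h | ⟨x₀, hx₀⟩
    · exact ⟨1, by simp [h]⟩
    · obtain ⟨g, hg⟩ := mk_eq_mk.1 (show mk (R x₀) = mk (S x₀) by rw [hR _ hx₀.1, hS _ hx₀.2])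
      refine ⟨g, ?_⟩
      -- the set where R = g • S is open, so is the set where not
      let U : Set Y := {x | ∀ᶠ x' in 𝓝 x, R x' = g • S x'}
      let V : Set Y := {x | ∀ᶠ x' in 𝓝 x, R x' ≠ g • S x'}
      have hU : IsOpen U := isOpen_setOfPred_eventually_nhds
      have hV : IsOpen V := isOpen_setOfPred_eventually_nhds
      have hcov : A ∩ B ⊆ U ∪ V := by
        intro x hx
        by_cases hRg : R x = g • S x
        · left
          obtain ⟨g', hg'⟩ := hloc x hx
          have : g' = g := by
            have h1 : g' • S x = g • S x := by rw [← hRg, hg'.self_of_nhds]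
            have h2 : (g⁻¹ * g') • S x = S x := by
              rw [mul_smul, h1, inv_smul_smul]
            have h3 : g⁻¹ * g' = 1 := by
              apply Gam.eq_one_of_dist_smul_lt (y := S x)
              rw [h2, dist_self]; exact one_pos
            exact (inv_mul_eq_one.1 h3).symm
          rw [this] at hg'
          exact hg'
        · right
          obtain ⟨g', hg'⟩ := hloc x hx
          have hne : ∀ᶠ x' in 𝓝 x, g' • S x' ≠ g • S x' := by
            have : ∀ x', g' • S x' = g • S x' → g' = g := by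
              intro x' h1
              have h2 : (g⁻¹ * g') • S x' = S x' := by
                rw [mul_smul, h1, inv_smul_smul]
              have h3 : g⁻¹ * g' = 1 := by
                apply Gam.eq_one_of_dist_smul_lt (y := S x')
                rw [h2, dist_self]; exact one_pos
              exact (inv_mul_eq_one.1 h3).symm
            refine Eventually.of_forall fun x' h1 => ?_
            have := this x' h1
            apply hRg
            rw [← this]
            exact hg'.self_of_nhds
          filter_upwards [hg', hne] with x' h1 h2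
          rw [h1]
          exact h2
      intro x hx
      by_contra hne
      have hxV : x ∈ V := by
        rcases hcov hx with h | h
        · exact absurd h.self_of_nhds hne
        · exact h
      have hx₀U : x₀ ∈ U := by
        rcases hcov hx₀ with h | h
        · exact h
        · exact absurd hg.symm h.self_of_nhds
      obtain ⟨z, hz, hzU, hzV⟩ := hAB U V hU hV hcov ⟨x₀, hx₀, hx₀U⟩ ⟨x, hx, hxV⟩
      exact hzV.self_of_nhds hzU.self_of_nhds
  obtain ⟨g, hg⟩ := hglob
  refine ⟨fun x => if x ∈ A then R x else g • S x, ?_, ?_⟩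
  · intro x hx
    apply ContinuousAt.continuousWithinAt
    rcases hx with hx | hx
    · apply (hcontR x hx).congr
      filter_upwards [hA.mem_nhds hx] with x' hx'
      simp [hx']
    · apply ((hcontS x hx).const_smul g).congr
      filter_upwards [hB.mem_nhds hx] with x' hx'
      by_cases h : x' ∈ A
      · simp [h, hg x' ⟨h, hx'⟩]
      · simp [h]
  · intro x hx
    by_cases h : x ∈ A
    · simp [h, hR x h]
    · have hB' : x ∈ B := hx.resolve_left h
      simp [h, mk_smul, hS x hB']

/-- Transport of the lifting property through a partial homeomorphism. -/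
lemma LP_preimage {Z : Type*} [TopologicalSpace Z] (e : OpenPartialHomeomorph Y Z) {B : Set Z}
    (hBt : B ⊆ e.target) (hL : LP B) : LP (e.source ∩ e ⁻¹' B) := by
  intro f hf
  have h1 : ContinuousOn (f ∘ e.symm) B := by
    apply hf.comp (e.continuousOn_symm.mono hBt)
    intro z hz
    refine ⟨e.map_target (hBt hz), ?_⟩
    simp only [mem_preimage, e.right_inv (hBt hz)]
    exact hz
  obtain ⟨R, hRc, hR⟩ := hL _ h1
  refine ⟨R ∘ e, ?_, ?_⟩
  · apply hRc.comp (e.continuousOn.mono inter_subset_left)
    intro x hx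
    exact hx.2
  · intro x hx
    simp only [Function.comp_apply]
    rw [hR _ hx.2, Function.comp_apply, e.left_inv hx.1]

end LP

end Pool.Agent.LibStein
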