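import Mathlib
import Pool.Agent.Lib_MP_4b4323_gt.Heis

set_option autoImplicit false

open Set Filter Topology

namespace Pool.Agent.LibStein

variable {E : Type*} [NormedAddCommGroup E] [NormedSpace ℝ E]

lemma homotopic_of_segment {P : Set E} (f g : C(P, P))
    (h : ∀ x : P, segment ℝ (f x : E) (g x : E) ⊆ P) : f.Homotopic g := by
  refine ⟨{ toFun := fun p => ⟨AffineMap.lineMap (f p.2 : E) (g p.2 : E) (p.1 : ℝ), ?_⟩
            continuous_toFun := ?_
            map_zero_left := ?_
            map_one_left := ?_ }⟩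
  · apply h p.2
    rw [segment_eq_image_lineMap]
    exact ⟨p.1, ⟨p.1.2.1, p.1.2.2⟩, rfl⟩
  · apply Continuous.subtype_mk
    simp only [AffineMap.lineMap_apply, vsub_eq_sub, vadd_eq_add]
    fun_prop
  · intro x
    ext
    simp
  · intro x
    ext
    simp

/-- An open set `P` of a convex box-like open set `D` which is stable under pushing in the
direction `u` and contains all the points of `D` far enough in this direction has the lifting
property. -/
lemma LP_push {D : Set E} (hDc : Convex ℝ D) (u : E) (m : E →L[ℝ] ℝ)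
    (hmu : m u = 1) (z0 : E) (r : ℝ) (hr : 0 < r) (hD : ∀ z ∈ D, |m (z - z0)| < r)
    (hbox : ∀ z ∈ D, ∀ t : ℝ, |m (z - z0) + t| < r → z + t • u ∈ D)
    {P : Set E} (hPo : IsOpen P) (hPD : P ⊆ D)
    (hpush : ∀ z ∈ P, ∀ t : ℝ, 0 ≤ t → m (z - z0) + t < r → z + t • u ∈ P)
    (hfar : ∀ z ∈ D, r / 2 < m (z - z0) → z ∈ P) : LP P := by
  rcases P.eq_empty_or_nonempty with hP | ⟨z₁, hz₁⟩
  · rw [hP]; exact LP_empty
  -- base point
  have hms : ∀ (z : E) (t : ℝ), m (z + t • u - z0) = m (z - z0) + t := by
    intro z t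
    have : z + t • u - z0 = (z - z0) + t • u := by abel
    rw [this, map_add, map_smul, hmu, smul_eq_mul, mul_one]
  let c0 : E := z₁ + (3 * r / 4 - m (z₁ - z0)) • u
  have hc0D : c0 ∈ D := by
    apply hbox z₁ (hPD hz₁)
    rw [abs_lt]
    constructor <;> linarith
  have hc0m : m (c0 - z0) = 3 * r / 4 := by
    simp only [c0, hms]; ring
  let C : Set E := {z ∈ D | r / 2 < m (z - z0)}
  have hCP : C ⊆ P := fun z hz => hfar z hz.1 hz.2
  have hCconv : Convex ℝ C := by
    intro x hx y hy a b ha hb hab
    refine ⟨hDc hx.1 hy.1 ha hb hab, ?_⟩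
    have h1 : a • x + b • y - z0 = a • (x - z0) + b • (y - z0) := by
      have : z0 = a • z0 + b • z0 := by rw [← add_smul, hab, one_smul]
      calc a • x + b • y - z0 = a • x + b • y - (a • z0 + b • z0) := by rw [← this]
        _ = _ := by rw [smul_sub, smul_sub]; abel
    rw [h1, map_add, map_smul, map_smul, smul_eq_mul, smul_eq_mul]
    have hx2 := hx.2
    have hy2 := hy.2
    rcases eq_or_lt_of_le ha with h0 | h0
    · have : b = 1 := by linarith
      rw [← h0, this]; linarith
    · nlinarith
  -- the pushing map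
  let gfun : E → E := fun z => z + (max 0 (3 * r / 4 - m (z - z0))) • u
  have hgC : ∀ z ∈ P, gfun z ∈ C := by
    intro z hz
    have hzD := hPD hz
    have habs := abs_lt.1 (hD z hzD)
    have hmg : m (gfun z - z0) = max (m (z - z0)) (3 * r / 4) := by
      simp only [gfun, hms]
      rcases le_total (3 * r / 4) (m (z - z0)) with h | h
      · rw [max_eq_left (by linarith), max_eq_left h, add_zero]
      · rw [max_eq_right (by linarith), max_eq_right h]; ring
    refine ⟨?_, ?_⟩
    · apply hbox z hzD
      rcases le_total (3 * r / 4) (m (z - z0)) with h | h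
      · rw [max_eq_left (by linarith), add_zero]; exact hD z hzD
      · rw [max_eq_right (by linarith), abs_lt]
        constructor <;> linarith
    · rw [hmg]
      exact lt_of_lt_of_le (by linarith) (le_max_right _ _)
  have hgcont : Continuous gfun := by
    simp only [gfun]
    fun_prop
  let g : C(P, P) := ⟨fun z => ⟨gfun z, hCP (hgC z z.2)⟩, by
    apply Continuous.subtype_mk
    exact hgcont.comp continuous_subtype_val⟩
  have hc0C : c0 ∈ C := ⟨hc0D, by rw [hc0m]; linarith⟩
  have H1 : (ContinuousMap.id P).Homotopic g := by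
    apply homotopic_of_segment
    intro z w hw
    rw [segment_eq_image_lineMap] at hw
    obtain ⟨t, ht, rfl⟩ := hw
    have h1 : (AffineMap.lineMap ((ContinuousMap.id P) z : E) (g z : E)) t
        = (z : E) + (t * max 0 (3 * r / 4 - m ((z : E) - z0))) • u := by
      simp only [AffineMap.lineMap_apply, ContinuousMap.id_apply, vsub_eq_sub, vadd_eq_add, g,
        ContinuousMap.coe_mk, gfun, add_sub_cancel_left, smul_smul]
      rw [add_comm]
    rw [h1]
    apply hpush z z.2
    · exact mul_nonneg ht.1 (le_max_left _ _)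
    · have habs := abs_lt.1 (hD z (hPD z.2))
      have ht1 := ht.2
      have ht0 := ht.1
      rcases le_total (3 * r / 4) (m ((z : E) - z0)) with h | h
      · rw [max_eq_left (by linarith), mul_zero, add_zero]; exact habs.2
      · rw [max_eq_right (by linarith)]
        nlinarith
  have H2 : g.Homotopic (ContinuousMap.const P ⟨c0, hCP hc0C⟩) := by
    apply homotopic_of_segment
    intro z
    exact (hCconv.segment_subset (hgC z z.2) hc0C).trans hCP
  have hcontr : ContractibleSpace P := by
    rw [contractible_iff_id_nullhomotopic]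
    exact ⟨_, H1.trans H2⟩
  have : LocallyPathConnectedSpace P := hPo.locallyPathConnectedSpace
  exact LP_of_simplyConnected

/-- The lifting property for the complement of convex slices in a box. -/
theorem LP_box {D : Set E} (hDo : IsOpen D) (hDc : Convex ℝ D) (z0 : E) (hz0 : z0 ∈ D) (r : ℝ)
    (hr : 0 < r) (e : Fin 3 → E) (l : Fin 3 → E →L[ℝ] ℝ)
    (hdual : ∀ i j, l i (e j) = if i = j then 1 else 0)
    (hD : ∀ z ∈ D, ∀ i, |l i (z - z0)| < r)
    (hbox : ∀ z ∈ D, ∀ t : Fin 3 → ℝ, (∀ i, |l i (z - z0) + t i| < r) → z + ∑ i, t i • e i ∈ D)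
    (h : E → ℝ) (hc : ContinuousOn h D)
    (hqc : ∀ z ∈ D, ∀ t : Fin 3 → ℝ, z + ∑ i, t i • e i ∈ D → h z ≤ 0 → h (z + ∑ i, t i • e i) ≤ 0 →
      ∀ s ∈ Icc (0 : ℝ) 1, h (z + s • ∑ i, t i • e i) ≤ 0)
    (hfar : ∀ z ∈ D, ∀ i, r / 2 < |l i (z - z0)| → 0 < h z) :
    LP {z ∈ D | 0 < h z} := by
  -- evaluation of the functionals
  have hl0 : ∀ (z : E) (t : Fin 3 → ℝ) (i : Fin 3), l i (z + ∑ j, t j • e j - z0)
      = l i (z - z0) + t i := by
    intro z t i
    have : z + ∑ j, t j • e j - z0 = (z - z0) + ∑ j, t j • e j := by abel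
    rw [this, map_add, map_sum]
    congr 1
    simp only [map_smul, hdual, smul_eq_mul]
    rw [Finset.sum_eq_single i]
    · simp
    · intro b _ hb
      simp [hb.symm]
    · simp
  have hvec : ∀ a b : ℝ, (∑ j, (![a, b, 0] : Fin 3 → ℝ) j • e j) = a • e 0 + b • e 1 := by
    intro a b
    rw [Fin.sum_univ_three]
    simp
  have hDadd : ∀ z ∈ D, ∀ a b : ℝ, |l 0 (z - z0) + a| < r → |l 1 (z - z0) + b| < r →
      z + (a • e 0 + b • e 1) ∈ D := by
    intro z hz a b ha hb
    rw [← hvec]
    apply hbox z hz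
    intro i
    fin_cases i
    · simpa using ha
    · simpa using hb
    · simpa using hD z hz 2
  have hl : ∀ (z : E) (a b : ℝ), l 0 (z + (a • e 0 + b • e 1) - z0) = l 0 (z - z0) + a ∧
      l 1 (z + (a • e 0 + b • e 1) - z0) = l 1 (z - z0) + b ∧
      l 2 (z + (a • e 0 + b • e 1) - z0) = l 2 (z - z0) := by
    intro z a b
    rw [← hvec]
    refine ⟨?_, ?_, ?_⟩
    · rw [hl0]; simp
    · rw [hl0]; simp
    · rw [hl0]; simp
  have hDadd0 : ∀ z ∈ D, ∀ a : ℝ, |l 0 (z - z0) + a| < r → z + a • e 0 ∈ D := by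
    intro z hz a ha
    have := hDadd z hz a 0 ha (by simpa using hD z hz 1)
    simpa using this
  have hl_0 : ∀ (z : E) (a : ℝ), l 0 (z + a • e 0 - z0) = l 0 (z - z0) + a := by
    intro z a
    have := (hl z a 0).1
    simpa using this
  -- the sets A σ
  let A : ℝ → Set E := fun σ => {z ∈ D | ∀ t : ℝ, 0 ≤ t → z + (σ * t) • e 0 ∈ D →
    0 < h (z + (σ * t) • e 0)}
  have hAopen : ∀ σ : ℝ, σ = 1 ∨ σ = -1 → IsOpen (A σ) := by
    intro σ hσ
    have hσabs : |σ| = 1 := by rcases hσ with h | h <;> simp [h]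
    rw [isOpen_iff_mem_nhds]
    rintro z ⟨hzD, hz⟩
    have key : ∀ᶠ z' in 𝓝 z, ∀ t ∈ Icc (0 : ℝ) (2 * r), (z' + (σ * t) • e 0 ∈ D →
        0 < h (z' + (σ * t) • e 0)) := by
      apply isCompact_Icc.eventually_forall_of_forall_eventually
      intro t ht
      have hcmap : Continuous fun p : E × ℝ => p.1 + (σ * p.2) • e 0 := by fun_prop
      by_cases hin : z + (σ * t) • e 0 ∈ D
      · have h1 := hz t ht.1 hin
        have h2 : ContinuousAt (fun p : E × ℝ => h (p.1 + (σ * p.2) • e 0)) (z, t) := by
          have h3 : ContinuousAt h ((fun p : E × ℝ => p.1 + (σ * p.2) • e 0) (z, t)) :=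
            hc.continuousAt (hDo.mem_nhds hin)
          exact ContinuousAt.comp (f := fun p : E × ℝ => p.1 + (σ * p.2) • e 0) h3
            hcmap.continuousAt
        filter_upwards [h2.eventually (lt_mem_nhds h1)] with p hp _
        exact hp
      · have h1 : r / 2 < |l 0 (z + (σ * t) • e 0 - z0)| := by
          by_contra hcon
          apply hin
          apply hDadd0 z hzD
          rw [← hl_0]
          linarith [not_lt.1 hcon]
        have h2 : ContinuousAt (fun p : E × ℝ => |l 0 (p.1 + (σ * p.2) • e 0 - z0)|) (z, t) := by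
          apply Continuous.continuousAt
          fun_prop
        filter_upwards [h2.eventually (lt_mem_nhds h1)] with p hp hpD
        exact hfar _ hpD 0 hp
    filter_upwards [key, hDo.mem_nhds hzD] with z' hz' hz'D
    refine ⟨hz'D, ?_⟩
    intro t ht htD
    apply hz' t ⟨ht, ?_⟩ htD
    have h1 := hD _ htD 0
    rw [hl_0] at h1
    have h2 := hD _ hz'D 0
    have h3 : |σ * t| < 2 * r := by
      calc |σ * t| = |(l 0 (z' - z0) + σ * t) - l 0 (z' - z0)| := by ring_nf
        _ ≤ |l 0 (z' - z0) + σ * t| + |l 0 (z' - z0)| := abs_sub _ _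
        _ < 2 * r := by linarith
    rw [abs_mul, hσabs, one_mul, abs_of_nonneg ht] at h3
    exact h3.le
  have hALP : ∀ σ : ℝ, σ = 1 ∨ σ = -1 → LP (A σ) := by
    intro σ hσ
    have hσσ : σ * σ = 1 := by rcases hσ with h | h <;> simp [h]
    have hσabs : |σ| = 1 := by rcases hσ with h | h <;> simp [h]
    have hm : ∀ z : E, (σ • l 0) z = σ * l 0 z := fun z => rfl
    apply LP_push hDc (σ • e 0) (σ • l 0) _ z0 r hr _ _ (hAopen σ hσ) (fun z hz => hz.1)
    · -- hpush
      intro z hz t ht hlt
      have hz0 := hD z hz.1 0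
      rw [hm] at hlt
      have hgood : ∀ t' : ℝ, 0 ≤ t' → σ * l 0 (z - z0) + t' < r → z + t' • σ • e 0 ∈ D := by
        intro t' ht' hlt'
        rw [smul_smul, mul_comm]
        apply hDadd0 z hz.1
        have h1 : l 0 (z - z0) + σ * t' = σ * (σ * l 0 (z - z0) + t') := by
          rw [mul_add, ← mul_assoc, hσσ, one_mul]
        rw [h1, abs_mul, hσabs, one_mul, abs_lt]
        have h2 : |σ * l 0 (z - z0)| < r := by rw [abs_mul, hσabs, one_mul]; exact hz0
        have := abs_lt.1 h2
        constructor <;> linarith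
      refine ⟨hgood t ht hlt, ?_⟩
      intro t' ht' hin
      have h1 : z + t • σ • e 0 + (σ * t') • e 0 = z + (σ * (t + t')) • e 0 := by
        rw [smul_smul, add_assoc, ← add_smul]
        congr 2
        ring
      rw [h1] at hin ⊢
      exact hz.2 _ (by linarith) hin
    · -- hfar
      intro z hz hlt
      rw [hm] at hlt
      refine ⟨hz, ?_⟩
      intro t ht hin
      apply hfar _ hin 0
      rw [hl_0]
      have h1 : σ * (l 0 (z - z0) + σ * t) = σ * l 0 (z - z0) + t := by
        rw [mul_add, ← mul_assoc, hσσ, one_mul]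
      calc r / 2 < σ * (l 0 (z - z0) + σ * t) := by rw [h1]; linarith
        _ ≤ |σ * (l 0 (z - z0) + σ * t)| := le_abs_self _
        _ = _ := by rw [abs_mul, hσabs, one_mul]
    · -- m u = 1
      rw [hm, map_smul, hdual]
      simpa using hσσ
    · intro z hz
      rw [hm, abs_mul, hσabs, one_mul]
      exact hD z hz 0
    · intro z hz t ht
      rw [hm] at ht
      rw [smul_smul, mul_comm]
      apply hDadd0 z hz
      have h1 : l 0 (z - z0) + σ * t = σ * (σ * l 0 (z - z0) + t) := by
        rw [mul_add, ← mul_assoc, hσσ, one_mul]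
      rw [h1, abs_mul, hσabs, one_mul]
      exact ht
  -- the union
  have hunion : {z ∈ D | 0 < h z} = A 1 ∪ A (-1) := by
    apply Subset.antisymm
    · rintro z ⟨hzD, hz⟩
      by_contra hcon
      rw [mem_union, not_or] at hcon
      obtain ⟨h1, h2⟩ := hcon
      have h1' : ∃ t : ℝ, 0 ≤ t ∧ z + (1 * t) • e 0 ∈ D ∧ h (z + (1 * t) • e 0) ≤ 0 := by
        by_contra hne
        push Not at hne
        exact h1 ⟨hzD, fun t ht hin => hne t ht hin⟩
      have h2' : ∃ t : ℝ, 0 ≤ t ∧ z + (-1 * t) • e 0 ∈ D ∧ h (z + (-1 * t) • e 0) ≤ 0 := by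
        by_contra hne
        push Not at hne
        exact h2 ⟨hzD, fun t ht hin => hne t ht hin⟩
      obtain ⟨t1, ht1, hin1, hle1⟩ := h1'
      obtain ⟨t2, ht2, hin2, hle2⟩ := h2'
      have ht1pos : 0 < t1 := by
        rcases eq_or_lt_of_le ht1 with h0 | h0
        · rw [← h0] at hle1
          simp only [mul_zero, zero_smul, add_zero] at hle1
          exact absurd hz (not_lt.2 hle1)
        · exact h0
      set w := z + (-1 * t2) • e 0 with hw
      have hsum : (∑ j, (![t1 + t2, 0, 0] : Fin 3 → ℝ) j • e j) = (t1 + t2) • e 0 := by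
        rw [hvec]; simp
      have hend : w + (t1 + t2) • e 0 = z + (1 * t1) • e 0 := by
        rw [hw, add_assoc, ← add_smul]
        congr 2
        ring
      have := hqc w hin2 ![t1 + t2, 0, 0] (by rw [hsum, hend]; exact hin1) hle2
        (by rw [hsum, hend]; exact hle1) (t2 / (t1 + t2))
        ⟨by positivity, by rw [div_le_one (by positivity)]; linarith⟩
      rw [hsum, smul_smul, div_mul_cancel₀ _ (by positivity), hw, add_assoc, ← add_smul] at this
      have h0 : (-1 * t2 + t2) = 0 := by ring
      rw [h0, zero_smul, add_zero] at this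
      exact absurd hz (not_lt.2 this)
    · rintro z (hz | hz)
      · refine ⟨hz.1, ?_⟩
        have := hz.2 0 le_rfl (by simpa using hz.1)
        simpa using this
      · refine ⟨hz.1, ?_⟩
        have := hz.2 0 le_rfl (by simpa using hz.1)
        simpa using this
  -- the intersection
  let T : Set E := {z ∈ D | ∀ t : ℝ, z + t • e 0 ∈ D → 0 < h (z + t • e 0)}
  have hinter : A 1 ∩ A (-1) = T := by
    apply Subset.antisymm
    · rintro z ⟨h1, h2⟩
      refine ⟨h1.1, fun t hin => ?_⟩
      rcases le_total 0 t with ht | ht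
      · have := h1.2 t ht
        rw [one_mul] at this
        exact this hin
      · have := h2.2 (-t) (by linarith)
        rw [neg_mul_neg, one_mul] at this
        exact this hin
    · rintro z ⟨hzD, hz⟩
      exact ⟨⟨hzD, fun t _ hin => hz _ hin⟩, ⟨hzD, fun t _ hin => hz _ hin⟩⟩
  let B : ℝ → Set E := fun σ => {z ∈ D | ∀ t t' : ℝ, 0 ≤ t' →
    z + (t • e 0 + (σ * t') • e 1) ∈ D → 0 < h (z + (t • e 0 + (σ * t') • e 1))}
  have hBconn : ∀ σ : ℝ, σ = 1 ∨ σ = -1 → IsPathConnected (B σ) := by
    intro σ hσ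
    have hσσ : σ * σ = 1 := by rcases hσ with h | h <;> simp [h]
    have hσabs : |σ| = 1 := by rcases hσ with h | h <;> simp [h]
    -- far region
    let C : Set E := {z ∈ D | r / 2 < σ * l 1 (z - z0)}
    have hCB : C ⊆ B σ := by
      rintro z ⟨hzD, hz⟩
      refine ⟨hzD, ?_⟩
      intro t t' ht' hin
      apply hfar _ hin 1
      rw [(hl z t (σ * t')).2.1]
      have h1 : σ * (l 1 (z - z0) + σ * t') = σ * l 1 (z - z0) + t' := by
        rw [mul_add, ← mul_assoc, hσσ, one_mul]
      calc r / 2 < σ * (l 1 (z - z0) + σ * t') := by rw [h1]; linarith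
        _ ≤ |σ * (l 1 (z - z0) + σ * t')| := le_abs_self _
        _ = _ := by rw [abs_mul, hσabs, one_mul]
    have hCconv : Convex ℝ C := by
      intro x hx y hy a b ha hb hab
      refine ⟨hDc hx.1 hy.1 ha hb hab, ?_⟩
      have h1 : a • x + b • y - z0 = a • (x - z0) + b • (y - z0) := by
        have : z0 = a • z0 + b • z0 := by rw [← add_smul, hab, one_smul]
        calc a • x + b • y - z0 = a • x + b • y - (a • z0 + b • z0) := by rw [← this]
          _ = _ := by rw [smul_sub, smul_sub]; abel
      rw [h1, map_add, map_smul, map_smul, smul_eq_mul, smul_eq_mul]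
      have hx2 := hx.2
      have hy2 := hy.2
      rcases eq_or_lt_of_le ha with h0 | h0
      · have : b = 1 := by linarith
        rw [← h0, this]; linarith
      · nlinarith
    have hpushD : ∀ z ∈ D, ∀ t' : ℝ, 0 ≤ t' → σ * l 1 (z - z0) + t' < r →
        z + (σ * t') • e 1 ∈ D := by
      intro z hz t' ht' hlt
      have hgoal := hDadd z hz 0 (σ * t') (by simpa using hD z hz 0) (by
        have h1 : l 1 (z - z0) + σ * t' = σ * (σ * l 1 (z - z0) + t') := by
          rw [mul_add, ← mul_assoc, hσσ, one_mul]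
        rw [h1, abs_mul, hσabs, one_mul, abs_lt]
        have h2 : |σ * l 1 (z - z0)| < r := by rw [abs_mul, hσabs, one_mul]; exact hD z hz 1
        have := abs_lt.1 h2
        constructor <;> linarith)
      simpa using hgoal
    have hl1 : ∀ (z : E) (b : ℝ), l 1 (z + b • e 1 - z0) = l 1 (z - z0) + b := by
      intro z b
      have := (hl z 0 b).2.1
      simpa using this
    -- base point
    have hbase : z0 + (σ * (3 * r / 4)) • e 1 ∈ C := by
      refine ⟨hpushD z0 hz0 _ (by positivity) (by simp; linarith), ?_⟩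
      rw [hl1]
      simp only [sub_self, map_zero, zero_add]
      rw [← mul_assoc, hσσ]
      linarith
    refine ⟨z0 + (σ * (3 * r / 4)) • e 1, hCB hbase, ?_⟩
    intro z hz
    -- push z
    set τ := max 0 (3 * r / 4 - σ * l 1 (z - z0)) with hτ
    have hτ0 : 0 ≤ τ := le_max_left _ _
    have hzabs : |σ * l 1 (z - z0)| < r := by rw [abs_mul, hσabs, one_mul]; exact hD z hz.1 1
    have hzabs' := abs_lt.1 hzabs
    have hτlt : σ * l 1 (z - z0) + τ < r := by
      rcases le_total (3 * r / 4) (σ * l 1 (z - z0)) with h | h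
      · rw [hτ, max_eq_left (by linarith), add_zero]; exact hzabs'.2
      · rw [hτ, max_eq_right (by linarith)]; linarith
    have hz'C : z + (σ * τ) • e 1 ∈ C := by
      refine ⟨hpushD z hz.1 τ hτ0 hτlt, ?_⟩
      rw [hl1, mul_add, ← mul_assoc, hσσ, one_mul]
      rcases le_total (3 * r / 4) (σ * l 1 (z - z0)) with h | h
      · linarith
      · rw [hτ, max_eq_right (by linarith)]; linarith
    have hBpush : ∀ t' : ℝ, 0 ≤ t' → σ * l 1 (z - z0) + t' < r → z + (σ * t') • e 1 ∈ B σ := by
      intro t' ht' hlt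
      refine ⟨hpushD z hz.1 t' ht' hlt, ?_⟩
      intro s s' hs' hin
      have h1 : z + (σ * t') • e 1 + (s • e 0 + (σ * s') • e 1)
          = z + (s • e 0 + (σ * (t' + s')) • e 1) := by
        rw [mul_add, add_smul]; abel
      rw [h1] at hin ⊢
      exact hz.2 _ _ (by linarith) hin
    have hj1 : JoinedIn (B σ) z (z + (σ * τ) • e 1) := by
      apply JoinedIn.of_segment_subset
      intro w hw
      rw [segment_eq_image_lineMap] at hw
      obtain ⟨t, ht, rfl⟩ := hw
      have h1 : (AffineMap.lineMap z (z + (σ * τ) • e 1)) t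
          = z + (σ * (t * τ)) • e 1 := by
        simp only [AffineMap.lineMap_apply, vsub_eq_sub, vadd_eq_add, add_sub_cancel_left,
          smul_smul]
        rw [add_comm]
        congr 2
        ring
      rw [h1]
      apply hBpush
      · exact mul_nonneg ht.1 hτ0
      · have : t * τ ≤ τ := mul_le_of_le_one_left hτ0 ht.2
        linarith
    have hj2 : JoinedIn (B σ) (z0 + (σ * (3 * r / 4)) • e 1) (z + (σ * τ) • e 1) := by
      apply JoinedIn.of_segment_subset
      exact (hCconv.segment_subset hbase hz'C).trans hCB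
    exact hj2.trans hj1.symm
  have hTB : T = B 1 ∪ B (-1) := by
    apply Subset.antisymm
    · rintro z ⟨hzD, hz⟩
      by_contra hcon
      rw [mem_union, not_or] at hcon
      obtain ⟨h1, h2⟩ := hcon
      have h1' : ∃ t t' : ℝ, 0 ≤ t' ∧ z + (t • e 0 + (1 * t') • e 1) ∈ D ∧
          h (z + (t • e 0 + (1 * t') • e 1)) ≤ 0 := by
        by_contra hne
        push Not at hne
        exact h1 ⟨hzD, fun t t' ht hin => hne t t' ht hin⟩
      have h2' : ∃ t t' : ℝ, 0 ≤ t' ∧ z + (t • e 0 + (-1 * t') • e 1) ∈ D ∧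
          h (z + (t • e 0 + (-1 * t') • e 1)) ≤ 0 := by
        by_contra hne
        push Not at hne
        exact h2 ⟨hzD, fun t t' ht hin => hne t t' ht hin⟩
      obtain ⟨t1, s1, hs1, hin1, hle1⟩ := h1'
      obtain ⟨t2, s2, hs2, hin2, hle2⟩ := h2'
      have hs1pos : 0 < s1 := by
        rcases eq_or_lt_of_le hs1 with h0 | h0
        · rw [← h0] at hle1 hin1
          simp only [mul_zero, zero_smul, add_zero] at hle1 hin1
          exact absurd (hz t1 hin1) (not_lt.2 hle1)
        · exact h0
      set w := z + (t2 • e 0 + (-1 * s2) • e 1) with hw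
      have hend : w + ((t1 - t2) • e 0 + (s1 + s2) • e 1) = z + (t1 • e 0 + (1 * s1) • e 1) := by
        rw [hw]
        simp only [add_smul, sub_smul, one_mul, neg_mul, neg_smul]
        abel
      set s := s2 / (s1 + s2) with hs
      have hs01 : s ∈ Icc (0 : ℝ) 1 :=
        ⟨by positivity, by rw [hs, div_le_one (by positivity)]; linarith⟩
      have hle := hqc w hin2 ![t1 - t2, s1 + s2, 0] (by rw [hvec, hend]; exact hin1) hle2
        (by rw [hvec, hend]; exact hle1) s hs01
      have hmem : w + s • ((t1 - t2) • e 0 + (s1 + s2) • e 1) ∈ D := by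
        have h3 : w + s • ((t1 - t2) • e 0 + (s1 + s2) • e 1)
            = (1 - s) • w + s • (w + ((t1 - t2) • e 0 + (s1 + s2) • e 1)) := by
          rw [smul_add s w, ← add_assoc, ← add_smul]
          simp
        rw [h3]
        apply hDc hin2 (by rw [hend]; exact hin1) (by linarith [hs01.2]) hs01.1 (by ring)
      have heq : w + s • ((t1 - t2) • e 0 + (s1 + s2) • e 1)
          = z + (t2 + s * (t1 - t2)) • e 0 := by
        have h4 : s * (s1 + s2) = s2 := by rw [hs]; field_simp
        rw [smul_add, smul_smul, smul_smul, h4, hw, add_smul]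
        simp only [neg_mul, one_mul, neg_smul]
        abel
      rw [hvec, heq] at hle
      rw [heq] at hmem
      exact absurd (hz _ hmem) (not_lt.2 hle)
    · rintro z (hz | hz)
      · refine ⟨hz.1, fun t hin => ?_⟩
        have := hz.2 t 0 le_rfl
        simp only [mul_zero, zero_smul, add_zero] at this
        exact this hin
      · refine ⟨hz.1, fun t hin => ?_⟩
        have := hz.2 t 0 le_rfl
        simp only [mul_zero, zero_smul, add_zero] at this
        exact this hin
  have hTconn : IsPreconnected T := by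
    rw [hTB]
    -- common point
    have hp : z0 + ∑ i, (![0, 0, 3 * r / 4] : Fin 3 → ℝ) i • e i ∈ D := by
      apply hbox z0 hz0
      intro i
      fin_cases i
      · simpa using hr
      · simpa using hr
      · simp only [sub_self, map_zero, zero_add]
        simp only [Fin.reduceFinMk, Matrix.cons_val]
        rw [abs_of_pos (by positivity)]
        linarith
    have hpB : ∀ σ : ℝ, z0 + ∑ i, (![0, 0, 3 * r / 4] : Fin 3 → ℝ) i • e i ∈ B σ := by
      intro σ
      refine ⟨hp, ?_⟩
      intro t t' _ hin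
      apply hfar _ hin 2
      rw [(hl _ _ _).2.2, hl0]
      simp only [sub_self, map_zero, zero_add, Matrix.cons_val]
      rw [abs_of_pos (by positivity)]
      linarith
    exact IsPreconnected.union _ (hpB 1) (hpB (-1))
      (hBconn 1 (Or.inl rfl)).isConnected.isPreconnected
      (hBconn (-1) (Or.inr rfl)).isConnected.isPreconnected
  rw [hunion]
  apply LP_union (hAopen 1 (Or.inl rfl)) (hAopen (-1) (Or.inr rfl)) (hALP 1 (Or.inl rfl))
    (hALP (-1) (Or.inr rfl))
  rw [hinter]
  exact hTconn

end Pool.Agent.LibStein
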