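import Mathlib
import Pool.Agent.Lib_MP_4b4323_gt.BoxLP

set_option autoImplicit false

open Set Filter Topology

namespace Pool.Agent.LibStein

section Line

variable {E : Type*} [NormedAddCommGroup E] [NormedSpace ℝ E]

lemma hasDerivAt_line {f : E → ℝ} {Ω : Set E} (hΩ : IsOpen Ω) (hf : ContDiffOn ℝ 2 f Ω)
    (z u : E) (τ : ℝ) (hz : z + τ • u ∈ Ω) :
    HasDerivAt (fun τ : ℝ => f (z + τ • u)) (fderiv ℝ f (z + τ • u) u) τ := by
  have h1 : DifferentiableAt ℝ f (z + τ • u) :=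
    (hf.contDiffAt (hΩ.mem_nhds hz)).differentiableAt two_ne_zero
  have h2 : HasDerivAt (fun τ : ℝ => z + τ • u) u τ := by
    simpa using ((hasDerivAt_id τ).smul_const u).const_add z
  exact h1.hasFDerivAt.comp_hasDerivAt τ h2

lemma hasDerivAt_line2 {f : E → ℝ} {Ω : Set E} (hΩ : IsOpen Ω) (hf : ContDiffOn ℝ 2 f Ω)
    (z u : E) (τ : ℝ) (hz : z + τ • u ∈ Ω) :
    HasDerivAt (fun τ : ℝ => fderiv ℝ f (z + τ • u) u)
      (fderiv ℝ (fderiv ℝ f) (z + τ • u) u u) τ := by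
  have h0 : ContDiffAt ℝ 1 (fderiv ℝ f) (z + τ • u) :=
    (hf.contDiffAt (hΩ.mem_nhds hz)).fderiv_right (by norm_num)
  have h1 : DifferentiableAt ℝ (fderiv ℝ f) (z + τ • u) := h0.differentiableAt one_ne_zero
  have h2 : HasDerivAt (fun τ : ℝ => z + τ • u) u τ := by
    simpa using ((hasDerivAt_id τ).smul_const u).const_add z
  have h3 : HasDerivAt (fun τ : ℝ => fderiv ℝ f (z + τ • u))
      (fderiv ℝ (fderiv ℝ f) (z + τ • u) u) τ := h1.hasFDerivAt.comp_hasDerivAt τ h2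
  simpa using h3.clm_apply (hasDerivAt_const τ u)

/-- Convexity along a segment. -/
lemma convexOn_line {f : E → ℝ} {Ω : Set E} (hΩ : IsOpen Ω) (hf : ContDiffOn ℝ 2 f Ω)
    (z u : E) (hz : ∀ τ ∈ Icc (0 : ℝ) 1, z + τ • u ∈ Ω) (c : ℝ)
    (hpos : ∀ τ ∈ Icc (0 : ℝ) 1, c ≤ fderiv ℝ (fderiv ℝ f) (z + τ • u) u u) :
    ConvexOn ℝ (Icc (0 : ℝ) 1) (fun τ : ℝ => f (z + τ • u) - c / 2 * τ ^ 2) := by
  have hd1 : ∀ τ ∈ Icc (0 : ℝ) 1, HasDerivAt (fun τ : ℝ => f (z + τ • u) - c / 2 * τ ^ 2)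
      (fderiv ℝ f (z + τ • u) u - c * τ) τ := by
    intro τ hτ
    have h1 := hasDerivAt_line hΩ hf z u τ (hz τ hτ)
    have h2 : HasDerivAt (fun τ : ℝ => c / 2 * τ ^ 2) (c * τ) τ := by
      have := (hasDerivAt_pow 2 τ).const_mul (c / 2)
      refine this.congr_deriv ?_
      norm_num
      ring
    exact h1.sub h2
  have hd2 : ∀ τ ∈ Icc (0 : ℝ) 1, HasDerivAt (fun τ : ℝ => fderiv ℝ f (z + τ • u) u - c * τ)
      (fderiv ℝ (fderiv ℝ f) (z + τ • u) u u - c) τ := by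
    intro τ hτ
    have h1 := hasDerivAt_line2 hΩ hf z u τ (hz τ hτ)
    have h2 : HasDerivAt (fun τ : ℝ => c * τ) c τ := by
      simpa using (hasDerivAt_id τ).const_mul c
    exact h1.sub h2
  apply convexOn_of_hasDerivWithinAt2_nonneg (convex_Icc 0 1)
    (f' := fun τ : ℝ => fderiv ℝ f (z + τ • u) u - c * τ)
    (f'' := fun τ : ℝ => fderiv ℝ (fderiv ℝ f) (z + τ • u) u u - c)
  · intro τ hτ
    exact (hd1 τ hτ).continuousAt.continuousWithinAt
  · intro τ hτ
    exact (hd1 τ (interior_subset hτ)).hasDerivWithinAt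
  · intro τ hτ
    exact (hd2 τ (interior_subset hτ)).hasDerivWithinAt
  · intro τ hτ
    have := hpos τ (interior_subset hτ)
    change 0 ≤ fderiv ℝ (fderiv ℝ f) (z + τ • u) u u - c
    linarith

end Line

section Main

variable {E : Type*} [NormedAddCommGroup E] [NormedSpace ℝ E] [FiniteDimensional ℝ E]

/-- The local statement: near `z0` the superlevel set of `f` (and its small perturbations) has the
lifting property. -/
def LocGood (f : E → ℝ) (z0 : E) (Ω : Set E) : Prop :=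
  ∀ U : Set E, IsOpen U → z0 ∈ U → ∃ D : Set E, IsOpen D ∧ z0 ∈ D ∧ D ⊆ U ∧ D ⊆ Ω ∧
    ∀ (n : ℕ) (γ : Fin n → E → ℝ), (∀ i, ContDiffOn ℝ 2 (γ i) Ω) →
      ∃ ε : ℝ, 0 < ε ∧ ∀ a : Fin n → ℝ, (∀ i, |a i| ≤ ε) →
        LP {z ∈ D | 0 < f z - f z0 + ∑ i, a i * γ i z}

lemma exists_bound {Ω K : Set E} (hΩ : IsOpen Ω) (hK : IsCompact K) (hKΩ : K ⊆ Ω)
    {n : ℕ} {γ : Fin n → E → ℝ} (hγ : ∀ i, ContDiffOn ℝ 2 (γ i) Ω) :
    ∃ M : ℝ, 0 ≤ M ∧ ∀ z ∈ K, (∑ i, |γ i z|) ≤ M ∧ (∑ i, ‖fderiv ℝ (γ i) z‖) ≤ M ∧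
      (∑ i, ‖fderiv ℝ (fderiv ℝ (γ i)) z‖) ≤ M := by
  have h0 : ContinuousOn (fun z => ∑ i, |γ i z|) K := by
    apply continuousOn_finsetSum
    intro i _
    exact ((hγ i).continuousOn.mono hKΩ).abs
  have hγ1 : ∀ i, ContDiffOn ℝ 1 (fderiv ℝ (γ i)) Ω := fun i =>
    (hγ i).fderiv_of_isOpen hΩ (by norm_num)
  have h1 : ContinuousOn (fun z => ∑ i, ‖fderiv ℝ (γ i) z‖) K := by
    apply continuousOn_finsetSum
    intro i _
    exact ((hγ1 i).continuousOn.mono hKΩ).norm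
  have hγ2 : ∀ i, ContDiffOn ℝ 0 (fderiv ℝ (fderiv ℝ (γ i))) Ω := fun i =>
    (hγ1 i).fderiv_of_isOpen hΩ (by norm_num)
  have h2 : ContinuousOn (fun z => ∑ i, ‖fderiv ℝ (fderiv ℝ (γ i)) z‖) K := by
    apply continuousOn_finsetSum
    intro i _
    exact Continuous.comp_continuousOn (g := fun A : E →L[ℝ] E →L[ℝ] ℝ => ‖A‖)
      (continuous_norm (E := E →L[ℝ] E →L[ℝ] ℝ)) ((hγ2 i).continuousOn.mono hKΩ)
  obtain ⟨M0, hM0⟩ := hK.exists_bound_of_continuousOn h0
  obtain ⟨M1, hM1⟩ := hK.exists_bound_of_continuousOn h1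
  obtain ⟨M2, hM2⟩ := hK.exists_bound_of_continuousOn h2
  refine ⟨max 0 (max M0 (max M1 M2)), le_max_left _ _, fun z hz => ⟨?_, ?_, ?_⟩⟩
  · exact (le_abs_self _).trans ((hM0 z hz).trans ((le_max_left _ _).trans (le_max_right _ _)))
  · exact (le_abs_self _).trans ((hM1 z hz).trans
      ((le_max_left _ _).trans ((le_max_right _ _).trans (le_max_right _ _))))
  · exact (le_abs_self _).trans ((hM2 z hz).trans
      ((le_max_right _ _).trans ((le_max_right _ _).trans (le_max_right _ _))))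

lemma abs_sum_mul_le {n : ℕ} {a b c : Fin n → ℝ} {ε M : ℝ} (hε : 0 ≤ ε) (ha : ∀ i, |a i| ≤ ε)
    (hb : ∀ i, |b i| ≤ c i) (hc : ∑ i, c i ≤ M) : |∑ i, a i * b i| ≤ ε * M := by
  calc |∑ i, a i * b i| ≤ ∑ i, |a i * b i| := Finset.abs_sum_le_sum_abs _ _
    _ ≤ ∑ i, ε * c i := by
        apply Finset.sum_le_sum
        intro i _
        rw [abs_mul]
        exact mul_le_mul (ha i) (hb i) (abs_nonneg _) hε
    _ = ε * ∑ i, c i := by rw [Finset.mul_sum]
    _ ≤ ε * M := by gcongr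

lemma contDiffOn_perturb {f : E → ℝ} {Ω : Set E} (hf : ContDiffOn ℝ 2 f Ω) {n : ℕ}
    {γ : Fin n → E → ℝ} (hγ : ∀ i, ContDiffOn ℝ 2 (γ i) Ω) (a : Fin n → ℝ) (c : ℝ) :
    ContDiffOn ℝ 2 (fun z => f z - c + ∑ i, a i * γ i z) Ω := by
  apply (hf.sub contDiffOn_const).add
  apply ContDiffOn.sum
  intro i _
  exact contDiffOn_const.mul (hγ i)

lemma fderiv_perturb {f : E → ℝ} {Ω : Set E} (hΩ : IsOpen Ω) (hf : ContDiffOn ℝ 2 f Ω) {n : ℕ}
    {γ : Fin n → E → ℝ} (hγ : ∀ i, ContDiffOn ℝ 2 (γ i) Ω) (a : Fin n → ℝ) (c : ℝ)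
    {z : E} (hz : z ∈ Ω) :
    fderiv ℝ (fun z => f z - c + ∑ i, a i * γ i z) z
      = fderiv ℝ f z + ∑ i, a i • fderiv ℝ (γ i) z := by
  have h1 : HasFDerivAt f (fderiv ℝ f z) z :=
    ((hf.contDiffAt (hΩ.mem_nhds hz)).differentiableAt two_ne_zero).hasFDerivAt
  have h2 : ∀ i, HasFDerivAt (γ i) (fderiv ℝ (γ i) z) z := fun i =>
    (((hγ i).contDiffAt (hΩ.mem_nhds hz)).differentiableAt two_ne_zero).hasFDerivAt
  apply HasFDerivAt.fderiv
  apply (h1.sub_const c).add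
  apply HasFDerivAt.fun_sum
  intro i _
  exact (h2 i).const_mul (a i)

lemma fderiv2_perturb {f : E → ℝ} {Ω : Set E} (hΩ : IsOpen Ω) (hf : ContDiffOn ℝ 2 f Ω) {n : ℕ}
    {γ : Fin n → E → ℝ} (hγ : ∀ i, ContDiffOn ℝ 2 (γ i) Ω) (a : Fin n → ℝ) (c : ℝ)
    {z : E} (hz : z ∈ Ω) :
    fderiv ℝ (fderiv ℝ (fun z => f z - c + ∑ i, a i * γ i z)) z
      = fderiv ℝ (fderiv ℝ f) z + ∑ i, a i • fderiv ℝ (fderiv ℝ (γ i)) z := by
  have h0 : fderiv ℝ (fun z => f z - c + ∑ i, a i * γ i z) =ᶠ[𝓝 z]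
      fun z => fderiv ℝ f z + ∑ i, a i • fderiv ℝ (γ i) z := by
    filter_upwards [hΩ.mem_nhds hz] with z' hz'
    exact fderiv_perturb hΩ hf hγ a c hz'
  rw [h0.fderiv_eq]
  have h1 : HasFDerivAt (fderiv ℝ f) (fderiv ℝ (fderiv ℝ f) z) z :=
    (((hf.contDiffAt (hΩ.mem_nhds hz)).fderiv_right (m := 1) (by norm_num)).differentiableAt
      one_ne_zero).hasFDerivAt
  have h2 : ∀ i, HasFDerivAt (fderiv ℝ (γ i)) (fderiv ℝ (fderiv ℝ (γ i)) z) z := fun i =>
    ((((hγ i).contDiffAt (hΩ.mem_nhds hz)).fderiv_right (m := 1) (by norm_num)).differentiableAt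
      one_ne_zero).hasFDerivAt
  apply HasFDerivAt.fderiv
  apply h1.add
  apply HasFDerivAt.fun_sum
  intro i _
  exact (h2 i).const_smul (a i)

/-- Case 1: a regular point. -/
lemma locGood_of_fderiv_ne_zero {f : E → ℝ} {z0 : E} {Ω : Set E} (hΩ : IsOpen Ω) (hz0 : z0 ∈ Ω)
    (hf : ContDiffOn ℝ 2 f Ω) (hreg : fderiv ℝ f z0 ≠ 0) : LocGood f z0 Ω := by
  intro U hU hz0U
  obtain ⟨v, hv⟩ : ∃ v, fderiv ℝ f z0 v ≠ 0 := by
    by_contra hcon
    push Not at hcon
    exact hreg (ContinuousLinearMap.ext hcon)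
  set m := fderiv ℝ f z0 with hm
  obtain ⟨u, hmu⟩ : ∃ u : E, m u = 1 :=
    ⟨(m v)⁻¹ • v, by rw [map_smul, smul_eq_mul, inv_mul_cancel₀ hv]⟩
  -- radius
  have hfd : HasFDerivAt f m z0 :=
    ((hf.contDiffAt (hΩ.mem_nhds hz0)).differentiableAt two_ne_zero).hasFDerivAt
  have hη : (0 : ℝ) < 1 / (8 * (‖u‖ + 1)) := by positivity
  have hlin := hfd.isLittleO.def hη
  have hcd : ContinuousAt (fun z => fderiv ℝ f z u) z0 := by
    have h1 : ContinuousAt (fderiv ℝ f) z0 :=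
      ((hf.contDiffAt (hΩ.mem_nhds hz0)).fderiv_right (m := 1) (by norm_num)).continuousAt
    exact h1.clm_apply continuousAt_const
  have hder : ∀ᶠ z in 𝓝 z0, 3 / 4 < fderiv ℝ f z u := by
    apply hcd.eventually (lt_mem_nhds _)
    change 3 / 4 < m u
    rw [hmu]; norm_num
  obtain ⟨R, hR, hball⟩ := Metric.eventually_nhds_iff.1
    (hlin.and (hder.and ((hΩ.eventually_mem hz0).and (hU.eventually_mem hz0U))))
  set r := R / 2 / (‖u‖ + 1) with hr
  have hrpos : 0 < r := by positivity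
  have hru : r * (‖u‖ + 1) = R / 2 := by rw [hr]; field_simp
  let D : Set E := {z | |m (z - z0)| < r ∧ ‖(z - z0) - m (z - z0) • u‖ < r}
  have hDnorm : ∀ z ∈ D, ‖z - z0‖ < R / 2 := by
    rintro z ⟨h1, h2⟩
    calc ‖z - z0‖ = ‖m (z - z0) • u + ((z - z0) - m (z - z0) • u)‖ := by congr 1; abel
      _ ≤ ‖m (z - z0) • u‖ + ‖(z - z0) - m (z - z0) • u‖ := norm_add_le _ _
      _ = |m (z - z0)| * ‖u‖ + ‖(z - z0) - m (z - z0) • u‖ := by
          rw [norm_smul, Real.norm_eq_abs]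
      _ < r * ‖u‖ + r := by
          apply add_lt_add_of_le_of_lt _ h2
          gcongr
      _ = R / 2 := by rw [← hru]; ring
  have hDball : D ⊆ Metric.closedBall z0 (R / 2) := fun z hz => by
    rw [mem_closedBall_iff_norm]; exact (hDnorm z hz).le
  have hcball : ∀ z ∈ Metric.closedBall z0 (R / 2), dist z z0 < R := by
    intro z hz
    have := Metric.mem_closedBall.1 hz
    linarith
  have hDo : IsOpen D := by
    have h1 : IsOpen {z : E | |m (z - z0)| < r} := isOpen_lt (by fun_prop) continuous_const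
    have h2 : IsOpen {z : E | ‖(z - z0) - m (z - z0) • u‖ < r} :=
      isOpen_lt (by fun_prop) continuous_const
    exact h1.inter h2
  have hDc : Convex ℝ D := by
    intro x hx y hy a b ha hb hab
    have h1 : a • x + b • y - z0 = a • (x - z0) + b • (y - z0) := by
      have : z0 = a • z0 + b • z0 := by rw [← add_smul, hab, one_smul]
      calc a • x + b • y - z0 = a • x + b • y - (a • z0 + b • z0) := by rw [← this]
        _ = _ := by rw [smul_sub, smul_sub]; abel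
    constructor
    · rw [h1, map_add, map_smul, map_smul, smul_eq_mul, smul_eq_mul]
      have hx1 := abs_lt.1 hx.1
      have hy1 := abs_lt.1 hy.1
      rw [abs_lt]
      rcases eq_or_lt_of_le ha with h0 | h0
      · have : b = 1 := by linarith
        rw [← h0, this]
        constructor <;> linarith
      · constructor <;> nlinarith
    · have h2 : a • x + b • y - z0 - m (a • x + b • y - z0) • u
          = a • ((x - z0) - m (x - z0) • u) + b • ((y - z0) - m (y - z0) • u) := by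
        rw [h1, map_add, map_smul, map_smul, smul_eq_mul, smul_eq_mul]
        module
      rw [h2]
      calc ‖a • ((x - z0) - m (x - z0) • u) + b • ((y - z0) - m (y - z0) • u)‖
          ≤ ‖a • ((x - z0) - m (x - z0) • u)‖ + ‖b • ((y - z0) - m (y - z0) • u)‖ :=
            norm_add_le _ _
        _ = a * ‖(x - z0) - m (x - z0) • u‖ + b * ‖(y - z0) - m (y - z0) • u‖ := by
            rw [norm_smul, norm_smul, Real.norm_of_nonneg ha, Real.norm_of_nonneg hb]
        _ < r := by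
            have hx2 := hx.2
            have hy2 := hy.2
            rcases eq_or_lt_of_le ha with h0 | h0
            · have : b = 1 := by linarith
              rw [← h0, this]
              linarith
            · nlinarith
  have hz0D : z0 ∈ D := by
    constructor <;> simp [hrpos]
  refine ⟨D, hDo, hz0D, fun z hz => (hball (hcball z (hDball hz))).2.2.2,
    fun z hz => (hball (hcball z (hDball hz))).2.2.1, ?_⟩
  intro n γ hγ
  have hcbΩ : Metric.closedBall z0 (R / 2) ⊆ Ω := fun z hz => (hball (hcball z hz)).2.2.1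
  obtain ⟨M, hM0, hM⟩ := exists_bound hΩ (isCompact_closedBall z0 (R / 2)) hcbΩ hγ
  set ε := min (r / 8) (1 / 4) / ((M + 1) * (‖u‖ + 1)) with hε
  have hεpos : 0 < ε := by positivity
  refine ⟨ε, hεpos, ?_⟩
  intro a ha
  set h : E → ℝ := fun z => f z - f z0 + ∑ i, a i * γ i z with hh
  have hhC : ContDiffOn ℝ 2 h Ω := contDiffOn_perturb hf hγ a (f z0)
  -- bounds
  have hεM : ε * M ≤ r / 8 := by
    have h1 : ε * ((M + 1) * (‖u‖ + 1)) = min (r / 8) (1 / 4) := by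
      rw [hε]; field_simp
    have h2 : ε * M ≤ ε * ((M + 1) * (‖u‖ + 1)) := by
      gcongr
      nlinarith [norm_nonneg u]
    calc ε * M ≤ min (r / 8) (1 / 4) := by rw [← h1]; exact h2
      _ ≤ r / 8 := min_le_left _ _
  have hεM' : ε * M * ‖u‖ ≤ 1 / 4 := by
    have h1 : ε * ((M + 1) * (‖u‖ + 1)) = min (r / 8) (1 / 4) := by
      rw [hε]; field_simp
    have h2 : ε * M * ‖u‖ ≤ ε * ((M + 1) * (‖u‖ + 1)) := by
      rw [mul_assoc]
      gcongr
      · linarith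
      · linarith [norm_nonneg u]
    calc ε * M * ‖u‖ ≤ min (r / 8) (1 / 4) := by rw [← h1]; exact h2
      _ ≤ 1 / 4 := min_le_right _ _
  have hpert : ∀ z ∈ Metric.closedBall z0 (R / 2), |∑ i, a i * γ i z| ≤ r / 8 := by
    intro z hz
    exact (abs_sum_mul_le hεpos.le ha (fun i => le_rfl) (hM z hz).1).trans hεM
  have hderh : ∀ z ∈ Metric.closedBall z0 (R / 2), 0 ≤ fderiv ℝ h z u := by
    intro z hz
    have hzR := hball (hcball z hz)
    rw [hh, fderiv_perturb hΩ hf hγ a (f z0) hzR.2.2.1]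
    have h1 : (fderiv ℝ f z + ∑ i, a i • fderiv ℝ (γ i) z) u
        = fderiv ℝ f z u + ∑ i, a i * (fderiv ℝ (γ i) z u) := by
      rw [add_apply, sum_apply]
      rfl
    rw [h1]
    have h2 : |∑ i, a i * (fderiv ℝ (γ i) z u)| ≤ ε * (M * ‖u‖) := by
      apply abs_sum_mul_le (c := fun i => ‖fderiv ℝ (γ i) z‖ * ‖u‖) hεpos.le ha
      · intro i
        exact (fderiv ℝ (γ i) z).le_opNorm u
      · rw [← Finset.sum_mul]
        gcongr
        exact (hM z hz).2.1
    rw [← mul_assoc] at h2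
    have h3 := (abs_le.1 (h2.trans hεM')).1
    have h4 := hzR.2.1
    linarith
  have hmono : ∀ z ∈ D, ∀ t : ℝ, 0 ≤ t → z + t • u ∈ D → h z ≤ h (z + t • u) := by
    intro z hz t ht hzt
    have hmem : ∀ τ ∈ Icc (0 : ℝ) t, z + τ • u ∈ D := by
      intro τ hτ
      rcases eq_or_lt_of_le ht with h0 | h0
      · have : τ = 0 := le_antisymm (by rw [h0]; exact hτ.2) hτ.1
        rw [this]; simpa using hz
      · have h1 : z + τ • u = (1 - τ / t) • z + (τ / t) • (z + t • u) := by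
          rw [smul_add, ← add_assoc, ← add_smul, smul_smul, div_mul_cancel₀ _ h0.ne']
          simp
        rw [h1]
        apply hDc hz hzt
        · rw [sub_nonneg, div_le_one h0]; exact hτ.2
        · exact div_nonneg hτ.1 ht
        · ring
    have hcont : ContinuousOn (fun τ : ℝ => h (z + τ • u)) (Icc 0 t) := by
      intro τ hτ
      exact (hasDerivAt_line hΩ hhC z u τ (hcbΩ (hDball (hmem τ hτ)))).continuousAt.continuousWithinAt
    have hmon : MonotoneOn (fun τ : ℝ => h (z + τ • u)) (Icc 0 t) := by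
      apply monotoneOn_of_hasDerivWithinAt_nonneg (convex_Icc 0 t) hcont
        (f' := fun τ => fderiv ℝ h (z + τ • u) u)
      · intro τ hτ
        exact (hasDerivAt_line hΩ hhC z u τ
          (hcbΩ (hDball (hmem τ (interior_subset hτ))))).hasDerivWithinAt
      · intro τ hτ
        exact hderh _ (hDball (hmem τ (interior_subset hτ)))
    have := hmon (left_mem_Icc.2 ht) (right_mem_Icc.2 ht) ht
    simpa using this
  have hPo : IsOpen {z ∈ D | 0 < h z} := by
    have : {z ∈ D | 0 < h z} = D ∩ h ⁻¹' (Ioi 0) := rfl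
    rw [this]
    apply ContinuousOn.isOpen_inter_preimage _ hDo isOpen_Ioi
    exact hhC.continuousOn.mono (hDball.trans hcbΩ)
  have hms : ∀ (z : E) (t : ℝ), m (z + t • u - z0) = m (z - z0) + t := by
    intro z t
    have : z + t • u - z0 = (z - z0) + t • u := by abel
    rw [this, map_add, map_smul, hmu, smul_eq_mul, mul_one]
  have hbox : ∀ z ∈ D, ∀ t : ℝ, |m (z - z0) + t| < r → z + t • u ∈ D := by
    intro z hz t ht
    refine ⟨by rw [hms]; exact ht, ?_⟩
    have : z + t • u - z0 - m (z + t • u - z0) • u = z - z0 - m (z - z0) • u := by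
      rw [hms, add_smul]; abel
    rw [this]
    exact hz.2
  apply LP_push hDc u m hmu z0 r hrpos (fun z hz => hz.1) hbox hPo (fun z hz => hz.1)
  · intro z hz t ht hlt
    have hzt : z + t • u ∈ D := by
      apply hbox z hz.1
      have := abs_lt.1 hz.1.1
      rw [abs_lt]
      constructor <;> linarith
    exact ⟨hzt, lt_of_lt_of_le hz.2 (hmono z hz.1 t ht hzt)⟩
  · intro z hz hlt
    refine ⟨hz, ?_⟩
    have h1 := (hball (hcball z (hDball hz))).1
    rw [Real.norm_eq_abs] at h1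
    have h2 : ‖z - z0‖ ≤ r * (‖u‖ + 1) := by rw [hru]; exact (hDnorm z hz).le
    have h3 : |f z - f z0 - m (z - z0)| ≤ r / 8 := by
      calc |f z - f z0 - m (z - z0)| ≤ 1 / (8 * (‖u‖ + 1)) * ‖z - z0‖ := h1
        _ ≤ 1 / (8 * (‖u‖ + 1)) * (r * (‖u‖ + 1)) := by gcongr
        _ = r / 8 := by field_simp
    have h4 := abs_le.1 h3
    have h5 := abs_le.1 (hpert z (hDball hz))
    change 0 < f z - f z0 + ∑ i, a i * γ i z
    linarith [h4.1, h5.1]

end Main

end Pool.Agent.LibStein
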