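import Mathlib
import Pool.Agent.Lib_MP_4b4323_gt.LocalA

set_option autoImplicit false

open Set Filter Topology

namespace Pool.Agent.LibStein

section Main

variable {E : Type*} [NormedAddCommGroup E] [NormedSpace ℝ E] [FiniteDimensional ℝ E]

/-- Case 2: a critical point with three orthonormal positive directions. -/
lemma locGood_of_orthonormal {f : E → ℝ} {z0 : E} {Ω : Set E} (hΩ : IsOpen Ω) (hz0 : z0 ∈ Ω)
    (hf : ContDiffOn ℝ 2 f Ω) (hcrit : fderiv ℝ f z0 = 0) (e : Fin 3 → E)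
    (he : ∀ i j, fderiv ℝ (fderiv ℝ f) z0 (e i) (e j) = if i = j then 1 else 0) :
    LocGood f z0 Ω := by
  intro U hU hz0U
  set B := fderiv ℝ (fderiv ℝ f) z0 with hB
  set l : Fin 3 → E →L[ℝ] ℝ := fun i => B (e i) with hl
  have hdual : ∀ i j, l i (e j) = if i = j then 1 else 0 := he
  set S := ∑ i, ‖e i‖ ^ 2 with hS
  set A := ∑ i, ‖e i‖ with hA
  have hS0 : 0 ≤ S := Finset.sum_nonneg fun i _ => by positivity
  have hA0 : 0 ≤ A := Finset.sum_nonneg fun i _ => by positivity
  have hnormu : ∀ t : Fin 3 → ℝ, ‖∑ i, t i • e i‖ ^ 2 ≤ (∑ i, t i ^ 2) * S := by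
    intro t
    have h1 : ‖∑ i, t i • e i‖ ≤ ∑ i, |t i| * ‖e i‖ := by
      refine (norm_sum_le _ _).trans (le_of_eq ?_)
      refine Finset.sum_congr rfl fun i _ => ?_
      rw [norm_smul, Real.norm_eq_abs]
    calc ‖∑ i, t i • e i‖ ^ 2 ≤ (∑ i, |t i| * ‖e i‖) ^ 2 := by gcongr
      _ ≤ (∑ i, |t i| ^ 2) * (∑ i, ‖e i‖ ^ 2) := Finset.sum_mul_sq_le_sq_mul_sq _ _ _
      _ = (∑ i, t i ^ 2) * S := by simp [hS, sq_abs]
  have hBu : ∀ t : Fin 3 → ℝ, B (∑ i, t i • e i) (∑ i, t i • e i) = ∑ i, t i ^ 2 := by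
    intro t
    simp only [map_sum, map_smul, sum_apply, smul_apply, he,
      smul_eq_mul]
    refine Finset.sum_congr rfl fun i _ => ?_
    rw [Finset.sum_eq_single i]
    · simp; ring
    · intro b _ hb
      simp [hb]
    · simp
  -- radius
  have hcd : ContinuousAt (fderiv ℝ (fderiv ℝ f)) z0 := by
    have h1 : ContDiffAt ℝ 1 (fderiv ℝ f) z0 :=
      (hf.contDiffAt (hΩ.mem_nhds hz0)).fderiv_right (by norm_num)
    exact (h1.fderiv_right (m := 0) (by norm_num)).continuousAt
  have hclose : ∀ᶠ z in 𝓝 z0, dist (fderiv ℝ (fderiv ℝ f) z) B < 1 / (2 * (S + 1)) := by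
    exact hcd (Metric.ball_mem_nhds B (show (0 : ℝ) < 1 / (2 * (S + 1)) by positivity))
  obtain ⟨R, hR, hball⟩ := Metric.eventually_nhds_iff.1
    (hclose.and ((hΩ.eventually_mem hz0).and (hU.eventually_mem hz0U)))
  have hcball : ∀ z ∈ Metric.closedBall z0 (R / 2), dist z z0 < R := by
    intro z hz
    have := Metric.mem_closedBall.1 hz
    linarith
  have hcbΩ : Metric.closedBall z0 (R / 2) ⊆ Ω := fun z hz => (hball (hcball z hz)).2.1
  have hHess : ∀ z ∈ Metric.closedBall z0 (R / 2), ∀ t : Fin 3 → ℝ,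
      1 / 2 * ∑ i, t i ^ 2 ≤ fderiv ℝ (fderiv ℝ f) z (∑ i, t i • e i) (∑ i, t i • e i) := by
    intro z hz t
    set w := ∑ i, t i • e i with hw
    have h1 : ‖fderiv ℝ (fderiv ℝ f) z - B‖ < 1 / (2 * (S + 1)) := by
      have h0 := (hball (hcball z hz)).1
      have h00 := dist_eq_norm (E := E →L[ℝ] E →L[ℝ] ℝ) (fderiv ℝ (fderiv ℝ f) z) B
      exact h00 ▸ h0
    have h2 : |fderiv ℝ (fderiv ℝ f) z w w - B w w| ≤ 1 / (2 * (S + 1)) * ‖w‖ ^ 2 := by
      have : fderiv ℝ (fderiv ℝ f) z w w - B w w = (fderiv ℝ (fderiv ℝ f) z - B) w w := rfl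
      rw [this, ← Real.norm_eq_abs]
      calc ‖(fderiv ℝ (fderiv ℝ f) z - B) w w‖
          ≤ ‖fderiv ℝ (fderiv ℝ f) z - B‖ * ‖w‖ * ‖w‖ :=
            (fderiv ℝ (fderiv ℝ f) z - B).le_opNorm₂ w w
        _ ≤ 1 / (2 * (S + 1)) * ‖w‖ * ‖w‖ := by gcongr
        _ = _ := by ring
    have h3 : 1 / (2 * (S + 1)) * ‖w‖ ^ 2 ≤ 1 / 2 * ∑ i, t i ^ 2 := by
      have h4 : 0 ≤ ∑ i, t i ^ 2 := Finset.sum_nonneg fun i _ => by positivity
      calc 1 / (2 * (S + 1)) * ‖w‖ ^ 2 ≤ 1 / (2 * (S + 1)) * ((∑ i, t i ^ 2) * S) := by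
            gcongr; exact hnormu t
        _ ≤ 1 / (2 * (S + 1)) * ((∑ i, t i ^ 2) * (S + 1)) := by gcongr; linarith
        _ = 1 / 2 * ∑ i, t i ^ 2 := by field_simp
    have h5 := (abs_le.1 (h2.trans h3)).1
    have h6 := hBu t
    rw [← hw] at h6
    linarith
  set r := R / 4 / (A + 1) with hr
  have hrpos : 0 < r := by positivity
  have hrA : r * A ≤ R / 4 := by
    have : r * (A + 1) = R / 4 := by rw [hr]; field_simp
    nlinarith
  -- uniform continuity
  obtain ⟨s1, hs1, hunif⟩ := Metric.uniformContinuousOn_iff.1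
    ((isCompact_closedBall z0 (R / 2)).uniformContinuousOn_of_continuous
      (hf.continuousOn.mono hcbΩ)) (r ^ 2 / 64) (by positivity)
  set s := min (R / 4) s1 with hs
  have hspos : 0 < s := by positivity
  let pr : E → E := fun v => v - ∑ i, l i v • e i
  have hpr_cont : Continuous pr := by
    simp only [pr]
    fun_prop
  have hpr_add : ∀ v w, pr (v + w) = pr v + pr w := by
    intro v w
    simp only [pr, map_add, add_smul, Finset.sum_add_distrib]
    abel
  have hpr_smul : ∀ (c : ℝ) v, pr (c • v) = c • pr v := by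
    intro c v
    simp only [pr, map_smul, smul_eq_mul, smul_sub, Finset.smul_sum, smul_smul]
  let D : Set E := {z | (∀ i, |l i (z - z0)| < r) ∧ ‖pr (z - z0)‖ < s}
  have hlsum : ∀ (t : Fin 3 → ℝ) (i : Fin 3), l i (∑ j, t j • e j) = t i := by
    intro t i
    rw [map_sum]
    simp only [map_smul, hdual, smul_eq_mul]
    rw [Finset.sum_eq_single i]
    · simp
    · intro b _ hb
      simp [hb.symm]
    · simp
  have hprsum : ∀ t : Fin 3 → ℝ, pr (∑ j, t j • e j) = 0 := by
    intro t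
    simp only [pr, hlsum]
    simp
  have hnorm1 : ∀ t : Fin 3 → ℝ, (∀ i, |t i| ≤ r) → ‖∑ i, t i • e i‖ ≤ R / 4 := by
    intro t ht
    calc ‖∑ i, t i • e i‖ ≤ ∑ i, ‖t i • e i‖ := norm_sum_le _ _
      _ ≤ ∑ i, r * ‖e i‖ := by
          apply Finset.sum_le_sum
          intro i _
          rw [norm_smul, Real.norm_eq_abs]
          gcongr
          exact ht i
      _ = r * A := by rw [Finset.mul_sum]
      _ ≤ R / 4 := hrA
  have hDnorm : ∀ z ∈ D, ‖z - z0‖ ≤ R / 2 := by
    rintro z ⟨h1, h2⟩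
    calc ‖z - z0‖ = ‖(∑ i, l i (z - z0) • e i) + pr (z - z0)‖ := by
          congr 1; simp only [pr]; abel
      _ ≤ ‖∑ i, l i (z - z0) • e i‖ + ‖pr (z - z0)‖ := norm_add_le _ _
      _ ≤ R / 4 + R / 4 := by
          gcongr
          · exact hnorm1 _ fun i => (h1 i).le
          · exact h2.le.trans (min_le_left _ _)
      _ = R / 2 := by ring
  have hDball : D ⊆ Metric.closedBall z0 (R / 2) := fun z hz => by
    rw [mem_closedBall_iff_norm]; exact hDnorm z hz
  have hDo : IsOpen D := by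
    apply IsOpen.inter
    · have : {z : E | ∀ i, |l i (z - z0)| < r} = ⋂ i, {z : E | |l i (z - z0)| < r} := by
        ext z; simp
      change IsOpen {z : E | ∀ i, |l i (z - z0)| < r}
      rw [this]
      apply isOpen_iInter_of_finite
      intro i
      exact isOpen_lt (by fun_prop) continuous_const
    · have h2 : Continuous fun z : E => ‖pr (z - z0)‖ :=
        (hpr_cont.comp (continuous_id.sub continuous_const)).norm
      exact isOpen_lt h2 continuous_const
  have hDc : Convex ℝ D := by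
    intro x hx y hy a b ha hb hab
    have h1 : a • x + b • y - z0 = a • (x - z0) + b • (y - z0) := by
      have : z0 = a • z0 + b • z0 := by rw [← add_smul, hab, one_smul]
      calc a • x + b • y - z0 = a • x + b • y - (a • z0 + b • z0) := by rw [← this]
        _ = _ := by rw [smul_sub, smul_sub]; abel
    constructor
    · intro i
      rw [h1, map_add, map_smul, map_smul, smul_eq_mul, smul_eq_mul]
      have hx1 := abs_lt.1 (hx.1 i)
      have hy1 := abs_lt.1 (hy.1 i)
      rw [abs_lt]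
      rcases eq_or_lt_of_le ha with h0 | h0
      · have : b = 1 := by linarith
        rw [← h0, this]
        constructor <;> linarith
      · constructor <;> nlinarith
    · rw [h1, hpr_add, hpr_smul, hpr_smul]
      calc ‖a • pr (x - z0) + b • pr (y - z0)‖
          ≤ ‖a • pr (x - z0)‖ + ‖b • pr (y - z0)‖ := norm_add_le _ _
        _ = a * ‖pr (x - z0)‖ + b * ‖pr (y - z0)‖ := by
            rw [norm_smul, norm_smul, Real.norm_of_nonneg ha, Real.norm_of_nonneg hb]
        _ < s := by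
            have hx2 := hx.2
            have hy2 := hy.2
            rcases eq_or_lt_of_le ha with h0 | h0
            · have : b = 1 := by linarith
              rw [← h0, this]
              linarith
            · nlinarith
  have hz0D : z0 ∈ D := by
    refine ⟨fun i => by simp [hrpos], ?_⟩
    have : pr (z0 - z0) = 0 := by simp [pr]
    rw [this, norm_zero]
    exact hspos
  refine ⟨D, hDo, hz0D, fun z hz => (hball (hcball z (hDball hz))).2.2,
    fun z hz => hcbΩ (hDball hz), ?_⟩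
  intro n γ hγ
  obtain ⟨M, hM0, hM⟩ := exists_bound hΩ (isCompact_closedBall z0 (R / 2)) hcbΩ hγ
  set ε := min (r ^ 2 / 64) (1 / 4) / ((M + 1) * (S + 1)) with hε
  have hεpos : 0 < ε := by positivity
  refine ⟨ε, hεpos, ?_⟩
  intro a ha
  set h : E → ℝ := fun z => f z - f z0 + ∑ i, a i * γ i z with hh
  have hhC : ContDiffOn ℝ 2 h Ω := contDiffOn_perturb hf hγ a (f z0)
  have hεMS : ε * ((M + 1) * (S + 1)) = min (r ^ 2 / 64) (1 / 4) := by
    rw [hε]; field_simp
  have hεM : ε * M ≤ r ^ 2 / 64 := by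
    have h2 : ε * M ≤ ε * ((M + 1) * (S + 1)) := by
      gcongr
      nlinarith
    calc ε * M ≤ min (r ^ 2 / 64) (1 / 4) := by rw [← hεMS]; exact h2
      _ ≤ r ^ 2 / 64 := min_le_left _ _
  have hεM' : ε * M * S ≤ 1 / 4 := by
    have h2 : ε * M * S ≤ ε * ((M + 1) * (S + 1)) := by
      rw [mul_assoc]
      gcongr
      · linarith
      · linarith
    calc ε * M * S ≤ min (r ^ 2 / 64) (1 / 4) := by rw [← hεMS]; exact h2
      _ ≤ 1 / 4 := min_le_right _ _
  have hpert : ∀ z ∈ Metric.closedBall z0 (R / 2), |∑ i, a i * γ i z| ≤ r ^ 2 / 64 := by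
    intro z hz
    exact (abs_sum_mul_le hεpos.le ha (fun i => le_rfl) (hM z hz).1).trans hεM
  have hHessh : ∀ z ∈ Metric.closedBall z0 (R / 2), ∀ t : Fin 3 → ℝ,
      0 ≤ fderiv ℝ (fderiv ℝ h) z (∑ i, t i • e i) (∑ i, t i • e i) := by
    intro z hz t
    set w := ∑ i, t i • e i with hw
    rw [hh, fderiv2_perturb hΩ hf hγ a (f z0) (hcbΩ hz)]
    have h1 : (fderiv ℝ (fderiv ℝ f) z + ∑ i, a i • fderiv ℝ (fderiv ℝ (γ i)) z) w w
        = fderiv ℝ (fderiv ℝ f) z w w + ∑ i, a i * (fderiv ℝ (fderiv ℝ (γ i)) z w w) := by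
      simp only [add_apply, sum_apply, smul_apply, smul_eq_mul]
    rw [h1]
    have h2 : |∑ i, a i * (fderiv ℝ (fderiv ℝ (γ i)) z w w)| ≤ ε * (M * ‖w‖ ^ 2) := by
      apply abs_sum_mul_le (c := fun i => ‖fderiv ℝ (fderiv ℝ (γ i)) z‖ * ‖w‖ ^ 2) hεpos.le ha
      · intro i
        have := (fderiv ℝ (fderiv ℝ (γ i)) z).le_opNorm₂ w w
        rw [Real.norm_eq_abs] at this
        calc _ ≤ ‖fderiv ℝ (fderiv ℝ (γ i)) z‖ * ‖w‖ * ‖w‖ := this
          _ = _ := by ring
      · rw [← Finset.sum_mul]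
        gcongr
        exact (hM z hz).2.2
    have h4 : 0 ≤ ∑ i, t i ^ 2 := Finset.sum_nonneg fun i _ => by positivity
    have h3 : ε * (M * ‖w‖ ^ 2) ≤ 1 / 4 * ∑ i, t i ^ 2 := by
      calc ε * (M * ‖w‖ ^ 2) ≤ ε * (M * ((∑ i, t i ^ 2) * S)) := by
            gcongr; exact hnormu t
        _ = (ε * M * S) * ∑ i, t i ^ 2 := by ring
        _ ≤ 1 / 4 * ∑ i, t i ^ 2 := by gcongr
    have h5 := (abs_le.1 (h2.trans h3)).1
    have h6 := hHess z hz t
    rw [← hw] at h6
    linarith
  apply LP_box hDo hDc z0 hz0D r hrpos e l hdual (fun z hz => hz.1)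
  · -- hbox
    intro z hz t ht
    have h1 : z + ∑ i, t i • e i - z0 = (z - z0) + ∑ i, t i • e i := by abel
    refine ⟨fun i => ?_, ?_⟩
    · rw [h1, map_add, hlsum]; exact ht i
    · rw [h1, hpr_add, hprsum, add_zero]; exact hz.2
  · exact hhC.continuousOn.mono (hDball.trans hcbΩ)
  · -- quasi-convexity
    intro z hz t hzt hz1 hz2 τ hτ
    have hseg : ∀ σ ∈ Icc (0 : ℝ) 1, z + σ • ∑ i, t i • e i ∈ D := by
      intro σ hσ
      have h3 : z + σ • ∑ i, t i • e i = (1 - σ) • z + σ • (z + ∑ i, t i • e i) := by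
        rw [smul_add σ z, ← add_assoc, ← add_smul]
        simp
      rw [h3]
      exact hDc hz hzt (by linarith [hσ.2]) hσ.1 (by ring)
    have hconv := convexOn_line hΩ hhC z (∑ i, t i • e i)
      (fun σ hσ => hcbΩ (hDball (hseg σ hσ))) 0
      (fun σ hσ => hHessh _ (hDball (hseg σ hσ)) t)
    have h4 := hconv.2 (left_mem_Icc.2 zero_le_one) (right_mem_Icc.2 zero_le_one)
      (show 0 ≤ 1 - τ by linarith [hτ.2]) hτ.1 (by ring)
    simp only [smul_eq_mul, mul_zero, mul_one, zero_add, zero_div, zero_mul, sub_zero, zero_smul,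
      add_zero, one_smul] at h4
    have hτ0 := hτ.1
    have hτ1 := hτ.2
    nlinarith
  · -- far
    intro z hz i hi
    set t : Fin 3 → ℝ := fun i => l i (z - z0) with ht
    set z' := z0 + ∑ j, t j • e j with hz'
    have hzz' : z = z' + pr (z - z0) := by
      simp only [hz', pr, ht]; abel
    have hz'ball : ∀ τ ∈ Icc (0 : ℝ) 1, z0 + τ • ∑ j, t j • e j ∈
        Metric.closedBall z0 (R / 2) := by
      intro τ hτ
      rw [mem_closedBall_iff_norm, add_sub_cancel_left, norm_smul, Real.norm_of_nonneg hτ.1]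
      have h1 := hnorm1 t fun i => (hz.1 i).le
      have := hτ.2
      have := hτ.1
      nlinarith [norm_nonneg (∑ j, t j • e j)]
    have hz'mem : z' ∈ Metric.closedBall z0 (R / 2) := by
      have := hz'ball 1 (right_mem_Icc.2 zero_le_one)
      rwa [one_smul] at this
    -- lower bound along the slice
    have hslice : 1 / 4 * ∑ j, t j ^ 2 ≤ f z' - f z0 := by
      have hconv := convexOn_line hΩ hf z0 (∑ j, t j • e j) (fun τ hτ => hcbΩ (hz'ball τ hτ))
        (1 / 2 * ∑ j, t j ^ 2) (fun τ hτ => hHess _ (hz'ball τ hτ) t)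
      have hder : HasDerivAt (fun τ : ℝ => f (z0 + τ • ∑ j, t j • e j)
          - (1 / 2 * ∑ j, t j ^ 2) / 2 * τ ^ 2) 0 0 := by
        have h1 := hasDerivAt_line hΩ hf z0 (∑ j, t j • e j) 0 (by simpa using hz0)
        have h2 : HasDerivAt (fun τ : ℝ => (1 / 2 * ∑ j, t j ^ 2) / 2 * τ ^ 2) 0 (0 : ℝ) := by
          have := (hasDerivAt_pow 2 (0 : ℝ)).const_mul ((1 / 2 * ∑ j, t j ^ 2) / 2)
          simpa using this
        have h3 := h1.sub h2
        simp only [zero_smul, add_zero, hcrit, zero_apply, sub_zero] at h3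
        exact h3
      have h4 := hconv.le_slope_of_hasDerivAt (left_mem_Icc.2 zero_le_one)
        (right_mem_Icc.2 zero_le_one) zero_lt_one hder
      rw [slope_def_field] at h4
      simp only [one_smul, zero_smul, add_zero, sub_zero, div_one] at h4
      norm_num at h4
      linarith
    have hti : r ^ 2 / 4 ≤ ∑ j, t j ^ 2 := by
      have h1 : t i ^ 2 ≤ ∑ j, t j ^ 2 :=
        Finset.single_le_sum (f := fun j => t j ^ 2) (fun j _ => by positivity)
          (Finset.mem_univ i)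
      have h2 : (r / 2) ^ 2 ≤ |t i| ^ 2 := by
        gcongr
      rw [sq_abs] at h2
      calc r ^ 2 / 4 = (r / 2) ^ 2 := by ring
        _ ≤ _ := h2.trans h1
    have hdist : dist z z' < s1 := by
      rw [dist_eq_norm]
      have : z - z' = pr (z - z0) := by
        rw [sub_eq_iff_eq_add, add_comm]; exact hzz'
      rw [this]
      exact hz.2.trans_le (min_le_right _ _)
    have h1 := hunif z (hDball hz) z' hz'mem hdist
    rw [Real.dist_eq] at h1
    have h2 := (abs_lt.1 h1).1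
    have h3 := (abs_le.1 (hpert z (hDball hz))).1
    change 0 < f z - f z0 + ∑ i, a i * γ i z
    have hr2 : 0 < r ^ 2 := by positivity
    linarith

end Main

end Pool.Agent.LibStein
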