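import Mathlib
import Pool.Agent.Lib_MP_4b4323_gt.LocalB

set_option autoImplicit false

open Set Filter Topology Manifold ContDiff

namespace Pool.Agent.LibStein

variable {E : Type*} [NormedAddCommGroup E] [NormedSpace ℝ E]
  {X : Type*} [TopologicalSpace X] [ChartedSpace E X]

/-- A map `X → ℝ⁵/Γ` is nice at `x` if near `x` it lifts to a map to `ℝ⁵` which is `C¹` at `x`. -/
def NiceAt (r : X → Q) (x : X) : Prop :=
  ∃ R : X → R5, ContMDiffAt 𝓘(ℝ, E) 𝓘(ℝ, R5) 1 R x ∧ ∀ᶠ x' in 𝓝 x, r x' = mk (R x')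

omit [ChartedSpace E X] in
lemma NiceAt.congr [ChartedSpace E X] {r r' : X → Q} {x : X} (h : NiceAt (E := E) r x)
    (heq : ∀ᶠ x' in 𝓝 x, r' x' = r x') : NiceAt (E := E) r' x := by
  obtain ⟨R, hR, hr⟩ := h
  refine ⟨R, hR, ?_⟩
  filter_upwards [hr, heq] with x' h1 h2
  rw [h2, h1]

lemma NiceAt.continuousAt {r : X → Q} {x : X} (h : NiceAt (E := E) r x) : ContinuousAt r x := by
  obtain ⟨R, hR, hr⟩ := h
  have h1 : ContinuousAt (fun x' => mk (R x')) x :=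
    continuous_mk.continuousAt.comp hR.continuousAt
  exact h1.congr (hr.mono fun x' h => h.symm)

lemma contMDiffAt_smul (g : Gam) {R : X → R5} {x : X} {n : WithTop ℕ∞}
    (hR : ContMDiffAt 𝓘(ℝ, E) 𝓘(ℝ, R5) n R x) :
    ContMDiffAt 𝓘(ℝ, E) 𝓘(ℝ, R5) n (fun x' => g • R x') x :=
  ((Gam.contDiff_smul g).contMDiff.contMDiffAt).comp x hR

/-- A continuous lift of a nice map is `C¹`. -/
lemma NiceAt.contMDiffAt_lift {r : X → Q} {x : X} (h : NiceAt (E := E) r x) {R : X → R5}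
    (hR : ContinuousAt R x) (hr : ∀ᶠ x' in 𝓝 x, mk (R x') = r x') :
    ContMDiffAt 𝓘(ℝ, E) 𝓘(ℝ, R5) 1 R x := by
  obtain ⟨R', hR', hr'⟩ := h
  obtain ⟨g, hg⟩ := exists_smul_eq_near hR hR'.continuousAt
    (by filter_upwards [hr, hr'] with x' h1 h2; rw [h1, h2])
  exact (contMDiffAt_smul g hR').congr_of_eventuallyEq hg

/-- One step of the extension: a map which is nice on `{ψ > 0}` can be extended over `D`, after
shrinking a little. -/
lemma bump_step {r : X → Q} {ψ : X → ℝ} (hψ : ContMDiff 𝓘(ℝ, E) 𝓘(ℝ, ℝ) 1 ψ) {O D : Set X}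
    (hD : IsOpen D) (hDO : D ⊆ O)
    (hr : ∀ x ∈ O, 0 < ψ x → NiceAt (E := E) r x) (hLP : LP {x ∈ D | 0 < ψ x}) {τ : ℝ}
    (hτ : 0 < τ) :
    ∃ r' : X → Q, (∀ x ∈ O, (τ < ψ x ∨ x ∈ D) → NiceAt (E := E) r' x) ∧
      (∀ x, x ∉ D → r' x = r x) := by
  classical
  have hψc : Continuous ψ := hψ.continuous
  have hopen : IsOpen {x ∈ D | 0 < ψ x} := hD.inter (isOpen_lt continuous_const hψc)
  obtain ⟨R, hRc, hR⟩ := hLP r (fun x hx =>
    (hr x (hDO hx.1) hx.2).continuousAt.continuousWithinAt)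
  let σ : X → ℝ := fun x => Real.smoothTransition (2 * (ψ x / τ) - 1)
  have hσ1 : ∀ x, τ < ψ x → σ x = 1 := by
    intro x hx
    apply Real.smoothTransition.one_of_one_le
    have : 1 < ψ x / τ := by rwa [one_lt_div hτ]
    linarith
  have hσ0 : ∀ x, ψ x < τ / 2 → σ x = 0 := by
    intro x hx
    apply Real.smoothTransition.zero_of_nonpos
    have : ψ x / τ < 1 / 2 := by rw [div_lt_iff₀ hτ]; linarith
    linarith
  have hσs : ContMDiff 𝓘(ℝ, E) 𝓘(ℝ, ℝ) 1 σ := by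
    have h1 : ContDiff ℝ 1 (fun t : ℝ => Real.smoothTransition (2 * (t / τ) - 1)) := by
      apply Real.smoothTransition.contDiff.comp
      fun_prop
    exact h1.contMDiff.comp hψ
  have hnice0 : ∀ x ∈ D, NiceAt (E := E) (fun x => if x ∈ D then mk (σ x • R x) else r x) x := by
    intro x hx
    have hmk : ∀ᶠ x' in 𝓝 x, (fun x => if x ∈ D then mk (σ x • R x) else r x) x'
        = mk (σ x' • R x') := by
      filter_upwards [hD.mem_nhds hx] with x' hx'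
      simp [hx']
    by_cases hpos : 0 < ψ x
    · refine ⟨fun x' => σ x' • R x', ?_, hmk⟩
      have hxm : x ∈ {x ∈ D | 0 < ψ x} := ⟨hx, hpos⟩
      have h1 : ContMDiffAt 𝓘(ℝ, E) 𝓘(ℝ, R5) 1 R x := by
        apply (hr x (hDO hx) hpos).contMDiffAt_lift (hRc.continuousAt (hopen.mem_nhds hxm))
        filter_upwards [hopen.mem_nhds hxm] with x' hx'
        exact hR x' hx'
      exact hσs.contMDiffAt.smul h1
    · refine ⟨fun _ => 0, contMDiffAt_const, ?_⟩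
      have h1 : ∀ᶠ x' in 𝓝 x, ψ x' < τ / 2 :=
        hψc.continuousAt.eventually (gt_mem_nhds (by linarith))
      filter_upwards [hmk, h1] with x' h2 h3
      rw [h2, hσ0 x' h3, zero_smul]
  refine ⟨fun x => if x ∈ D then mk (σ x • R x) else r x, ?_, ?_⟩
  · intro x hxO hx
    rcases hx with hx | hx
    · apply (hr x hxO (hτ.trans hx)).congr
      have h1 : ∀ᶠ x' in 𝓝 x, τ < ψ x' := hψc.continuousAt.eventually (lt_mem_nhds hx)
      filter_upwards [h1] with x' h2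
      by_cases h3 : x' ∈ D
      · simp only [h3, if_true]
        rw [hσ1 x' h2, one_smul, hR x' ⟨h3, hτ.trans h2⟩]
      · simp only [h3, if_false]
    · exact hnice0 x hx
  · intro x hx
    simp [hx]

/-- The local property of a function at a point of a manifold needed for the extension. -/
def LocGoodX (φ : X → ℝ) (x0 : X) : Prop :=
  ∀ U : Set X, IsOpen U → x0 ∈ U → ∃ D : Set X, IsOpen D ∧ x0 ∈ D ∧ D ⊆ U ∧
    ∀ (n : ℕ) (g : Fin n → X → ℝ), (∀ i, ContMDiff 𝓘(ℝ, E) 𝓘(ℝ, ℝ) ∞ (g i)) →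
      ∃ ε : ℝ, 0 < ε ∧ ∀ a : Fin n → ℝ, (∀ i, |a i| ≤ ε) →
        LP {x ∈ D | 0 < φ x - φ x0 + ∑ i, a i * g i x}

lemma contDiffOn_comp_symm [IsManifold 𝓘(ℝ, E) ∞ X] {g : X → ℝ}
    (hg : ContMDiff 𝓘(ℝ, E) 𝓘(ℝ, ℝ) ∞ g) (x0 : X) :
    ContDiffOn ℝ ∞ (g ∘ (chartAt E x0).symm) (chartAt E x0).target := by
  have h1 : ContMDiffOn 𝓘(ℝ, E) 𝓘(ℝ, E) ∞ (chartAt E x0).symm (chartAt E x0).target :=
    contMDiffOn_chart_symm
  have h2 : ContMDiffOn 𝓘(ℝ, E) 𝓘(ℝ, ℝ) ∞ (g ∘ (chartAt E x0).symm) (chartAt E x0).target :=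
    hg.comp_contMDiffOn h1
  rwa [contMDiffOn_iff_contDiffOn] at h2

lemma locGoodX_of_locGood [IsManifold 𝓘(ℝ, E) ∞ X] {φ : X → ℝ} {x0 : X}
    (h : LocGood (φ ∘ (chartAt E x0).symm) (chartAt E x0 x0) (chartAt E x0).target) :
    LocGoodX (E := E) φ x0 := by
  intro U hU hx0
  set κ := chartAt E x0 with hκ
  have hx0s : x0 ∈ κ.source := mem_chart_source E x0
  have hUo : IsOpen (κ.target ∩ κ.symm ⁻¹' U) := κ.symm.isOpen_inter_preimage hU
  obtain ⟨D, hDo, hz0D, hDU, hDt, hD⟩ := h (κ.target ∩ κ.symm ⁻¹' U) hUo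
    ⟨κ.map_source hx0s, by simpa [κ.left_inv hx0s] using hx0⟩
  refine ⟨κ.source ∩ κ ⁻¹' D, κ.isOpen_inter_preimage hDo, ⟨hx0s, hz0D⟩, ?_, ?_⟩
  · rintro x ⟨hx, hxD⟩
    have := (hDU hxD).2
    simpa [κ.left_inv hx] using this
  · intro n g hg
    obtain ⟨ε, hε, hLP⟩ := hD n (fun i => g i ∘ κ.symm) (fun i =>
      (contDiffOn_comp_symm (hg i) x0).of_le (by norm_cast))
    refine ⟨ε, hε, fun a ha => ?_⟩
    have h1 := LP_preimage κ (B := {z ∈ D | 0 < (φ ∘ κ.symm) z - (φ ∘ κ.symm) (κ x0) +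
      ∑ i, a i * (g i ∘ κ.symm) z}) (fun z hz => hDt hz.1) (hLP a ha)
    have h2 : κ.source ∩ κ ⁻¹' {z ∈ D | 0 < (φ ∘ κ.symm) z - (φ ∘ κ.symm) (κ x0) +
        ∑ i, a i * (g i ∘ κ.symm) z} = {x ∈ κ.source ∩ κ ⁻¹' D | 0 < φ x - φ x0 +
        ∑ i, a i * g i x} := by
      ext x
      constructor
      · rintro ⟨hx, hxD, hlt⟩
        refine ⟨⟨hx, hxD⟩, ?_⟩
        simpa [κ.left_inv hx, κ.left_inv hx0s] using hlt
      · rintro ⟨⟨hx, hxD⟩, hlt⟩
        refine ⟨hx, hxD, ?_⟩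
        simpa [κ.left_inv hx, κ.left_inv hx0s] using hlt
    rwa [h2] at h1

end Pool.Agent.LibStein
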