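import Mathlib
import Pool.Agent.Lib_MP_4b4323_gt.Nice

set_option autoImplicit false

open Set Filter Topology Manifold ContDiff

namespace Pool.Agent.LibStein

variable {E : Type*} [NormedAddCommGroup E] [NormedSpace ℝ E] [FiniteDimensional ℝ E]
  {X : Type*} [TopologicalSpace X] [ChartedSpace E X] [IsManifold 𝓘(ℝ, E) ∞ X] [T2Space X]

/-- Smooth cutoff functions. -/
lemma exists_cutoff {K O : Set X} (hK : IsCompact K) (hO : IsOpen O) (hKO : K ⊆ O) :
    ∃ θ : X → ℝ, ContMDiff 𝓘(ℝ, E) 𝓘(ℝ, ℝ) ∞ θ ∧ (∃ V : Set X, IsOpen V ∧ K ⊆ V ∧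
      ∀ x ∈ V, θ x = 1) ∧ tsupport θ ⊆ O := by
  refine hK.induction_on (p := fun s => ∃ θ : X → ℝ, ContMDiff 𝓘(ℝ, E) 𝓘(ℝ, ℝ) ∞ θ ∧
    (∃ V : Set X, IsOpen V ∧ s ⊆ V ∧ ∀ x ∈ V, θ x = 1) ∧ tsupport θ ⊆ O) ?_ ?_ ?_ ?_
  · refine ⟨fun _ => 0, contMDiff_const, ⟨∅, isOpen_empty, subset_rfl, by simp⟩, ?_⟩
    have : tsupport (fun _ : X => (0 : ℝ)) = ∅ := by
      rw [tsupport_eq_empty_iff]
      rfl
    rw [this]
    exact empty_subset _
  · rintro s t hst ⟨θ, h1, ⟨V, h2, h3, h4⟩, h5⟩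
    exact ⟨θ, h1, ⟨V, h2, hst.trans h3, h4⟩, h5⟩
  · rintro s t ⟨θ, h1, ⟨V, h2, h3, h4⟩, h5⟩ ⟨θ', h1', ⟨V', h2', h3', h4'⟩, h5'⟩
    refine ⟨fun x => θ x + θ' x - θ x * θ' x, (h1.add h1').sub (h1.mul h1'),
      ⟨V ∪ V', h2.union h2', union_subset_union h3 h3', ?_⟩, ?_⟩
    · rintro x (hx | hx)
      · change θ x + θ' x - θ x * θ' x = 1
        rw [h4 x hx]; ring
      · change θ x + θ' x - θ x * θ' x = 1
        rw [h4' x hx]; ring
    · have hs : tsupport (fun x => θ x + θ' x - θ x * θ' x) ⊆ tsupport θ ∪ tsupport θ' := by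
        apply closure_minimal _ ((isClosed_tsupport θ).union (isClosed_tsupport θ'))
        intro x hx
        by_contra hcon
        rw [mem_union, not_or] at hcon
        apply hx
        change θ x + θ' x - θ x * θ' x = 0
        rw [image_eq_zero_of_notMem_tsupport hcon.1, image_eq_zero_of_notMem_tsupport hcon.2]
        ring
      exact hs.trans (union_subset h5 h5')
  · intro x hx
    obtain ⟨ρ, -, hρ⟩ := (SmoothBumpFunction.nhds_basis_tsupport (I := 𝓘(ℝ, E)) x).mem_iff.1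
      (hO.mem_nhds (hKO hx))
    obtain ⟨V, hV, hVo, hxV⟩ := mem_nhds_iff.1 ρ.eventuallyEq_one
    exact ⟨V, mem_nhdsWithin_of_mem_nhds (hVo.mem_nhds hxV), ρ, ρ.contMDiff,
      ⟨V, hVo, subset_rfl, fun y hy => hV hy⟩, hρ⟩

/-- nearby lifts are unique -/
lemma eq_of_mk_eq_of_dist_lt {y y' : R5} (h : mk y = mk y') (hd : dist y y' < 1) : y = y' := by
  obtain ⟨g, hg⟩ := mk_eq_mk.1 h
  have : g = 1 := by
    apply Gam.eq_one_of_dist_smul_lt (y := y')
    rw [hg]; exact hd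
  rw [← hg, this, one_smul]

/-- Gluing a nice map with an explicit local lift. -/
lemma glue_step {p : R5 → X} {r1 : X → Q} {O1 U : Set X} {RU : X → R5} (hO1 : IsOpen O1)
    (hU : IsOpen U) (hr1 : ∀ x ∈ O1, NiceAt (E := E) r1 x)
    (hp1 : ∀ y, p y ∈ O1 → r1 (p y) = mk y)
    (hRU : ∀ x ∈ U, ContMDiffAt 𝓘(ℝ, E) 𝓘(ℝ, R5) 1 RU x)
    (hpU : ∀ y, p y ∈ U → mk (RU (p y)) = mk y)
    {K1 : Set X} (hK1 : IsCompact K1) (hK1O : K1 ⊆ O1) :
    ∃ (r : X → Q) (O : Set X), IsOpen O ∧ K1 ⊆ O ∧ (range p ∩ U ⊆ O) ∧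
      (∀ x ∈ O, NiceAt (E := E) r x) ∧ ∀ y, p y ∈ O → r (p y) = mk y := by
  classical
  obtain ⟨θ, hθs, ⟨A, hAo, hK1A, hθ1⟩, hθsupp⟩ := exists_cutoff (E := E) hK1 hO1 hK1O
  let good : X → Prop := fun x => ∃ y : R5, mk y = r1 x ∧ dist y (RU x) < 1 / 2
  let R1 : X → R5 := fun x => if h : good x then h.choose else 0
  have hR1 : ∀ x, good x → mk (R1 x) = r1 x ∧ dist (R1 x) (RU x) < 1 / 2 := by
    intro x hx
    simp only [R1, hx, dif_pos]
    exact hx.choose_spec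
  have huniq : ∀ x, good x → ∀ y, mk y = r1 x → dist y (RU x) < 1 / 2 → R1 x = y := by
    intro x hx y hy hd
    obtain ⟨h1, h2⟩ := hR1 x hx
    apply eq_of_mk_eq_of_dist_lt (h1.trans hy.symm)
    calc dist (R1 x) y ≤ dist (R1 x) (RU x) + dist y (RU x) := dist_triangle_right _ _ _
      _ < 1 / 2 + 1 / 2 := add_lt_add h2 hd
      _ = 1 := by norm_num
  let V : Set X := {x | x ∈ O1 ∧ x ∈ U ∧ good x}
  have hkey : ∀ x ∈ V, (∀ᶠ x' in 𝓝 x, x' ∈ V) ∧ ContMDiffAt 𝓘(ℝ, E) 𝓘(ℝ, R5) 1 R1 x := by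
    rintro x ⟨hxO, hxU, hxg⟩
    obtain ⟨R', hR', hrR'⟩ := hr1 x hxO
    obtain ⟨h1, h2⟩ := hR1 x hxg
    obtain ⟨g, hg⟩ := mk_eq_mk.1 (h1.trans hrR'.self_of_nhds)
    have hc : ContinuousAt (fun x' => g • R' x') x := hR'.continuousAt.const_smul g
    have hd : ∀ᶠ x' in 𝓝 x, dist (g • R' x') (RU x') < 1 / 2 := by
      have hdc : ContinuousAt (fun x' => dist (g • R' x') (RU x')) x :=
        hc.dist (hRU x hxU).continuousAt
      apply hdc.eventually (gt_mem_nhds _)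
      change dist (g • R' x) (RU x) < 1 / 2
      rw [hg]; exact h2
    have hev : ∀ᶠ x' in 𝓝 x, good x' ∧ R1 x' = g • R' x' := by
      filter_upwards [hd, hrR'] with x' h3 h4
      have h5 : mk (g • R' x') = r1 x' := by rw [mk_smul, h4]
      have h6 : good x' := ⟨_, h5, h3⟩
      exact ⟨h6, huniq x' h6 _ h5 h3⟩
    refine ⟨?_, ?_⟩
    · filter_upwards [hev, hO1.mem_nhds hxO, hU.mem_nhds hxU] with x' h3 h4 h5
      exact ⟨h4, h5, h3.1⟩
    · exact (contMDiffAt_smul g hR').congr_of_eventuallyEq (hev.mono fun x' h => h.2)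
  have hVo : IsOpen V := isOpen_iff_mem_nhds.2 fun x hx => (hkey x hx).1
  -- points of the hypersurface
  have hVp : ∀ y, p y ∈ O1 → p y ∈ U → p y ∈ V ∧ R1 (p y) = RU (p y) := by
    intro y h1 h2
    have h3 : mk (RU (p y)) = r1 (p y) := by rw [hpU y h2, hp1 y h1]
    have h4 : dist (RU (p y)) (RU (p y)) < 1 / 2 := by rw [dist_self]; norm_num
    have h5 : good (p y) := ⟨_, h3, h4⟩
    exact ⟨⟨h1, h2, h5⟩, huniq _ h5 _ h3 h4⟩
  let r : X → Q := fun x => if x ∈ V then mk (θ x • R1 x + (1 - θ x) • RU x) else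
    if x ∈ A then r1 x else mk (RU x)
  refine ⟨r, (O1 ∩ A) ∪ V ∪ (U \ tsupport θ), ?_, ?_, ?_, ?_, ?_⟩
  · exact ((hO1.inter hAo).union hVo).union (hU.sdiff (isClosed_tsupport θ))
  · intro x hx
    exact Or.inl (Or.inl ⟨hK1O hx, hK1A hx⟩)
  · rintro _ ⟨⟨y, rfl⟩, hyU⟩
    by_cases h : p y ∈ tsupport θ
    · exact Or.inl (Or.inr (hVp y (hθsupp h) hyU).1)
    · exact Or.inr ⟨hyU, h⟩
  · rintro x ((⟨hxO, hxA⟩ | hxV) | ⟨hxU, hxθ⟩)
    · apply (hr1 x hxO).congr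
      filter_upwards [hO1.mem_nhds hxO, hAo.mem_nhds hxA] with x' h1 h2
      by_cases h3 : x' ∈ V
      · simp only [r, h3, if_true]
        rw [hθ1 x' h2, sub_self, zero_smul, add_zero, one_smul]
        exact (hR1 x' h3.2.2).1
      · simp only [r, h3, if_false, h2, if_true]
    · obtain ⟨h1, h2⟩ := hkey x hxV
      refine ⟨fun x => θ x • R1 x + (1 - θ x) • RU x, ?_, ?_⟩
      · have hθ' : ContMDiffAt 𝓘(ℝ, E) 𝓘(ℝ, ℝ) 1 θ x := (hθs.of_le (by norm_cast)) x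
        exact (hθ'.smul h2).add ((contMDiffAt_const.sub hθ').smul (hRU x hxV.2.1))
      · filter_upwards [h1] with x' hx'
        simp only [r, hx', if_true]
    · refine ⟨RU, hRU x hxU, ?_⟩
      filter_upwards [(isClosed_tsupport θ).isOpen_compl.mem_nhds hxθ] with x' hx'
      have h0 : θ x' = 0 := image_eq_zero_of_notMem_tsupport hx'
      by_cases h3 : x' ∈ V
      · simp only [r, h3, if_true]
        rw [h0, zero_smul, zero_add, sub_zero, one_smul]
      · have h4 : x' ∉ A := by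
          intro h
          have := hθ1 x' h
          rw [h0] at this
          exact zero_ne_one this
        simp only [r, h3, if_false, h4]
  · rintro y hy
    by_cases hyV : p y ∈ V
    · simp only [r, hyV, if_true]
      rw [(hVp y hyV.1 hyV.2.1).2, ← add_smul, add_sub_cancel, one_smul]
      exact hpU y hyV.2.1
    · rcases hy with (⟨h1, h2⟩ | h1) | ⟨h1, h2⟩
      · simp only [r, hyV, if_false, h2, if_true]
        exact hp1 y h1
      · exact absurd h1 hyV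
      · have h4 : p y ∉ A := by
          intro h
          have h5 := hθ1 _ h
          rw [image_eq_zero_of_notMem_tsupport h2] at h5
          exact zero_ne_one h5
        simp only [r, hyV, if_false, h4]
        exact hpU y h1

/-- Gluing over a compact hypersurface. -/
lemma exists_collar {p : R5 → X} (hS : IsCompact (range p))
    (hloc : ∀ x ∈ range p, ∃ (U : Set X) (R : X → R5), IsOpen U ∧ x ∈ U ∧
      (∀ x ∈ U, ContMDiffAt 𝓘(ℝ, E) 𝓘(ℝ, R5) 1 R x) ∧ ∀ y, p y ∈ U → mk (R (p y)) = mk y) :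
    ∃ (r : X → Q) (O : Set X), IsOpen O ∧ range p ⊆ O ∧
      (∀ x ∈ O, NiceAt (E := E) r x) ∧ ∀ y, p y ∈ O → r (p y) = mk y := by
  classical
  have : LocallyCompactSpace X := ChartedSpace.locallyCompactSpace E X
  choose! U R hUo hxU hR hpU using hloc
  have hKex : ∀ x ∈ range p, ∃ K : Set X, K ∈ 𝓝 x ∧ K ⊆ U x ∧ IsCompact K := fun x hx =>
    local_compact_nhds ((hUo x hx).mem_nhds (hxU x hx))
  choose! K hKn hKU hKc using hKex
  obtain ⟨t, ht, hcov⟩ := hS.elim_nhds_subcover K hKn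
  have hind : ∀ t' : Finset X, (∀ x ∈ t', x ∈ range p) → ∃ (r : X → Q) (O : Set X), IsOpen O ∧
      (range p ∩ ⋃ x ∈ t', K x) ⊆ O ∧
      (∀ x ∈ O, NiceAt (E := E) r x) ∧ ∀ y, p y ∈ O → r (p y) = mk y := by
    intro t'
    induction t' using Finset.induction_on with
    | empty =>
      intro _
      exact ⟨fun _ => mk 0, ∅, isOpen_empty, by simp, by simp, by simp⟩
    | insert a s ha ih =>
      intro hmem
      obtain ⟨r1, O1, hO1, hsub, hnice, hp1⟩ := ih fun x hx => hmem x (Finset.mem_insert_of_mem hx)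
      have hap : a ∈ range p := hmem a (Finset.mem_insert_self a s)
      have hK1 : IsCompact (range p ∩ ⋃ x ∈ s, K x) := by
        apply hS.inter
        exact s.isCompact_biUnion fun x hx => hKc x (hmem x (Finset.mem_insert_of_mem hx))
      obtain ⟨r, O, hO, h1, h2, h3, h4⟩ := glue_step hO1 (hUo a hap) hnice hp1 (hR a hap)
        (hpU a hap) hK1 hsub
      refine ⟨r, O, hO, ?_, h3, h4⟩
      rintro x ⟨hxp, hx⟩
      rw [Finset.set_biUnion_insert] at hx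
      rcases hx with hx | hx
      · exact h2 ⟨hxp, hKU a hap hx⟩
      · exact h1 ⟨hxp, hx⟩
  obtain ⟨r, O, hO, h1, h2, h3⟩ := hind t ht
  exact ⟨r, O, hO, fun x hx => h1 ⟨hx, hcov hx⟩, h2, h3⟩

end Pool.Agent.LibStein
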