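import Mathlib
import Pool.Agent.Lib_MP_4b4323_gt.Glue

set_option autoImplicit false

open Set Filter Topology Manifold ContDiff

namespace Pool.Agent.LibStein

section Vec

variable {E : Type*} [NormedAddCommGroup E] [NormedSpace ℝ E] [FiniteDimensional ℝ E]

lemma local_collar_vec (hE : Module.finrank ℝ E = 6) {P : R5 → E} {y0 : R5} {f : E → ℝ} {c : ℝ}
    {Ω : Set E} (hΩ : IsOpen Ω) (hz0 : P y0 ∈ Ω) (hf : ContDiffOn ℝ 2 f Ω)
    (hP : ContDiffAt ℝ 1 P y0) (hinj : Function.Injective (fderiv ℝ P y0))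
    (hreg : fderiv ℝ f (P y0) ≠ 0) (hfP : ∀ᶠ y in 𝓝 y0, f (P y) = c) :
    ∃ Ψ : E → R5, ∀ N ∈ 𝓝 y0, ∀ᶠ z in 𝓝 (P y0), ContDiffAt ℝ 1 Ψ z ∧
      (f z = c → Ψ z ∈ N ∧ P (Ψ z) = z) := by
  obtain ⟨v, hv⟩ : ∃ v, fderiv ℝ f (P y0) v ≠ 0 := by
    by_contra hcon
    push Not at hcon
    exact hreg (ContinuousLinearMap.ext hcon)
  obtain ⟨n, hn⟩ : ∃ n : E, fderiv ℝ f (P y0) n = 1 :=
    ⟨(fderiv ℝ f (P y0) v)⁻¹ • v, by rw [map_smul, smul_eq_mul, inv_mul_cancel₀ hv]⟩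
  have hfd : DifferentiableAt ℝ f (P y0) :=
    (hf.contDiffAt (hΩ.mem_nhds hz0)).differentiableAt two_ne_zero
  have hPd : HasFDerivAt P (fderiv ℝ P y0) y0 := (hP.differentiableAt one_ne_zero).hasFDerivAt
  have hchain : ∀ w : R5, fderiv ℝ f (P y0) (fderiv ℝ P y0 w) = 0 := by
    have h1 : HasFDerivAt (f ∘ P) ((fderiv ℝ f (P y0)).comp (fderiv ℝ P y0)) y0 :=
      hfd.hasFDerivAt.comp y0 hPd
    have h2 : HasFDerivAt (f ∘ P) (0 : R5 →L[ℝ] ℝ) y0 :=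
      (hasFDerivAt_const c y0).congr_of_eventuallyEq hfP
    intro w
    have h3 := h1.unique h2
    exact congrArg (fun A : R5 →L[ℝ] ℝ => A w) h3
  -- the map Phi
  let Φ : R5 × ℝ → E := fun q => P q.1 + q.2 • n
  let L0 : R5 × ℝ →L[ℝ] E := (fderiv ℝ P y0).comp (ContinuousLinearMap.fst ℝ R5 ℝ) +
    (ContinuousLinearMap.snd ℝ R5 ℝ).smulRight n
  have hL0 : ∀ q : R5 × ℝ, L0 q = fderiv ℝ P y0 q.1 + q.2 • n := fun q => rfl
  have hL0inj : Function.Injective (L0 : R5 × ℝ →ₗ[ℝ] E) := by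
    rw [← LinearMap.ker_eq_bot, LinearMap.ker_eq_bot']
    rintro ⟨w, t⟩ hwt
    have h1 : fderiv ℝ P y0 w + t • n = 0 := hwt
    have h2 := congrArg (fderiv ℝ f (P y0)) h1
    rw [map_add, hchain, map_smul, hn, map_zero, zero_add, smul_eq_mul, mul_one] at h2
    rw [h2, zero_smul, add_zero] at h1
    have h3 : w = 0 := hinj (by rw [h1, map_zero])
    rw [h3, h2]
    rfl
  have hfin : Module.finrank ℝ (R5 × ℝ) = Module.finrank ℝ E := by
    rw [hE, Module.finrank_prod, Module.finrank_fin_fun, Module.finrank_self]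
  let L : (R5 × ℝ) ≃L[ℝ] E :=
    (LinearEquiv.ofInjectiveOfFinrankEq (L0 : R5 × ℝ →ₗ[ℝ] E) hL0inj hfin).toContinuousLinearEquiv
  have hLL0 : (L : R5 × ℝ →L[ℝ] E) = L0 := ContinuousLinearMap.ext fun q => rfl
  have hΦd : HasFDerivAt Φ (L : R5 × ℝ →L[ℝ] E) (y0, 0) := by
    rw [hLL0]
    have h1 : HasFDerivAt (fun q : R5 × ℝ => P q.1)
        ((fderiv ℝ P y0).comp (ContinuousLinearMap.fst ℝ R5 ℝ)) (y0, 0) :=
      HasFDerivAt.comp (y0, (0 : ℝ)) (f := Prod.fst) hPd hasFDerivAt_fst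
    have h2 : HasFDerivAt (fun q : R5 × ℝ => q.2 • n)
        ((ContinuousLinearMap.snd ℝ R5 ℝ).smulRight n) (y0, 0) :=
      ((ContinuousLinearMap.snd ℝ R5 ℝ).smulRight n).hasFDerivAt
    exact h1.add h2
  have hΦc : ContDiffAt ℝ 1 Φ (y0, 0) := by
    have h1 : ContDiffAt ℝ 1 (fun q : R5 × ℝ => P q.1) (y0, 0) :=
      ContDiffAt.comp (y0, (0 : ℝ)) (f := Prod.fst) hP contDiffAt_fst
    exact h1.add (contDiffAt_snd.smul contDiffAt_const)
  set e := hΦc.toOpenPartialHomeomorph Φ hΦd one_ne_zero with he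
  have hecoe : ∀ q, e q = Φ q := fun q => rfl
  have hsrc : (y0, (0 : ℝ)) ∈ e.source := hΦc.mem_toOpenPartialHomeomorph_source hΦd one_ne_zero
  have hΦ0 : Φ (y0, 0) = P y0 := by simp [Φ]
  have htgt : P y0 ∈ e.target := by
    rw [← hΦ0]
    exact e.map_source hsrc
  have hsymm0 : e.symm (P y0) = (y0, 0) := by
    rw [← hΦ0]
    exact e.left_inv hsrc
  have hsymmC : ContDiffAt ℝ 1 e.symm (P y0) := by
    have := hΦc.to_localInverse hΦd one_ne_zero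
    rw [hΦ0] at this
    exact this
  refine ⟨fun z => (e.symm z).1, ?_⟩
  intro N hN
  -- derivative along n is positive near P y0
  have hder : ∀ᶠ z in 𝓝 (P y0), z ∈ Ω ∧ 1 / 2 < fderiv ℝ f z n := by
    have h1 : ContinuousAt (fderiv ℝ f) (P y0) :=
      ((hf.contDiffAt (hΩ.mem_nhds hz0)).fderiv_right (m := 1) (by norm_num)).continuousAt
    have h2 : ContinuousAt (fun z => fderiv ℝ f z n) (P y0) := h1.clm_apply continuousAt_const
    have h3 : (1 : ℝ) / 2 < (fun z => fderiv ℝ f z n) (P y0) := by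
      change 1 / 2 < fderiv ℝ f (P y0) n
      rw [hn]; norm_num
    exact (hΩ.eventually_mem hz0).and (h2.eventually (lt_mem_nhds h3))
  obtain ⟨ρ, hρ, hball⟩ := Metric.eventually_nhds_iff.1 hder
  -- conditions on z
  have hcont : ContinuousAt e.symm (P y0) := hsymmC.continuousAt
  have hev1 : ∀ᶠ z in 𝓝 (P y0), (e.symm z).1 ∈ N ∧ dist (P (e.symm z).1) (P y0) < ρ ∧
      f (P (e.symm z).1) = c := by
    have h1 : Tendsto (fun z => (e.symm z).1) (𝓝 (P y0)) (𝓝 y0) := by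
      have := (continuous_fst.tendsto _).comp hcont.tendsto
      rw [hsymm0] at this
      exact this
    have h2 : ∀ᶠ y in 𝓝 y0, y ∈ N ∧ dist (P y) (P y0) < ρ ∧ f (P y) = c := by
      have h3 : ∀ᶠ y in 𝓝 y0, dist (P y) (P y0) < ρ :=
        hP.continuousAt (Metric.ball_mem_nhds _ hρ)
      filter_upwards [hN, h3, hfP] with y h4 h5 h6
      exact ⟨h4, h5, h6⟩
    exact h1.eventually h2
  filter_upwards [hev1, hsymmC.eventually (by simp), e.open_target.mem_nhds htgt,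
    Metric.ball_mem_nhds (P y0) hρ] with z h1 h2 h3 h4
  have hC : ContDiffAt ℝ 1 (fun z => (e.symm z).1) z := contDiffAt_fst.comp z h2
  refine ⟨hC, fun hfz => ⟨h1.1, ?_⟩⟩
  -- Rolle
  set y' := (e.symm z).1 with hy'
  set t := (e.symm z).2 with ht
  have hz : P y' + t • n = z := by
    have := e.right_inv h3
    rw [hecoe] at this
    exact this
  have ht0 : t = 0 := by
    by_contra hne
    have hseg : ∀ τ ∈ Icc (0 : ℝ) 1, dist (P y' + τ • (t • n)) (P y0) < ρ := by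
      intro τ hτ
      have hconv := (convex_ball (P y0) ρ)
      have ha : P y' ∈ Metric.ball (P y0) ρ := h1.2.1
      have hb : P y' + t • n ∈ Metric.ball (P y0) ρ := by rw [hz]; exact h4
      have := hconv ha hb (show 0 ≤ 1 - τ by linarith [hτ.2]) hτ.1 (by ring)
      have h5 : (1 - τ) • P y' + τ • (P y' + t • n) = P y' + τ • (t • n) := by
        module
      rw [h5] at this
      exact this
    have hd : ∀ τ ∈ Icc (0 : ℝ) 1, HasDerivAt (fun τ : ℝ => f (P y' + τ • (t • n)))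
        (fderiv ℝ f (P y' + τ • (t • n)) (t • n)) τ := by
      intro τ hτ
      have h6 : DifferentiableAt ℝ f (P y' + τ • (t • n)) :=
        (hf.contDiffAt (hΩ.mem_nhds (hball (hseg τ hτ)).1)).differentiableAt two_ne_zero
      have h7 : HasDerivAt (fun τ : ℝ => P y' + τ • (t • n)) (t • n) τ := by
        simpa using ((hasDerivAt_id τ).smul_const (t • n)).const_add (P y')
      exact h6.hasFDerivAt.comp_hasDerivAt τ h7
    have heq : (fun τ : ℝ => f (P y' + τ • (t • n))) 0 = (fun τ : ℝ => f (P y' + τ • (t • n))) 1 := by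
      simp only [zero_smul, add_zero, one_smul, hz]
      rw [hfz]
      exact h1.2.2
    obtain ⟨τ, hτ, hτ0⟩ := exists_hasDerivAt_eq_zero zero_lt_one
      (fun τ hτ => (hd τ hτ).continuousAt.continuousWithinAt) heq
      (fun τ hτ => hd τ (Ioo_subset_Icc_self hτ))
    rw [map_smul, smul_eq_mul] at hτ0
    have h8 := (hball (hseg τ (Ioo_subset_Icc_self hτ))).2
    rcases mul_eq_zero.1 hτ0 with h | h
    · exact hne h
    · rw [h] at h8; linarith
  rw [ht0, zero_smul, add_zero] at hz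
  exact hz

end Vec

section Mfd

variable {E : Type*} [NormedAddCommGroup E] [NormedSpace ℝ E] [FiniteDimensional ℝ E]
  {X : Type*} [TopologicalSpace X] [ChartedSpace E X] [IsManifold 𝓘(ℝ, E) ∞ X] [T2Space X]

omit [FiniteDimensional ℝ E] [IsManifold 𝓘(ℝ, E) ∞ X] [T2Space X] in
lemma mfderiv_eq_fderiv_chart {F : Type*} [NormedAddCommGroup F] [NormedSpace ℝ F] {p : F → X}
    {y : F} (hp : MDifferentiableAt 𝓘(ℝ, F) 𝓘(ℝ, E) p y) :
    mfderiv 𝓘(ℝ, F) 𝓘(ℝ, E) p y = fderiv ℝ (chartAt E (p y) ∘ p) y := by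
  rw [mfderiv, if_pos hp]
  simp [writtenInExtChartAt, Function.comp_def, fderivWithin_univ]

omit [FiniteDimensional ℝ E] [IsManifold 𝓘(ℝ, E) ∞ X] [T2Space X] in
lemma mfderiv_eq_fderiv_symm {F : Type*} [NormedAddCommGroup F] [NormedSpace ℝ F] {φ : X → F}
    {x : X} (hφ : MDifferentiableAt 𝓘(ℝ, E) 𝓘(ℝ, F) φ x) :
    mfderiv 𝓘(ℝ, E) 𝓘(ℝ, F) φ x = fderiv ℝ (φ ∘ (chartAt E x).symm) (chartAt E x x) := by
  rw [mfderiv, if_pos hφ]
  simp [writtenInExtChartAt, Function.comp_def, fderivWithin_univ]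

/-- Local retractions onto the hypersurface. -/
lemma local_collar (hE : Module.finrank ℝ E = 6) {φ : X → ℝ}
    (hφ : ContMDiff 𝓘(ℝ, E) 𝓘(ℝ, ℝ) ∞ φ) {c : ℝ} {p : R5 → X}
    (hp : ContMDiff 𝓘(ℝ, R5) 𝓘(ℝ, E) ∞ p)
    (himm : ∀ y, Function.Injective (mfderiv 𝓘(ℝ, R5) 𝓘(ℝ, E) p y))
    (hrange : range p = {x | φ x = c}) (hreg : ∀ x, φ x = c → mfderiv 𝓘(ℝ, E) 𝓘(ℝ, ℝ) φ x ≠ 0)
    (hfib : ∀ y y', p y = p y' → mk y = mk y') :
    ∀ x ∈ range p, ∃ (U : Set X) (R : X → R5), IsOpen U ∧ x ∈ U ∧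
      (∀ x ∈ U, ContMDiffAt 𝓘(ℝ, E) 𝓘(ℝ, R5) 1 R x) ∧ ∀ y, p y ∈ U → mk (R (p y)) = mk y := by
  rintro _ ⟨y0, rfl⟩
  set κ := chartAt E (p y0) with hκ
  have hx0 : p y0 ∈ κ.source := mem_chart_source E _
  have hpc : ∀ y, φ (p y) = c := by
    intro y
    have : p y ∈ {x | φ x = c} := by rw [← hrange]; exact mem_range_self y
    exact this
  have hpsrc : ∀ᶠ y in 𝓝 y0, p y ∈ κ.source :=
    hp.continuous.continuousAt (κ.open_source.mem_nhds hx0)
  have hP : ContDiffAt ℝ 1 (κ ∘ p) y0 := by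
    have h1 : ContMDiffAt 𝓘(ℝ, E) 𝓘(ℝ, E) 1 κ (p y0) :=
      (contMDiffOn_chart.contMDiffAt (κ.open_source.mem_nhds hx0))
    have h2 : ContMDiffAt 𝓘(ℝ, R5) 𝓘(ℝ, E) 1 p y0 := (hp.of_le (by norm_cast)) y0
    exact contMDiffAt_iff_contDiffAt.1 (h1.comp y0 h2)
  have hinj : Function.Injective (fderiv ℝ (κ ∘ p) y0) := by
    have h1 := himm y0
    rw [mfderiv_eq_fderiv_chart ((hp y0).mdifferentiableAt (by simp))] at h1
    exact h1
  have hreg' : fderiv ℝ (φ ∘ κ.symm) ((κ ∘ p) y0) ≠ 0 := by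
    have h1 := hreg (p y0) (hpc y0)
    rw [mfderiv_eq_fderiv_symm ((hφ _).mdifferentiableAt (by simp))] at h1
    exact h1
  have hfP : ∀ᶠ y in 𝓝 y0, (φ ∘ κ.symm) ((κ ∘ p) y) = c := by
    filter_upwards [hpsrc] with y hy
    simp only [Function.comp_apply]
    rw [κ.left_inv hy, hpc]
  obtain ⟨Ψ, hΨ⟩ := local_collar_vec hE κ.open_target (κ.map_source hx0)
    ((contDiffOn_comp_symm hφ (p y0)).of_le (by norm_cast)) hP hinj hreg' hfP
  have hev := hΨ _ hpsrc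
  have hκc : ContinuousAt κ (p y0) := κ.continuousAt hx0
  have hev2 : ∀ᶠ x in 𝓝 (p y0), x ∈ κ.source ∧ ContDiffAt ℝ 1 Ψ (κ x) ∧
      ((φ ∘ κ.symm) (κ x) = c → Ψ (κ x) ∈ {y | p y ∈ κ.source} ∧ (κ ∘ p) (Ψ (κ x)) = κ x) :=
    (κ.open_source.eventually_mem hx0).and (hκc.eventually hev)
  obtain ⟨U, hU, hUo, hxU⟩ := eventually_nhds_iff.1 hev2
  refine ⟨U, Ψ ∘ κ, hUo, hxU, ?_, ?_⟩
  · intro x hx
    have h1 : ContMDiffAt 𝓘(ℝ, E) 𝓘(ℝ, E) 1 κ x :=
      (contMDiffOn_chart.contMDiffAt (κ.open_source.mem_nhds (hU x hx).1))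
    exact (hU x hx).2.1.contMDiffAt.comp x h1
  · intro y hy
    obtain ⟨h1, -, h3⟩ := hU _ hy
    have h4 : (φ ∘ κ.symm) (κ (p y)) = c := by
      simp only [Function.comp_apply]
      rw [κ.left_inv h1, hpc]
    obtain ⟨h5, h6⟩ := h3 h4
    have h7 : p (Ψ (κ (p y))) = p y := κ.injOn h5 h1 h6
    exact hfib _ _ h7

end Mfd

end Pool.Agent.LibStein
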