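import Mathlib
import Pool.Agent.Lib_MP_4b4323_gt.Heis

set_option autoImplicit false

open Set Filter Topology

namespace Pool.Agent.LibStein

variable {E : Type*} [NormedAddCommGroup E] [NormedSpace ℝ E]

/-- The linear map to `ℝ⁶` with first coordinate `l` and the others given by `A`. -/
noncomputable def consMap (l : E →L[ℝ] ℝ) (A : E →L[ℝ] R5) : E →L[ℝ] (Fin 6 → ℝ) :=
  ContinuousLinearMap.pi (Fin.cons l (fun i : Fin 5 => (ContinuousLinearMap.proj i).comp A))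

@[simp] lemma consMap_zero (l : E →L[ℝ] ℝ) (A : E →L[ℝ] R5) (v : E) : consMap l A v 0 = l v := rfl

@[simp] lemma consMap_succ (l : E →L[ℝ] ℝ) (A : E →L[ℝ] R5) (v : E) (i : Fin 5) :
    consMap l A v i.succ = A v i := rfl

lemma consMap_comp (l : E →L[ℝ] ℝ) (A : E →L[ℝ] R5) (B : E →L[ℝ] E) :
    consMap (l.comp B) (A.comp B) = (consMap l A).comp B := by
  apply ContinuousLinearMap.ext
  intro v
  ext i
  refine Fin.cases ?_ (fun j => ?_) i
  · rfl
  · rfl

/-- The value on the basis `b` of the exterior product of the six linear forms. -/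
noncomputable def wd (b : Module.Basis (Fin 6) ℝ E) (l : E →L[ℝ] ℝ) (A : E →L[ℝ] R5) : ℝ :=
  (LinearMap.toMatrix b (Pi.basisFun ℝ (Fin 6)) (consMap l A : E →ₗ[ℝ] (Fin 6 → ℝ))).det

lemma toMatrix_consMap (b : Module.Basis (Fin 6) ℝ E) (l : E →L[ℝ] ℝ) (A : E →L[ℝ] R5)
    (i j : Fin 6) :
    LinearMap.toMatrix b (Pi.basisFun ℝ (Fin 6)) (consMap l A : E →ₗ[ℝ] (Fin 6 → ℝ)) i j
      = consMap l A (b j) i := by
  rw [LinearMap.toMatrix_apply]
  simp

/-- expansion along the first row -/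
lemma wd_eq_sum (b : Module.Basis (Fin 6) ℝ E) (A : E →L[ℝ] R5) :
    ∃ m : Fin 6 → ℝ, ∀ l : E →L[ℝ] ℝ, wd b l A = ∑ j, l (b j) * m j := by
  refine ⟨fun j => (-1 : ℝ) ^ (j : ℕ) * (Matrix.of fun (i k : Fin 5) =>
    A (b (j.succAbove k)) i).det, ?_⟩
  intro l
  rw [wd, Matrix.det_succ_row_zero]
  refine Finset.sum_congr rfl fun j _ => ?_
  rw [toMatrix_consMap, consMap_zero]
  have : (LinearMap.toMatrix b (Pi.basisFun ℝ (Fin 6))
      (consMap l A : E →ₗ[ℝ] (Fin 6 → ℝ))).submatrix Fin.succ j.succAbove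
      = Matrix.of fun (i k : Fin 5) => A (b (j.succAbove k)) i := by
    ext i k
    rw [Matrix.submatrix_apply, toMatrix_consMap, consMap_succ]
    rfl
  rw [this]
  ring

lemma wd_zero (b : Module.Basis (Fin 6) ℝ E) (A : E →L[ℝ] R5) : wd b 0 A = 0 := by
  obtain ⟨m, hm⟩ := wd_eq_sum b A
  rw [hm]
  simp

lemma wd_smul (b : Module.Basis (Fin 6) ℝ E) (c : ℝ) (l : E →L[ℝ] ℝ) (A : E →L[ℝ] R5) :
    wd b (c • l) A = c * wd b l A := by
  obtain ⟨m, hm⟩ := wd_eq_sum b A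
  rw [hm, hm, Finset.mul_sum]
  refine Finset.sum_congr rfl fun j _ => ?_
  rw [smul_apply, smul_eq_mul]
  ring

lemma wd_sum {ι : Type*} (b : Module.Basis (Fin 6) ℝ E) (s : Finset ι) (l : ι → E →L[ℝ] ℝ)
    (A : E →L[ℝ] R5) : wd b (∑ i ∈ s, l i) A = ∑ i ∈ s, wd b (l i) A := by
  obtain ⟨m, hm⟩ := wd_eq_sum b A
  simp only [hm]
  rw [Finset.sum_comm]
  refine Finset.sum_congr rfl fun j _ => ?_
  rw [sum_apply, Finset.sum_mul]

lemma wd_comp (b : Module.Basis (Fin 6) ℝ E) (l : E →L[ℝ] ℝ) (A : E →L[ℝ] R5) (B : E →L[ℝ] E) :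
    wd b (l.comp B) (A.comp B) = wd b l A * B.det := by
  rw [wd, consMap_comp]
  have : (((consMap l A).comp B : E →L[ℝ] (Fin 6 → ℝ)) : E →ₗ[ℝ] (Fin 6 → ℝ))
    = (consMap l A : E →ₗ[ℝ] (Fin 6 → ℝ)) ∘ₗ (B : E →ₗ[ℝ] E) := rfl
  rw [this, LinearMap.toMatrix_comp b b, Matrix.det_mul, LinearMap.det_toMatrix]
  rfl

/-- the transformation of `ℝ⁶` corresponding to the linear part of a group element -/
noncomputable def linSix (g : Gam) : (Fin 6 → ℝ) →ₗ[ℝ] (Fin 6 → ℝ) :=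
  LinearMap.transvection ((g.a : ℝ) • LinearMap.proj 2 + (g.c : ℝ) • LinearMap.proj 4)
    (Pi.single 5 1)

lemma det_linSix (g : Gam) : LinearMap.det (linSix g) = 1 := by
  rw [linSix, LinearMap.transvection.det]
  simp

lemma wd_lin (b : Module.Basis (Fin 6) ℝ E) (l : E →L[ℝ] ℝ) (A : E →L[ℝ] R5) (g : Gam) :
    wd b l ((Gam.lin g).comp A) = wd b l A := by
  have h : (consMap l ((Gam.lin g).comp A) : E →ₗ[ℝ] (Fin 6 → ℝ))
      = linSix g ∘ₗ (consMap l A : E →ₗ[ℝ] (Fin 6 → ℝ)) := by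
    apply LinearMap.ext
    intro v
    have h0 : ∀ w : Fin 6 → ℝ, linSix g w = w + (g.a * w 2 + g.c * w 4) • Pi.single 5 1 := by
      intro w
      simp [linSix, LinearMap.transvection]
    rw [LinearMap.comp_apply, h0]
    have h2 : consMap l A v 2 = A v 1 := rfl
    have h4 : consMap l A v 4 = A v 3 := rfl
    ext i
    refine Fin.cases ?_ (fun j => ?_) i
    · simp
    · change (Gam.lin g (A v)) j = _
      rw [Gam.lin_apply]
      change _ = consMap l A v j.succ +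
        ((g.a * consMap l A v 2 + g.c * consMap l A v 4) • Pi.single (5 : Fin 6) (1 : ℝ)
          : Fin 6 → ℝ) j.succ
      rw [h2, h4, consMap_succ]
      have h5 : (Pi.single (5 : Fin 6) (1 : ℝ) : Fin 6 → ℝ) j.succ
          = (Pi.single (4 : Fin 5) (1 : ℝ) : Fin 5 → ℝ) j := by
        fin_cases j <;> rfl
      simp only [Pi.add_apply, Pi.smul_apply, h5]
  rw [wd, h, LinearMap.toMatrix_comp b (Pi.basisFun ℝ (Fin 6)), Matrix.det_mul,
    LinearMap.det_toMatrix, det_linSix, one_mul]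
  rfl

lemma continuous_wd (b : Module.Basis (Fin 6) ℝ E) :
    Continuous fun q : (E →L[ℝ] ℝ) × (E →L[ℝ] R5) => wd b q.1 q.2 := by
  unfold wd
  apply Continuous.matrix_det
  apply continuous_matrix
  intro i j
  simp only [toMatrix_consMap]
  refine Fin.cases ?_ (fun k => ?_) i
  · simp only [consMap_zero]
    exact continuous_fst.clm_apply continuous_const
  · simp only [consMap_succ]
    exact (continuous_apply k).comp (continuous_snd.clm_apply continuous_const)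

lemma wd_ne_zero [FiniteDimensional ℝ E] (b : Module.Basis (Fin 6) ℝ E) (l : E →L[ℝ] ℝ)
    (A : E →L[ℝ] R5)
    (h : ∀ v, l v = 0 → A v = 0 → v = 0) : wd b l A ≠ 0 := by
  have hinj : Function.Injective (consMap l A : E →ₗ[ℝ] (Fin 6 → ℝ)) := by
    rw [← LinearMap.ker_eq_bot, LinearMap.ker_eq_bot']
    intro v hv
    apply h v
    · exact congrFun hv 0
    · ext i
      exact congrFun hv i.succ
  have hfin : Module.finrank ℝ E = Module.finrank ℝ (Fin 6 → ℝ) := by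
    rw [Module.finrank_eq_card_basis b, Module.finrank_fin_fun, Fintype.card_fin]
  let e := LinearEquiv.ofInjectiveOfFinrankEq _ hinj hfin
  have he : (consMap l A : E →ₗ[ℝ] (Fin 6 → ℝ)) = (e : E →ₗ[ℝ] (Fin 6 → ℝ)) := by
    apply LinearMap.ext
    intro v
    rfl
  rw [wd, he]
  have h1 : (LinearMap.toMatrix b (Pi.basisFun ℝ (Fin 6)) (e : E →ₗ[ℝ] (Fin 6 → ℝ))).det *
      (LinearMap.toMatrix (Pi.basisFun ℝ (Fin 6)) b (e.symm : (Fin 6 → ℝ) →ₗ[ℝ] E)).det = 1 := by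
    rw [← Matrix.det_mul, ← LinearMap.toMatrix_comp, LinearEquiv.comp_coe, LinearEquiv.symm_trans_self]
    simp
  intro h0
  rw [h0, zero_mul] at h1
  exact zero_ne_one h1

lemma det_comp_equivFun_symm (b : Module.Basis (Fin 6) ℝ E) (l : E →L[ℝ] ℝ) (A : E →L[ℝ] R5) :
    LinearMap.det ((b.equivFun.symm : (Fin 6 → ℝ) →ₗ[ℝ] E) ∘ₗ
      (consMap l A : E →ₗ[ℝ] (Fin 6 → ℝ))) = wd b l A := by
  rw [← LinearMap.det_toMatrix b, wd]
  congr 1
  ext i j
  rw [LinearMap.toMatrix_apply, toMatrix_consMap]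
  change b.repr (b.equivFun.symm (consMap l A (b j))) i = _
  rw [← b.equivFun_apply, LinearEquiv.apply_symm_apply]

attribute [irreducible] wd

lemma wd_continuousAt {X : Type*} [TopologicalSpace X] (b : Module.Basis (Fin 6) ℝ E)
    {A : X → E →L[ℝ] ℝ} {B : X → E →L[ℝ] R5}
    {x : X} (hA : ContinuousAt A x) (hB : ContinuousAt B x) :
    ContinuousAt (fun x' => wd b (A x') (B x')) x := by
  have h := (continuous_wd b).continuousAt (x := (A x, B x))
  exact h.tendsto.comp (hA.tendsto.prodMk_nhds hB.tendsto)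

end Pool.Agent.LibStein
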