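import Mathlib
import Pool.Agent.Lib_MP_4b4323_gt.Wedge
import Pool.Agent.Lib_MP_4b4323_gt.LocalCollar

set_option autoImplicit false

open Set Filter Topology Manifold ContDiff

namespace Pool.Agent.LibStein

variable {E : Type*} [NormedAddCommGroup E] [NormedSpace ℝ E] [FiniteDimensional ℝ E]
  {X : Type*} [TopologicalSpace X] [ChartedSpace E X] [IsManifold 𝓘(ℝ, E) ∞ X]

/-- the Jacobian of the map `(F, R)` to `ℝ⁶`, in the chart `κ` -/
noncomputable def J (b : Module.Basis (Fin 6) ℝ E) (F : X → ℝ) (R : X → R5)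
    (κ : OpenPartialHomeomorph X E) (x : X) : ℝ :=
  wd b (fderiv ℝ (F ∘ κ.symm) (κ x)) (fderiv ℝ (R ∘ κ.symm) (κ x))

omit [FiniteDimensional ℝ E] in
lemma contDiffAt_comp_symm {V : Type*} [NormedAddCommGroup V] [NormedSpace ℝ V] {F : X → V}
    {x x1 : X} (hx : x ∈ (chartAt E x1).source) (hF : ContMDiffAt 𝓘(ℝ, E) 𝓘(ℝ, V) 1 F x) :
    ContDiffAt ℝ 1 (F ∘ (chartAt E x1).symm) (chartAt E x1 x) := by
  have h1 : ContMDiffAt 𝓘(ℝ, E) 𝓘(ℝ, E) 1 (chartAt E x1).symm (chartAt E x1 x) :=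
    (contMDiffOn_chart_symm (I := 𝓘(ℝ, E)) (n := ∞)).contMDiffAt
      ((chartAt E x1).open_target.mem_nhds ((chartAt E x1).map_source hx)) |>.of_le (by norm_cast)
  have h2 : ContMDiffAt 𝓘(ℝ, E) 𝓘(ℝ, V) 1 F ((chartAt E x1).symm (chartAt E x1 x)) := by
    rw [(chartAt E x1).left_inv hx]; exact hF
  exact contMDiffAt_iff_contDiffAt.1 (h2.comp _ h1)

omit [FiniteDimensional ℝ E] in
lemma contDiffAt_transition {x x1 x2 : X} (hx1 : x ∈ (chartAt E x1).source)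
    (hx2 : x ∈ (chartAt E x2).source) :
    ContDiffAt ℝ 1 (chartAt E x2 ∘ (chartAt E x1).symm) (chartAt E x1 x) := by
  apply contDiffAt_comp_symm hx1
  exact ((contMDiffOn_chart (I := 𝓘(ℝ, E)) (n := ∞)).contMDiffAt
    ((chartAt E x2).open_source.mem_nhds hx2)).of_le (by norm_cast)

omit [NormedSpace ℝ E] [FiniteDimensional ℝ E] [IsManifold 𝓘(ℝ, E) ∞ X] in
lemma eventually_comp_symm {x x1 : X} (hx : x ∈ (chartAt E x1).source) {P : X → Prop}
    (hP : ∀ᶠ x' in 𝓝 x, P x') : ∀ᶠ z in 𝓝 (chartAt E x1 x), P ((chartAt E x1).symm z) := by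
  have h1 : Tendsto (chartAt E x1).symm (𝓝 (chartAt E x1 x)) (𝓝 x) := by
    have := ((chartAt E x1).continuousAt_symm ((chartAt E x1).map_source hx)).tendsto
    rwa [(chartAt E x1).left_inv hx] at this
  exact h1.eventually hP

omit [FiniteDimensional ℝ E] in
lemma J_continuousAt (b : Module.Basis (Fin 6) ℝ E) {F : X → ℝ} {R : X → R5} {x x1 : X}
    (hx : x ∈ (chartAt E x1).source) (hF : ContMDiffAt 𝓘(ℝ, E) 𝓘(ℝ, ℝ) 1 F x)
    (hR : ContMDiffAt 𝓘(ℝ, E) 𝓘(ℝ, R5) 1 R x) : ContinuousAt (J b F R (chartAt E x1)) x := by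
  have h1 : ContinuousAt (fderiv ℝ (F ∘ (chartAt E x1).symm)) (chartAt E x1 x) :=
    ((contDiffAt_comp_symm hx hF).fderiv_right (m := 0) (by norm_num)).continuousAt
  have h2 : ContinuousAt (fderiv ℝ (R ∘ (chartAt E x1).symm)) (chartAt E x1 x) :=
    ((contDiffAt_comp_symm hx hR).fderiv_right (m := 0) (by norm_num)).continuousAt
  have h3 : ContinuousAt (chartAt E x1) x := (chartAt E x1).continuousAt hx
  have h4 : ContinuousAt (fun x' => fderiv ℝ (F ∘ (chartAt E x1).symm) (chartAt E x1 x')) x :=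
    ContinuousAt.comp (f := chartAt E x1) h1 h3
  have h5 : ContinuousAt (fun x' => fderiv ℝ (R ∘ (chartAt E x1).symm) (chartAt E x1 x')) x :=
    ContinuousAt.comp (f := chartAt E x1) h2 h3
  exact wd_continuousAt b h4 h5

omit [FiniteDimensional ℝ E] in
lemma fderiv_chart_change {V : Type*} [NormedAddCommGroup V] [NormedSpace ℝ V] {F : X → V}
    {x x1 x2 : X} (hx1 : x ∈ (chartAt E x1).source)
    (hx2 : x ∈ (chartAt E x2).source) (hF : ContMDiffAt 𝓘(ℝ, E) 𝓘(ℝ, V) 1 F x) :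
    fderiv ℝ (F ∘ (chartAt E x1).symm) (chartAt E x1 x)
      = (fderiv ℝ (F ∘ (chartAt E x2).symm) (chartAt E x2 x)).comp
        (fderiv ℝ (chartAt E x2 ∘ (chartAt E x1).symm) (chartAt E x1 x)) := by
  have h1 : DifferentiableAt ℝ (F ∘ (chartAt E x2).symm)
      ((chartAt E x2 ∘ (chartAt E x1).symm) (chartAt E x1 x)) := by
    simp only [Function.comp_apply]
    rw [(chartAt E x1).left_inv hx1]
    exact (contDiffAt_comp_symm hx2 hF).differentiableAt one_ne_zero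
  have h2 : DifferentiableAt ℝ (chartAt E x2 ∘ (chartAt E x1).symm) (chartAt E x1 x) :=
    (contDiffAt_transition hx1 hx2).differentiableAt one_ne_zero
  have h3 := fderiv_comp (chartAt E x1 x) h1 h2
  have h4 : (F ∘ (chartAt E x1).symm) =ᶠ[𝓝 (chartAt E x1 x)]
      ((F ∘ (chartAt E x2).symm) ∘ (chartAt E x2 ∘ (chartAt E x1).symm)) := by
    filter_upwards [eventually_comp_symm hx1 ((chartAt E x2).open_source.eventually_mem hx2)]
      with z hz
    simp only [Function.comp_apply]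
    rw [(chartAt E x2).left_inv hz]
  rw [h4.fderiv_eq, h3]
  simp only [Function.comp_apply]
  rw [(chartAt E x1).left_inv hx1]

omit [FiniteDimensional ℝ E] in
lemma J_chart (b : Module.Basis (Fin 6) ℝ E) {F : X → ℝ} {R : X → R5} {x x1 x2 : X}
    (hx1 : x ∈ (chartAt E x1).source) (hx2 : x ∈ (chartAt E x2).source)
    (hF : ContMDiffAt 𝓘(ℝ, E) 𝓘(ℝ, ℝ) 1 F x) (hR : ContMDiffAt 𝓘(ℝ, E) 𝓘(ℝ, R5) 1 R x) :
    J b F R (chartAt E x1) x = J b F R (chartAt E x2) x *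
      (fderiv ℝ (chartAt E x2 ∘ (chartAt E x1).symm) (chartAt E x1 x)).det := by
  rw [J, fderiv_chart_change hx1 hx2 hF, fderiv_chart_change hx1 hx2 hR, wd_comp]
  rfl

omit [FiniteDimensional ℝ E] in
lemma J_lift (b : Module.Basis (Fin 6) ℝ E) {F : X → ℝ} {R R' : X → R5} {x x1 : X}
    (hx1 : x ∈ (chartAt E x1).source) (hR' : ContMDiffAt 𝓘(ℝ, E) 𝓘(ℝ, R5) 1 R' x) {g : Gam}
    (h : ∀ᶠ x' in 𝓝 x, R x' = g • R' x') :
    J b F R (chartAt E x1) x = J b F R' (chartAt E x1) x := by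
  have h1 : (R ∘ (chartAt E x1).symm) =ᶠ[𝓝 (chartAt E x1 x)]
      (fun y : R5 => g • y) ∘ (R' ∘ (chartAt E x1).symm) := by
    filter_upwards [eventually_comp_symm hx1 h] with z hz
    exact hz
  have h2 : HasFDerivAt (R' ∘ (chartAt E x1).symm)
      (fderiv ℝ (R' ∘ (chartAt E x1).symm) (chartAt E x1 x)) (chartAt E x1 x) :=
    ((contDiffAt_comp_symm hx1 hR').differentiableAt one_ne_zero).hasFDerivAt
  have h3 := ((g.hasFDerivAt_smul _).comp (chartAt E x1 x) h2).fderiv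
  rw [J, h1.fderiv_eq, h3, wd_lin]
  rfl

omit [FiniteDimensional ℝ E] [IsManifold 𝓘(ℝ, E) ∞ X] in
lemma J_congr (b : Module.Basis (Fin 6) ℝ E) {F F' : X → ℝ} {R R' : X → R5} {x x1 : X}
    (hx1 : x ∈ (chartAt E x1).source) (hF : ∀ᶠ x' in 𝓝 x, F x' = F' x')
    (hR : ∀ᶠ x' in 𝓝 x, R x' = R' x') :
    J b F R (chartAt E x1) x = J b F' R' (chartAt E x1) x := by
  have h1 : (F ∘ (chartAt E x1).symm) =ᶠ[𝓝 (chartAt E x1 x)] (F' ∘ (chartAt E x1).symm) :=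
    eventually_comp_symm hx1 hF
  have h2 : (R ∘ (chartAt E x1).symm) =ᶠ[𝓝 (chartAt E x1 x)] (R' ∘ (chartAt E x1).symm) :=
    eventually_comp_symm hx1 hR
  rw [J, J, h1.fderiv_eq, h2.fderiv_eq]

omit [FiniteDimensional ℝ E] [IsManifold 𝓘(ℝ, E) ∞ X] in
lemma J_eq_zero (b : Module.Basis (Fin 6) ℝ E) {F : X → ℝ} {R : X → R5} {x x1 : X}
    (hx1 : x ∈ (chartAt E x1).source) {c : ℝ} (hF : ∀ᶠ x' in 𝓝 x, F x' = c) :
    J b F R (chartAt E x1) x = 0 := by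
  have h1 : (F ∘ (chartAt E x1).symm) =ᶠ[𝓝 (chartAt E x1 x)] (fun _ => c) :=
    eventually_comp_symm hx1 hF
  rw [J, h1.fderiv_eq]
  simp only [fderiv_fun_const]
  exact wd_zero b _

/-- All transition maps between preferred charts preserve the orientation. -/
def Oriented (E : Type*) [NormedAddCommGroup E] [NormedSpace ℝ E] (X : Type*) [TopologicalSpace X]
    [ChartedSpace E X] : Prop :=
  ∀ x x1 x2 : X, x ∈ (chartAt E x1).source → x ∈ (chartAt E x2).source →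
    0 < (fderiv ℝ (chartAt E x2 ∘ (chartAt E x1).symm) (chartAt E x1 x)).det

/-- The sign of the Jacobian of `(F, r)`. -/
def SgnAt (b : Module.Basis (Fin 6) ℝ E) (s : ℝ) (F : X → ℝ) (r : X → Q) (x : X) : Prop :=
  ∀ (x1 : X) (R : X → R5), x ∈ (chartAt E x1).source → ContMDiffAt 𝓘(ℝ, E) 𝓘(ℝ, R5) 1 R x →
    (∀ᶠ x' in 𝓝 x, mk (R x') = r x') → 0 < s * J b F R (chartAt E x1) x

omit [FiniteDimensional ℝ E] in
lemma SgnAt.of_exists (hor : Oriented E X) (b : Module.Basis (Fin 6) ℝ E) {s : ℝ} {F : X → ℝ}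
    {r : X → Q} {x x2 : X} {R' : X → R5}
    (hF : ContMDiffAt 𝓘(ℝ, E) 𝓘(ℝ, ℝ) 1 F x) (hx2 : x ∈ (chartAt E x2).source)
    (hR' : ContMDiffAt 𝓘(ℝ, E) 𝓘(ℝ, R5) 1 R' x) (hr : ∀ᶠ x' in 𝓝 x, mk (R' x') = r x')
    (hpos : 0 < s * J b F R' (chartAt E x2) x) : SgnAt b s F r x := by
  intro x1 R hx1 hR hRr
  obtain ⟨g, hg⟩ := exists_smul_eq_near hR.continuousAt hR'.continuousAt
    (by filter_upwards [hr, hRr] with x' h1 h2; rw [h1, h2])
  rw [J_lift b hx1 hR' hg, J_chart b hx1 hx2 hF hR', ← mul_assoc]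
  exact mul_pos hpos (hor x x1 x2 hx1 hx2)

omit [FiniteDimensional ℝ E] in
lemma SgnAt.eventually (hor : Oriented E X) (b : Module.Basis (Fin 6) ℝ E) {s : ℝ} {F : X → ℝ}
    {r : X → Q} {x : X}
    (hF : ContMDiff 𝓘(ℝ, E) 𝓘(ℝ, ℝ) 1 F) (hr : NiceAt (E := E) r x) (h : SgnAt b s F r x) :
    ∀ᶠ x' in 𝓝 x, SgnAt b s F r x' := by
  obtain ⟨R, hR, hRr⟩ := hr
  have hRr' : ∀ᶠ x' in 𝓝 x, mk (R x') = r x' := hRr.mono fun x' h => h.symm
  have h1 := h x R (mem_chart_source E x) hR hRr'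
  have h2 : ContinuousAt (fun x' => s * J b F R (chartAt E x) x') x :=
    continuousAt_const.mul (J_continuousAt b (mem_chart_source E x) (hF x) hR)
  have h3 : ∀ᶠ x' in 𝓝 x, ContMDiffAt 𝓘(ℝ, E) 𝓘(ℝ, R5) 1 R x' :=
    (contMDiffAt_iff_contMDiffAt_nhds (by simp)).1 hR
  filter_upwards [h2.eventually (lt_mem_nhds h1), h3, hRr'.eventually_nhds,
    (chartAt E x).open_source.mem_nhds (mem_chart_source E x)] with x' h4 h5 h6 h7
  exact SgnAt.of_exists hor b (hF x') h7 h5 h6 h4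

/-- The Jacobian does not vanish along the hypersurface. -/
lemma J_ne_zero (hE : Module.finrank ℝ E = 6) (b : Module.Basis (Fin 6) ℝ E) {φ : X → ℝ}
    (hφ : ContMDiff 𝓘(ℝ, E) 𝓘(ℝ, ℝ) ∞ φ) {c : ℝ} {p : R5 → X}
    (hp : ContMDiff 𝓘(ℝ, R5) 𝓘(ℝ, E) ∞ p)
    (himm : ∀ y, Function.Injective (mfderiv 𝓘(ℝ, R5) 𝓘(ℝ, E) p y))
    (hpc : ∀ y, φ (p y) = c) (hreg : ∀ x, φ x = c → mfderiv 𝓘(ℝ, E) 𝓘(ℝ, ℝ) φ x ≠ 0)
    {y0 : R5} {R : X → R5} (hR : ContMDiffAt 𝓘(ℝ, E) 𝓘(ℝ, R5) 1 R (p y0))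
    (hRp : ∀ᶠ y in 𝓝 y0, mk (R (p y)) = mk y) :
    J b φ R (chartAt E (p y0)) (p y0) ≠ 0 := by
  set κ := chartAt E (p y0) with hκ
  have hx0 : p y0 ∈ κ.source := mem_chart_source E _
  have hpsrc : ∀ᶠ y in 𝓝 y0, p y ∈ κ.source :=
    hp.continuous.continuousAt (κ.open_source.mem_nhds hx0)
  have hP : ContDiffAt ℝ 1 (κ ∘ p) y0 := by
    have h1 : ContMDiffAt 𝓘(ℝ, E) 𝓘(ℝ, E) 1 κ (p y0) :=
      (contMDiffOn_chart.contMDiffAt (κ.open_source.mem_nhds hx0))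
    have h2 : ContMDiffAt 𝓘(ℝ, R5) 𝓘(ℝ, E) 1 p y0 := (hp.of_le (by norm_cast)) y0
    exact contMDiffAt_iff_contDiffAt.1 (h1.comp y0 h2)
  have hinj : Function.Injective (fderiv ℝ (κ ∘ p) y0) := by
    have h1 := himm y0
    rw [mfderiv_eq_fderiv_chart ((hp y0).mdifferentiableAt (by simp))] at h1
    exact h1
  have hreg' : fderiv ℝ (φ ∘ κ.symm) (κ (p y0)) ≠ 0 := by
    have h1 := hreg (p y0) (hpc y0)
    rw [mfderiv_eq_fderiv_symm ((hφ _).mdifferentiableAt (by simp))] at h1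
    exact h1
  set DP := fderiv ℝ (κ ∘ p) y0 with hDP
  set l := fderiv ℝ (φ ∘ κ.symm) (κ (p y0)) with hl
  set M := fderiv ℝ (R ∘ κ.symm) (κ (p y0)) with hM
  have hPd : HasFDerivAt (κ ∘ p) DP y0 := (hP.differentiableAt one_ne_zero).hasFDerivAt
  have hld : HasFDerivAt (φ ∘ κ.symm) l (κ (p y0)) :=
    ((contDiffAt_comp_symm hx0 ((hφ.of_le (by norm_cast)) (p y0))).differentiableAt
      one_ne_zero).hasFDerivAt
  have hMd : HasFDerivAt (R ∘ κ.symm) M (κ (p y0)) :=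
    ((contDiffAt_comp_symm hx0 hR).differentiableAt one_ne_zero).hasFDerivAt
  have hlP : ∀ w, l (DP w) = 0 := by
    have h1 : HasFDerivAt ((φ ∘ κ.symm) ∘ (κ ∘ p)) (l.comp DP) y0 := hld.comp y0 hPd
    have h2 : HasFDerivAt ((φ ∘ κ.symm) ∘ (κ ∘ p)) (0 : R5 →L[ℝ] ℝ) y0 := by
      apply (hasFDerivAt_const c y0).congr_of_eventuallyEq
      filter_upwards [hpsrc] with y hy
      simp only [Function.comp_apply]
      rw [κ.left_inv hy, hpc]
    intro w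
    exact congrArg (fun A : R5 →L[ℝ] ℝ => A w) (h1.unique h2)
  obtain ⟨g, hg⟩ := exists_smul_eq_near (R := fun y => R (p y)) (R' := fun y : R5 => y)
    (hR.continuousAt.comp hp.continuous.continuousAt) continuousAt_id hRp
  have hMP : ∀ w, M (DP w) = Gam.lin g w := by
    have h1 : HasFDerivAt ((R ∘ κ.symm) ∘ (κ ∘ p)) (M.comp DP) y0 := hMd.comp y0 hPd
    have h2 : HasFDerivAt ((R ∘ κ.symm) ∘ (κ ∘ p)) (Gam.lin g) y0 := by
      apply (Gam.hasFDerivAt_smul g y0).congr_of_eventuallyEq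
      filter_upwards [hpsrc, hg] with y hy hgy
      simp only [Function.comp_apply]
      rw [κ.left_inv hy]
      exact hgy
    intro w
    exact congrArg (fun A : R5 →L[ℝ] R5 => A w) (h1.unique h2)
  have hlininj : ∀ w : R5, Gam.lin g w = 0 → w = 0 := by
    intro w hw
    have h1 : g • w = g • (0 : R5) := by
      rw [Gam.smul_eq_lin, Gam.smul_eq_lin, hw, map_zero]
    exact smul_left_cancel g h1
  -- range of DP is the kernel of l
  have hrk : LinearMap.range (DP : R5 →ₗ[ℝ] E) = LinearMap.ker (l : E →ₗ[ℝ] ℝ) := by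
    apply Submodule.eq_of_le_of_finrank_eq
    · rintro _ ⟨w, rfl⟩
      exact hlP w
    · have h1 : Module.finrank ℝ (LinearMap.range (DP : R5 →ₗ[ℝ] E)) = 5 := by
        rw [LinearMap.finrank_range_of_inj hinj, Module.finrank_fin_fun]
      have h2 := LinearMap.finrank_range_add_finrank_ker (l : E →ₗ[ℝ] ℝ)
      have h3 : LinearMap.range (l : E →ₗ[ℝ] ℝ) = ⊤ := by
        apply LinearMap.range_eq_top.2
        apply LinearMap.surjective_of_ne_zero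
        intro h
        apply hreg'
        apply ContinuousLinearMap.ext
        intro v
        exact congrArg (fun A : E →ₗ[ℝ] ℝ => A v) h
      rw [h3, finrank_top, Module.finrank_self, hE] at h2
      rw [h1]
      omega
  apply wd_ne_zero b
  intro v hv1 hv2
  have h1 : v ∈ LinearMap.range (DP : R5 →ₗ[ℝ] E) := by
    rw [hrk]; exact hv1
  obtain ⟨w, rfl⟩ := h1
  have h2 : M (DP w) = 0 := hv2
  rw [hMP] at h2
  rw [hlininj w h2, map_zero]

/-- The sign of the Jacobian is constant along the hypersurface. -/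
lemma exists_sign (hor : Oriented E X) (hE : Module.finrank ℝ E = 6)
    (b : Module.Basis (Fin 6) ℝ E) {φ : X → ℝ}
    (hφ : ContMDiff 𝓘(ℝ, E) 𝓘(ℝ, ℝ) ∞ φ) {c : ℝ} {p : R5 → X}
    (hp : ContMDiff 𝓘(ℝ, R5) 𝓘(ℝ, E) ∞ p)
    (himm : ∀ y, Function.Injective (mfderiv 𝓘(ℝ, R5) 𝓘(ℝ, E) p y))
    (hpc : ∀ y, φ (p y) = c) (hreg : ∀ x, φ x = c → mfderiv 𝓘(ℝ, E) 𝓘(ℝ, ℝ) φ x ≠ 0)
    {r : X → Q} (hr : ∀ y, NiceAt (E := E) r (p y)) (hrp : ∀ y, r (p y) = mk y) :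
    ∃ s : ℝ, ∀ y, SgnAt b s φ r (p y) := by
  have hφ1 : ContMDiff 𝓘(ℝ, E) 𝓘(ℝ, ℝ) 1 φ := hφ.of_le (by norm_cast)
  let A : ℝ → Set R5 := fun s => {y | SgnAt b s φ r (p y)}
  have hAo : ∀ s, IsOpen (A s) := by
    intro s
    rw [isOpen_iff_mem_nhds]
    intro y hy
    exact hp.continuous.continuousAt.eventually (SgnAt.eventually hor b hφ1 (hr y) hy)
  have hcov : ∀ y, y ∈ A 1 ∨ y ∈ A (-1) := by
    intro y
    obtain ⟨R, hR, hRr⟩ := hr y
    have hRr' : ∀ᶠ x' in 𝓝 (p y), mk (R x') = r x' := hRr.mono fun x' h => h.symm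
    have hRp : ∀ᶠ y' in 𝓝 y, mk (R (p y')) = mk y' := by
      have := hp.continuous.continuousAt.eventually hRr'
      filter_upwards [this] with y' hy'
      rw [hy', hrp]
    have h0 := J_ne_zero hE b hφ hp himm hpc hreg hR hRp
    rcases lt_or_gt_of_ne h0 with h | h
    · right
      exact SgnAt.of_exists hor b (hφ1 _) (mem_chart_source E _) hR hRr' (by linarith)
    · left
      exact SgnAt.of_exists hor b (hφ1 _) (mem_chart_source E _) hR hRr' (by linarith)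
  have hdisj : ∀ y, ¬ (y ∈ A 1 ∧ y ∈ A (-1)) := by
    rintro y ⟨h1, h2⟩
    obtain ⟨R, hR, hRr⟩ := hr y
    have hRr' : ∀ᶠ x' in 𝓝 (p y), mk (R x') = r x' := hRr.mono fun x' h => h.symm
    have h3 := h1 (p y) R (mem_chart_source E _) hR hRr'
    have h4 := h2 (p y) R (mem_chart_source E _) hR hRr'
    linarith
  by_cases hall : ∀ y, y ∈ A 1
  · exact ⟨1, hall⟩
  · push Not at hall
    obtain ⟨y1, hy1⟩ := hall
    refine ⟨-1, ?_⟩
    intro y
    by_contra hy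
    have hyA : y ∈ A 1 := (hcov y).resolve_right hy
    have hy1A : y1 ∈ A (-1) := (hcov y1).resolve_left hy1
    obtain ⟨z, -, hz1, hz2⟩ := (isPreconnected_univ (α := R5)) (A 1) (A (-1)) (hAo 1) (hAo (-1))
      (fun y _ => hcov y) ⟨y, mem_univ _, hyA⟩ ⟨y1, mem_univ _, hy1A⟩
    exact hdisj z ⟨hz1, hz2⟩

end Pool.Agent.LibStein
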