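import Mathlib

set_option autoImplicit false

open MeasureTheory Set Metric

namespace Pool.Agent.LibStein

variable {E : Type*} [NormedAddCommGroup E] [NormedSpace ℝ E] [FiniteDimensional ℝ E]
  [MeasurableSpace E] [BorelSpace E]

/-- A small compactly supported perturbation of the identity preserves the volume of a ball
containing the support. -/
lemma exists_integral_det_id_add_smul (μ : Measure E) [μ.IsAddHaarMeasure] (H : E → E)
    (hH : ContDiff ℝ 1 H) (hc : HasCompactSupport H) :
    ∃ δ : ℝ, 0 < δ ∧ ∀ s : ℝ, |s| ≤ δ → ∀ R : ℝ, tsupport H ⊆ ball 0 R →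
      ∫ x in ball (0 : E) R, (ContinuousLinearMap.id ℝ E + s • fderiv ℝ H x).det ∂μ
        = μ.real (ball (0 : E) R) := by
  obtain ⟨C, hC⟩ := hH.lipschitzWith_of_hasCompactSupport hc one_ne_zero
  -- det positive near identity
  have hdet : ∀ᶠ A : E →L[ℝ] E in nhds 0, 0 < (ContinuousLinearMap.id ℝ E + A).det := by
    have hcont : Continuous fun A : E →L[ℝ] E => (ContinuousLinearMap.id ℝ E + A).det := by
      exact ContinuousLinearMap.continuous_det.comp (continuous_const.add continuous_id)
    have h0 : 0 < (ContinuousLinearMap.id ℝ E + (0 : E →L[ℝ] E)).det := by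
      rw [add_zero]
      have : (ContinuousLinearMap.id ℝ E).det = LinearMap.det (LinearMap.id : E →ₗ[ℝ] E) := rfl
      rw [this, LinearMap.det_id]
      exact one_pos
    exact hcont.continuousAt.eventually (lt_mem_nhds h0)
  obtain ⟨ε, hε, hdet⟩ := Metric.eventually_nhds_iff.1 hdet
  have hfd : ∀ x, ‖fderiv ℝ H x‖ ≤ C := fun x => norm_fderiv_le_of_lipschitz ℝ hC
  refine ⟨min (ε / 2) (1 / 2) / (C + 1), by positivity, ?_⟩
  intro s hs R hR
  have hC0 : (0 : ℝ) ≤ C := C.2
  have hsC : |s| * C ≤ min (ε / 2) (1 / 2) := by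
    have h1 : |s| * (C + 1) ≤ min (ε / 2) (1 / 2) := by
      rwa [le_div_iff₀ (by positivity)] at hs
    nlinarith [abs_nonneg s]
  set f : E → E := fun x => x + s • H x with hf
  have hfderiv : ∀ x, HasFDerivAt f (ContinuousLinearMap.id ℝ E + s • fderiv ℝ H x) x := by
    intro x
    have := (hH.differentiable one_ne_zero x).hasFDerivAt
    exact (hasFDerivAt_id x).add (this.const_smul s)
  -- approximates linear
  have happ : ApproximatesLinearOn f ((ContinuousLinearEquiv.refl ℝ E : E ≃L[ℝ] E) : E →L[ℝ] E)
      univ (Real.toNNReal (1/2)) := by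
    intro x _ y _
    have h1 : f x - f y - ((ContinuousLinearEquiv.refl ℝ E : E ≃L[ℝ] E) : E →L[ℝ] E) (x - y)
        = s • (H x - H y) := by
      simp only [hf, ContinuousLinearEquiv.coe_refl, ContinuousLinearMap.coe_id', id_eq, smul_sub]
      abel
    rw [h1, norm_smul, Real.norm_eq_abs]
    have h2 : ‖H x - H y‖ ≤ C * ‖x - y‖ := by
      simpa [dist_eq_norm] using hC.dist_le_mul x y
    have h3 : |s| * C ≤ 1 / 2 := hsC.trans (min_le_right _ _)
    have h4 : ((Real.toNNReal (1/2) : NNReal) : ℝ) = 1/2 := Real.coe_toNNReal _ (by norm_num)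
    rw [h4]
    calc |s| * ‖H x - H y‖ ≤ |s| * (C * ‖x - y‖) := by gcongr
      _ = (|s| * C) * ‖x - y‖ := by ring
      _ ≤ 1 / 2 * ‖x - y‖ := by gcongr
  have hbij : Function.Bijective f := by
    have hlt : Subsingleton E ∨ (Real.toNNReal (1/2)) <
        ‖((ContinuousLinearEquiv.refl ℝ E).symm : E →L[ℝ] E)‖₊⁻¹ := by
      rcases subsingleton_or_nontrivial E with h | h
      · exact Or.inl h
      · right
        have : ‖((ContinuousLinearEquiv.refl ℝ E).symm : E →L[ℝ] E)‖₊ = 1 := by
          have : ((ContinuousLinearEquiv.refl ℝ E).symm : E →L[ℝ] E)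
            = ContinuousLinearMap.id ℝ E := rfl
          rw [this]
          ext
          simp
        rw [this, inv_one]
        rw [Real.toNNReal_lt_one]
        norm_num
    have := (happ.toHomeomorph f hlt).bijective
    exact this
  have houtside : ∀ x, x ∉ ball (0 : E) R → f x = x := by
    intro x hx
    have : H x = 0 := by
      by_contra h
      exact hx (hR (subset_tsupport H h))
    simp [hf, this]
  have himage : f '' ball (0 : E) R = ball (0 : E) R := by
    apply Subset.antisymm
    · rintro _ ⟨x, hx, rfl⟩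
      by_contra h
      have := houtside _ h
      have := hbij.injective this
      rw [this] at h
      exact h hx
    · intro y hy
      obtain ⟨x, rfl⟩ := hbij.surjective y
      refine ⟨x, ?_, rfl⟩
      by_contra h
      rw [houtside x h] at hy
      exact h hy
  have key := integral_image_eq_integral_abs_det_fderiv_smul μ
    (measurableSet_ball (x := (0 : E)) (ε := R)) (f := f)
    (fun x _ => (hfderiv x).hasFDerivWithinAt) (hbij.injective.injOn) (fun _ => (1 : ℝ))
  rw [himage] at key
  simp only [integral_const, smul_eq_mul, mul_one, MeasurableSet.univ, measureReal_restrict_apply,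
    univ_inter] at key
  rw [key]
  congr 1
  ext x
  rw [abs_of_pos]
  apply hdet
  rw [dist_zero_right, norm_smul, Real.norm_eq_abs]
  calc |s| * ‖fderiv ℝ H x‖ ≤ |s| * C := by gcongr; exact hfd x
    _ ≤ ε / 2 := hsC.trans (min_le_left _ _)
    _ < ε := by linarith

/-- The integral of the Jacobian determinant of a compactly supported map vanishes. -/
theorem integral_det_fderiv_eq_zero [Nontrivial E] (μ : Measure E) [μ.IsAddHaarMeasure] (H : E → E)
    (hH : ContDiff ℝ 1 H) (hc : HasCompactSupport H) :
    ∫ x, (fderiv ℝ H x).det ∂μ = 0 := by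
  obtain ⟨δ, hδ, hint⟩ := exists_integral_det_id_add_smul μ H hH hc
  obtain ⟨R, hR⟩ := hc.isCompact.isBounded.subset_ball (0 : E)
  set n := Module.finrank ℝ E with hn
  have hnpos : 0 < n := Module.finrank_pos
  set b := Module.finBasis ℝ E with hb
  -- nodes
  set v : ℕ → ℝ := fun k => δ * (k / (n + 1 : ℝ)) with hv
  have hvinj : Set.InjOn v (Finset.range (n + 1) : Set ℕ) := by
    intro i _ j _ hij
    simp only [hv] at hij
    have := mul_left_cancel₀ hδ.ne' hij
    rw [div_left_inj' (by positivity)] at this
    exact_mod_cast this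
  have hvabs : ∀ k ∈ Finset.range (n + 1), |v k| ≤ δ := by
    intro k hk
    have hk' : (k : ℝ) ≤ n + 1 := by
      have := Finset.mem_range.1 hk
      exact_mod_cast this.le
    simp only [hv]
    rw [abs_of_nonneg (by positivity)]
    calc δ * (k / (n + 1 : ℝ)) ≤ δ * 1 := by
          gcongr
          rw [div_le_one (by positivity)]
          exact hk'
      _ = δ := mul_one _
  set w : ℕ → ℝ := fun k => (∏ j ∈ (Finset.range (n + 1)).erase k, (v k - v j))⁻¹ with hw
  have hwsum : ∑ k ∈ Finset.range (n + 1), w k = 0 := by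
    have := Lagrange.coeff_eq_sum (s := Finset.range (n + 1)) (v := v) hvinj (P := (1 : Polynomial ℝ))
      (by rw [Polynomial.degree_one, Finset.card_range]; exact_mod_cast Nat.succ_pos n)
    rw [Finset.card_range, Nat.add_sub_cancel, Polynomial.coeff_one, if_neg hnpos.ne'] at this
    rw [this]
    refine Finset.sum_congr rfl fun k _ => ?_
    simp [hw]
  have hpt : ∀ A : E →L[ℝ] E, A.det = ∑ k ∈ Finset.range (n + 1),
      w k * (ContinuousLinearMap.id ℝ E + v k • A).det := by
    intro A
    set M : Matrix (Fin n) (Fin n) ℝ := LinearMap.toMatrix b b (A : E →ₗ[ℝ] E) with hM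
    set P : Polynomial ℝ :=
      ((Polynomial.X : Polynomial ℝ) • M.map (Polynomial.C : ℝ →+* Polynomial ℝ)
        + (1 : Matrix (Fin n) (Fin n) ℝ).map (Polynomial.C : ℝ →+* Polynomial ℝ)).det
      with hP
    have hcoeff : P.coeff n = A.det := by
      have := Polynomial.coeff_det_X_add_C_card M (1 : Matrix (Fin n) (Fin n) ℝ)
      rw [Fintype.card_fin] at this
      rw [hP, this, hM, LinearMap.det_toMatrix]
    have heval : ∀ s : ℝ, P.eval s = (ContinuousLinearMap.id ℝ E + s • A).det := by
      intro s
      have h1 : (ContinuousLinearMap.id ℝ E + s • A).det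
          = (LinearMap.toMatrix b b
            ((ContinuousLinearMap.id ℝ E + s • A : E →L[ℝ] E) : E →ₗ[ℝ] E)).det := by
        rw [LinearMap.det_toMatrix]
      have h2 : LinearMap.toMatrix b b
            ((ContinuousLinearMap.id ℝ E + s • A : E →L[ℝ] E) : E →ₗ[ℝ] E) = 1 + s • M := by
        rw [hM]
        have : ((ContinuousLinearMap.id ℝ E + s • A : E →L[ℝ] E) : E →ₗ[ℝ] E)
          = LinearMap.id + s • (A : E →ₗ[ℝ] E) := rfl
        rw [this, map_add, map_smul, LinearMap.toMatrix_id]
      rw [h1, h2, hP]
      rw [← Polynomial.coe_evalRingHom, RingHom.map_det]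
      congr 1
      ext i j
      by_cases hij : i = j
      · subst hij
        simp [Matrix.map_apply, Matrix.one_apply]
        ring
      · simp [Matrix.map_apply, Matrix.one_apply, hij]
        ring
    have hdeg : P.degree < ((Finset.range (n + 1)).card : WithBot ℕ) := by
      rw [Finset.card_range]
      have := Polynomial.natDegree_det_X_add_C_le M (1 : Matrix (Fin n) (Fin n) ℝ)
      rw [Fintype.card_fin] at this
      refine lt_of_le_of_lt Polynomial.degree_le_natDegree ?_
      exact_mod_cast Nat.lt_succ_of_le this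
    have hL := Lagrange.coeff_eq_sum (s := Finset.range (n + 1)) (v := v) hvinj (P := P) hdeg
    rw [Finset.card_range, Nat.add_sub_cancel, hcoeff] at hL
    rw [hL]
    refine Finset.sum_congr rfl fun k _ => ?_
    rw [heval, hw, div_eq_inv_mul]
  have hsupp : ∀ x, x ∉ ball (0 : E) R → (fderiv ℝ H x).det = 0 := by
    intro x hx
    have h0 : fderiv ℝ H x = 0 := by
      have hx' : x ∉ tsupport H := fun h => hx (hR h)
      have : x ∉ tsupport (fderiv ℝ H) := fun h => hx' (tsupport_fderiv_subset ℝ h)
      exact image_eq_zero_of_notMem_tsupport this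
    rw [h0]
    have : ((0 : E →L[ℝ] E)).det = 0 := by
      have : ((0 : E →L[ℝ] E)).det = LinearMap.det (0 : E →ₗ[ℝ] E) := rfl
      rw [this, LinearMap.det_zero, zero_pow]
      exact (Module.finrank_pos).ne'
    exact this
  rw [← setIntegral_eq_integral_of_forall_compl_eq_zero (s := ball (0 : E) R) hsupp]
  have hcontA : Continuous fun x => fderiv ℝ H x := hH.continuous_fderiv one_ne_zero
  have hintegrable : ∀ s : ℝ, IntegrableOn
      (fun x => (ContinuousLinearMap.id ℝ E + s • fderiv ℝ H x).det) (ball (0 : E) R) μ := by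
    intro s
    have hc1 : Continuous fun x => (ContinuousLinearMap.id ℝ E + s • fderiv ℝ H x).det :=
      ContinuousLinearMap.continuous_det.comp (continuous_const.add (hcontA.const_smul s))
    exact (hc1.continuousOn.integrableOn_compact (isCompact_closedBall (0 : E) R)).mono_set
      ball_subset_closedBall
  calc ∫ x in ball (0 : E) R, (fderiv ℝ H x).det ∂μ
      = ∫ x in ball (0 : E) R, ∑ k ∈ Finset.range (n + 1),
          w k * (ContinuousLinearMap.id ℝ E + v k • fderiv ℝ H x).det ∂μ := by
        congr 1
        ext x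
        exact hpt _
    _ = ∑ k ∈ Finset.range (n + 1), ∫ x in ball (0 : E) R,
          w k * (ContinuousLinearMap.id ℝ E + v k • fderiv ℝ H x).det ∂μ := by
        apply integral_finsetSum
        intro k _
        exact (hintegrable (v k)).const_mul (w k)
    _ = ∑ k ∈ Finset.range (n + 1), w k * μ.real (ball (0 : E) R) := by
        refine Finset.sum_congr rfl fun k hk => ?_
        rw [integral_const_mul, hint (v k) (hvabs k hk) R hR]
    _ = 0 := by rw [← Finset.sum_mul, hwsum, zero_mul]

end Pool.Agent.LibStein
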