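import Mathlib
import Pool.Agent.Lib_MP_4b4323_gt.NullLagrangian
import Pool.Agent.Lib_MP_4b4323_gt.Jac

set_option autoImplicit false

open Set Filter Topology Manifold ContDiff MeasureTheory

namespace Pool.Agent.LibStein

variable {E : Type*} [NormedAddCommGroup E] [NormedSpace ℝ E] [FiniteDimensional ℝ E]
  [MeasurableSpace E] [BorelSpace E]
  {X : Type*} [TopologicalSpace X] [ChartedSpace E X] [IsManifold 𝓘(ℝ, E) ∞ X] [T2Space X]

/-- integral of a function over the domain of a chart -/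
noncomputable def chInt (μ : Measure E) (κ : OpenPartialHomeomorph X E) (g : X → ℝ) : ℝ :=
  ∫ z in κ.target, g (κ.symm z) ∂μ

omit [NormedSpace ℝ E] [FiniteDimensional ℝ E] [ChartedSpace E X] [IsManifold 𝓘(ℝ, E) ∞ X]
  [T2Space X] in
lemma chInt_congr (μ : Measure E) (κ : OpenPartialHomeomorph X E) {g g' : X → ℝ}
    (h : ∀ x ∈ κ.source, g x = g' x) : chInt μ κ g = chInt μ κ g' := by
  apply setIntegral_congr_fun κ.open_target.measurableSet
  intro z hz
  exact h _ (κ.map_target hz)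

omit [NormedSpace ℝ E] [FiniteDimensional ℝ E] [ChartedSpace E X] [IsManifold 𝓘(ℝ, E) ∞ X]
  [T2Space X] in
lemma integrableOn_chInt (μ : Measure E) [IsFiniteMeasureOnCompacts μ]
    (κ : OpenPartialHomeomorph X E) {g : X → ℝ}
    {K : Set X} (hK : IsCompact K) (hKs : K ⊆ κ.source) (h0 : ∀ x ∈ κ.source, x ∉ K → g x = 0)
    (hc : ∀ x ∈ K, ContinuousAt g x) : IntegrableOn (fun z => g (κ.symm z)) κ.target μ := by
  have hKc : IsCompact (κ '' K) := hK.image_of_continuousOn (κ.continuousOn.mono hKs)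
  have h1 : ContinuousOn (fun z => g (κ.symm z)) (κ '' K) := by
    rintro _ ⟨x, hx, rfl⟩
    apply ContinuousAt.continuousWithinAt
    have h2 : ContinuousAt κ.symm (κ x) := κ.continuousAt_symm (κ.map_source (hKs hx))
    have h3 : ContinuousAt g (κ.symm (κ x)) := by rw [κ.left_inv (hKs hx)]; exact hc x hx
    exact ContinuousAt.comp (f := κ.symm) h3 h2
  have h2 : IntegrableOn (fun z => g (κ.symm z)) (κ '' K) μ := h1.integrableOn_compact hKc
  apply h2.of_forall_sdiff_eq_zero κ.open_target.measurableSet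
  rintro z ⟨hz, hzK⟩
  apply h0 _ (κ.map_target hz)
  intro hmem
  exact hzK ⟨_, hmem, κ.right_inv hz⟩

omit [T2Space X] in
/-- Change of charts. -/
lemma chInt_change (hor : Oriented E X) (μ : Measure E) [μ.IsAddHaarMeasure] (x1 x2 : X)
    {g g' : X → ℝ}
    (h0 : ∀ x ∈ (chartAt E x1).source, x ∉ (chartAt E x2).source → g x = 0)
    (h0' : ∀ x ∈ (chartAt E x2).source, x ∉ (chartAt E x1).source → g' x = 0)
    (hg : ∀ x ∈ (chartAt E x1).source, x ∈ (chartAt E x2).source → g x = g' x *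
      (fderiv ℝ (chartAt E x2 ∘ (chartAt E x1).symm) (chartAt E x1 x)).det) :
    chInt μ (chartAt E x1) g = chInt μ (chartAt E x2) g' := by
  set κ := chartAt E x1 with hκ
  set κ' := chartAt E x2 with hκ'
  set τ := κ.symm.trans κ' with hτ
  have hτs : τ.source = κ.target ∩ κ.symm ⁻¹' κ'.source := by
    rw [hτ, OpenPartialHomeomorph.trans_source, OpenPartialHomeomorph.symm_source]
  have hτt : τ.target = κ'.target ∩ κ'.symm ⁻¹' κ.source := by
    rw [hτ, OpenPartialHomeomorph.trans_target, OpenPartialHomeomorph.symm_target]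
  have h1 : chInt μ κ g = ∫ z in τ.source, g (κ.symm z) ∂μ := by
    unfold chInt
    apply setIntegral_eq_of_subset_of_forall_sdiff_eq_zero κ.open_target.measurableSet
    · rw [hτs]; exact inter_subset_left
    · rintro z ⟨hz, hzs⟩
      apply h0 _ (κ.map_target hz)
      intro hmem
      apply hzs
      rw [hτs]
      exact ⟨hz, hmem⟩
  have h2 : chInt μ κ' g' = ∫ z in τ.target, g' (κ'.symm z) ∂μ := by
    unfold chInt
    apply setIntegral_eq_of_subset_of_forall_sdiff_eq_zero κ'.open_target.measurableSet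
    · rw [hτt]; exact inter_subset_left
    · rintro z ⟨hz, hzs⟩
      apply h0' _ (κ'.map_target hz)
      intro hmem
      apply hzs
      rw [hτt]
      exact ⟨hz, hmem⟩
  rw [h1, h2, ← τ.image_source_eq_target]
  have hder : ∀ z ∈ τ.source, HasFDerivWithinAt τ (fderiv ℝ (κ' ∘ κ.symm) z) τ.source z := by
    intro z hz
    rw [hτs] at hz
    have h3 : κ.symm z ∈ κ.source := κ.map_target hz.1
    have h4 := (contDiffAt_transition h3 hz.2).differentiableAt one_ne_zero
    rw [← hκ, ← hκ', κ.right_inv hz.1] at h4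
    exact h4.hasFDerivAt.hasFDerivWithinAt
  rw [integral_image_eq_integral_abs_det_fderiv_smul μ τ.open_source.measurableSet hder τ.injOn]
  apply setIntegral_congr_fun τ.open_source.measurableSet
  intro z hz
  rw [hτs] at hz
  have h3 : κ.symm z ∈ κ.source := κ.map_target hz.1
  have h4 := hg _ h3 hz.2
  have h5 := hor _ x1 x2 h3 hz.2
  rw [← hκ, ← hκ', κ.right_inv hz.1] at h5
  rw [κ.right_inv hz.1] at h4
  have h6 : κ'.symm (τ z) = κ.symm z := by
    rw [hτ]
    simp only [OpenPartialHomeomorph.coe_trans, Function.comp_apply]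
    exact κ'.left_inv hz.2
  simp only [h6, h4, abs_of_pos h5, smul_eq_mul]
  ring

omit [MeasurableSpace E] [BorelSpace E] [FiniteDimensional ℝ E] [T2Space X] in
/-- The Jacobian determinant of the coordinate map. -/
lemma fderiv_det_eq_J (b : Module.Basis (Fin 6) ℝ E) {F : X → ℝ} {R : X → R5} {H : E → E}
    {x x1 : X} (hx : x ∈ (chartAt E x1).source) (hF : ContMDiffAt 𝓘(ℝ, E) 𝓘(ℝ, ℝ) 1 F x)
    (hR : ContMDiffAt 𝓘(ℝ, E) 𝓘(ℝ, R5) 1 R x)
    (hH : ∀ᶠ z in 𝓝 (chartAt E x1 x), H z = b.equivFun.symm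
      (Fin.cons (F ((chartAt E x1).symm z)) (R ((chartAt E x1).symm z)))) :
    (fderiv ℝ H (chartAt E x1 x)).det = J b F R (chartAt E x1) x := by
  set κ := chartAt E x1 with hκ
  have h1 : HasFDerivAt (F ∘ κ.symm) (fderiv ℝ (F ∘ κ.symm) (κ x)) (κ x) :=
    ((contDiffAt_comp_symm hx hF).differentiableAt one_ne_zero).hasFDerivAt
  have h2 : HasFDerivAt (R ∘ κ.symm) (fderiv ℝ (R ∘ κ.symm) (κ x)) (κ x) :=
    ((contDiffAt_comp_symm hx hR).differentiableAt one_ne_zero).hasFDerivAt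
  have : FiniteDimensional ℝ E := Module.Basis.finiteDimensional_of_finite b
  have h3 : HasFDerivAt (fun z => (Fin.cons (F (κ.symm z)) (R (κ.symm z)) : Fin 6 → ℝ))
      (consMap (fderiv ℝ (F ∘ κ.symm) (κ x)) (fderiv ℝ (R ∘ κ.symm) (κ x))) (κ x) := by
    rw [hasFDerivAt_pi']
    intro i
    refine Fin.cases ?_ (fun j => ?_) i
    · exact h1
    · exact (hasFDerivAt_pi'.1 h2) j
  let e : (Fin 6 → ℝ) →L[ℝ] E := b.equivFun.symm.toContinuousLinearEquiv
  have h4 : HasFDerivAt H (e.comp (consMap (fderiv ℝ (F ∘ κ.symm) (κ x))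
      (fderiv ℝ (R ∘ κ.symm) (κ x)))) (κ x) := by
    apply HasFDerivAt.congr_of_eventuallyEq _ hH
    exact e.hasFDerivAt.comp (κ x) h3
  rw [h4.fderiv, J, ← det_comp_equivFun_symm]
  rfl

/-- The integral of an exact form vanishes. -/
lemma chInt_exact (b : Module.Basis (Fin 6) ℝ E) (μ : Measure E) [μ.IsAddHaarMeasure] (x1 : X)
    {F : X → ℝ} {R : X → R5} {U : Set X} (hU : IsOpen U) (hUs : U ⊆ (chartAt E x1).source)
    (hF : ∀ x ∈ U, ContMDiffAt 𝓘(ℝ, E) 𝓘(ℝ, ℝ) 1 F x)
    (hR : ∀ x ∈ U, ContMDiffAt 𝓘(ℝ, E) 𝓘(ℝ, R5) 1 R x)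
    (hFc : IsCompact (tsupport F)) (hFU : tsupport F ⊆ U) :
    chInt μ (chartAt E x1) (J b F R (chartAt E x1)) = 0 := by
  classical
  have : LocallyCompactSpace X := ChartedSpace.locallyCompactSpace E X
  have : Nontrivial E := by
    have : Nontrivial (Fin 6 → ℝ) := inferInstance
    exact b.equivFun.toEquiv.nontrivial
  set κ := chartAt E x1 with hκ
  obtain ⟨O', hO', hKO', hO'U, hO'c⟩ := exists_open_between_and_isCompact_closure hFc hU hFU
  obtain ⟨θ, hθs, ⟨V, hVo, hKV, hθ1⟩, hθsupp⟩ := exists_cutoff (E := E) hFc hO' hKO'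
  have hθs1 : ContMDiff 𝓘(ℝ, E) 𝓘(ℝ, ℝ) 1 θ := hθs.of_le (by norm_cast)
  set C := closure O' with hC
  have hF0 : ∀ x, x ∉ C → F x = 0 := fun x hx =>
    image_eq_zero_of_notMem_tsupport fun h => hx (subset_closure (hKO' h))
  have hθ0 : ∀ x, x ∉ C → θ x = 0 := fun x hx =>
    image_eq_zero_of_notMem_tsupport fun h => hx (subset_closure (hθsupp h))
  have hCs : C ⊆ κ.source := hO'U.trans hUs
  have hθR : ∀ x ∈ U, ContMDiffAt 𝓘(ℝ, E) 𝓘(ℝ, R5) 1 (fun x => θ x • R x) x := fun x hx =>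
    (hθs1 x).smul (hR x hx)
  let H : E → E := fun z => if z ∈ κ.target then b.equivFun.symm
    (Fin.cons (F (κ.symm z)) (θ (κ.symm z) • R (κ.symm z))) else 0
  have hHt : ∀ z ∈ κ.target, ∀ᶠ z' in 𝓝 z, H z' = b.equivFun.symm
      (Fin.cons (F (κ.symm z')) (θ (κ.symm z') • R (κ.symm z'))) := by
    intro z hz
    filter_upwards [κ.open_target.mem_nhds hz] with z' hz'
    simp only [H, hz', if_true]
  have hCc : IsCompact (κ '' C) := hO'c.image_of_continuousOn (κ.continuousOn.mono hCs)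
  have hH0 : ∀ z, z ∉ κ '' C → H z = 0 := by
    intro z hz
    by_cases hzt : z ∈ κ.target
    · have hx : κ.symm z ∉ C := fun h => hz ⟨_, h, κ.right_inv hzt⟩
      simp only [H, hzt, if_true]
      rw [hF0 _ hx, hθ0 _ hx, zero_smul]
      have : (Fin.cons 0 0 : Fin 6 → ℝ) = 0 := by
        ext i
        refine Fin.cases ?_ (fun j => ?_) i <;> rfl
      rw [this, map_zero]
    · simp only [H, hzt, if_false]
  have hH0' : ∀ z, z ∉ κ '' C → ∀ᶠ z' in 𝓝 z, H z' = 0 := by
    intro z hz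
    filter_upwards [hCc.isClosed.isOpen_compl.mem_nhds hz] with z' hz'
    exact hH0 z' hz'
  have hHC : ContDiff ℝ 1 H := by
    rw [contDiff_iff_contDiffAt]
    intro z
    by_cases hz : z ∈ κ '' C
    · obtain ⟨x, hx, rfl⟩ := hz
      have hxs : x ∈ κ.source := hCs hx
      have hxU : x ∈ U := hO'U hx
      have h1 : ContDiffAt ℝ 1 (F ∘ κ.symm) (κ x) := contDiffAt_comp_symm hxs (hF x hxU)
      have h2 : ContDiffAt ℝ 1 ((fun x => θ x • R x) ∘ κ.symm) (κ x) :=
        contDiffAt_comp_symm hxs (hθR x hxU)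
      have h3 : ContDiffAt ℝ 1 (fun z => (Fin.cons (F (κ.symm z))
          (θ (κ.symm z) • R (κ.symm z)) : Fin 6 → ℝ)) (κ x) := by
        rw [contDiffAt_pi]
        intro i
        refine Fin.cases ?_ (fun j => ?_) i
        · exact h1
        · exact (contDiffAt_pi.1 h2) j
      let e : (Fin 6 → ℝ) →L[ℝ] E := b.equivFun.symm.toContinuousLinearEquiv
      have h4 : ContDiffAt ℝ 1 (fun z => e (Fin.cons (F (κ.symm z))
          (θ (κ.symm z) • R (κ.symm z)) : Fin 6 → ℝ)) (κ x) := e.contDiff.contDiffAt.comp _ h3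
      exact h4.congr_of_eventuallyEq (hHt _ (κ.map_source hxs))
    · exact contDiffAt_const.congr_of_eventuallyEq (hH0' z hz)
  have hHcs : HasCompactSupport H := HasCompactSupport.intro hCc hH0
  have hint := integral_det_fderiv_eq_zero μ H hHC hHcs
  have hdet0 : ∀ z, z ∉ κ '' C → (fderiv ℝ H z).det = 0 := by
    intro z hz
    have h1 : H =ᶠ[𝓝 z] fun _ => (0 : E) := hH0' z hz
    rw [h1.fderiv_eq, fderiv_fun_const]
    have : ((0 : E →L[ℝ] E)).det = LinearMap.det (0 : E →ₗ[ℝ] E) := rfl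
    change ((0 : E →L[ℝ] E)).det = 0
    rw [this, LinearMap.det_zero, zero_pow]
    exact (Module.finrank_pos).ne'
  have hpt : ∀ z ∈ κ.target, J b F R κ (κ.symm z) = (fderiv ℝ H z).det := by
    intro z hz
    have hxs : κ.symm z ∈ κ.source := κ.map_target hz
    by_cases hxU : κ.symm z ∈ U
    · have h1 := fderiv_det_eq_J b (F := F) (R := fun x => θ x • R x) (H := H) hxs (hF _ hxU)
        (hθR _ hxU) (by rw [κ.right_inv hz]; exact hHt z hz)
      rw [κ.right_inv hz] at h1
      rw [h1]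
      by_cases hxF : κ.symm z ∈ tsupport F
      · apply J_congr b hxs (Eventually.of_forall fun _ => rfl)
        filter_upwards [hVo.mem_nhds (hKV hxF)] with x' hx'
        rw [hθ1 x' hx', one_smul]
      · have hF0' : ∀ᶠ x' in 𝓝 (κ.symm z), F x' = 0 := by
          filter_upwards [(isClosed_tsupport F).isOpen_compl.mem_nhds hxF] with x' hx'
          exact image_eq_zero_of_notMem_tsupport hx'
        rw [J_eq_zero b hxs hF0', J_eq_zero b hxs hF0']
    · have hxF : κ.symm z ∉ tsupport F := fun h => hxU (hFU h)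
      have hF0' : ∀ᶠ x' in 𝓝 (κ.symm z), F x' = 0 := by
        filter_upwards [(isClosed_tsupport F).isOpen_compl.mem_nhds hxF] with x' hx'
        exact image_eq_zero_of_notMem_tsupport hx'
      rw [J_eq_zero b hxs hF0', hdet0 z]
      rintro ⟨x, hx, hxz⟩
      apply hxU
      rw [← hxz, κ.left_inv (hCs hx)]
      exact hO'U hx
  unfold chInt
  rw [setIntegral_congr_fun κ.open_target.measurableSet hpt,
    setIntegral_eq_integral_of_forall_compl_eq_zero, hint]
  intro z hz
  apply hdet0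
  rintro ⟨x, hx, rfl⟩
  exact hz (κ.map_source (hCs hx))

end Pool.Agent.LibStein
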