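import Mathlib

set_option autoImplicit false

open Set Filter Topology

namespace Pool.Agent.LibStein

variable {E : Type*} [NormedAddCommGroup E] [NormedSpace ℂ E] [NormedSpace ℝ E]
  [IsScalarTower ℝ ℂ E] [FiniteDimensional ℂ E]

lemma exists_next (B : E →L[ℝ] E →L[ℝ] ℝ)
    (hpos : ∀ v : E, v ≠ 0 → 0 < B v v + B (Complex.I • v) (Complex.I • v))
    (k : ℕ) (hk : 2 * k < Module.finrank ℝ E) (e : Fin k → E) :
    ∃ w : E, (∀ i, B (e i) w = 0) ∧ B w w = 1 := by
  have : FiniteDimensional ℝ E := FiniteDimensional.trans ℝ ℂ E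
  let J : E →ₗ[ℝ] E :=
    { toFun := fun v => Complex.I • v
      map_add' := fun v w => smul_add _ _ _
      map_smul' := fun c v => by
        simp only [RingHom.id_apply]
        exact (smul_comm c Complex.I v).symm }
  let L : E →ₗ[ℝ] (Fin k → ℝ) × (Fin k → ℝ) :=
    LinearMap.prod (LinearMap.pi fun i => (B (e i) : E →ₗ[ℝ] ℝ))
      (LinearMap.pi fun i => (B (e i) : E →ₗ[ℝ] ℝ) ∘ₗ J)
  have hker : LinearMap.ker L ≠ ⊥ := by
    apply LinearMap.ker_ne_bot_of_finrank_lt
    rw [Module.finrank_prod, Module.finrank_fin_fun]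
    omega
  obtain ⟨v, hv, hv0⟩ := (Submodule.ne_bot_iff _).1 hker
  have hv1 : ∀ i, B (e i) v = 0 := fun i => congrFun (congrArg Prod.fst (LinearMap.mem_ker.1 hv)) i
  have hv2 : ∀ i, B (e i) (Complex.I • v) = 0 := fun i =>
    congrFun (congrArg Prod.snd (LinearMap.mem_ker.1 hv)) i
  have hex : ∃ w : E, (∀ i, B (e i) w = 0) ∧ 0 < B w w := by
    rcases lt_or_ge 0 (B v v) with h | h
    · exact ⟨v, hv1, h⟩
    · refine ⟨Complex.I • v, hv2, ?_⟩
      have := hpos v hv0
      linarith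
  obtain ⟨w, hw1, hw2⟩ := hex
  refine ⟨(Real.sqrt (B w w))⁻¹ • w, fun i => by rw [map_smul, hw1, smul_zero], ?_⟩
  have hs : Real.sqrt (B w w) ≠ 0 := (Real.sqrt_pos.2 hw2).ne'
  rw [map_smul, map_smul, ContinuousLinearMap.smul_apply, smul_eq_mul, smul_eq_mul]
  have := Real.mul_self_sqrt hw2.le
  field_simp
  rw [sq]
  exact this.symm

/-- A symmetric bilinear form with positive Levi form on a complex space of dimension at least
three admits three orthonormal vectors. -/
lemma exists_orthonormal_three (hE : 6 ≤ Module.finrank ℝ E) (B : E →L[ℝ] E →L[ℝ] ℝ)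
    (hsymm : ∀ v w : E, B v w = B w v)
    (hpos : ∀ v : E, v ≠ 0 → 0 < B v v + B (Complex.I • v) (Complex.I • v)) :
    ∃ e : Fin 3 → E, ∀ i j, B (e i) (e j) = if i = j then 1 else 0 := by
  obtain ⟨e0, -, h00⟩ := exists_next B hpos 0 (by omega) ![]
  obtain ⟨e1, h1, h11⟩ := exists_next B hpos 1 (by omega) ![e0]
  obtain ⟨e2, h2, h22⟩ := exists_next B hpos 2 (by omega) ![e0, e1]
  have h01 : B e0 e1 = 0 := h1 0
  have h02 : B e0 e2 = 0 := h2 0
  have h12 : B e1 e2 = 0 := h2 1
  refine ⟨![e0, e1, e2], ?_⟩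
  intro i j
  fin_cases i <;> fin_cases j
  · simpa using h00
  · simpa using h01
  · simpa using h02
  · simpa [hsymm e1 e0] using h01
  · simpa using h11
  · simpa using h12
  · simpa [hsymm e2 e0] using h02
  · simpa [hsymm e2 e1] using h12
  · simpa using h22

end Pool.Agent.LibStein
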