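import Mathlib
import Pool.Agent.Lib_MP_4b4323_gt.Nice

set_option autoImplicit false

open Set Filter Topology Manifold ContDiff

namespace Pool.Agent.LibStein

variable {E : Type*} [NormedAddCommGroup E] [NormedSpace ℝ E] [FiniteDimensional ℝ E]
  {X : Type*} [TopologicalSpace X] [ChartedSpace E X] [IsManifold 𝓘(ℝ, E) ∞ X] [T2Space X]

/-- Crossing the level `m`. -/
lemma level_step {φ : X → ℝ} (hφ : ContMDiff 𝓘(ℝ, E) 𝓘(ℝ, ℝ) ∞ φ) {c c1 : ℝ} (hc1 : c1 < c)
    (hW : IsCompact {x | φ x ≤ c}) (m : ℝ) (hm : m < c1)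
    (hloc : ∀ x, φ x = m → LocGoodX (E := E) φ x) :
    ∃ τ0 : ℝ, 0 < τ0 ∧ ∃ δ : ℝ, 0 < δ ∧ ∀ τ : ℝ, 0 < τ → τ < τ0 → ∀ r : X → Q,
      (∀ x, m + τ < φ x → φ x < c → NiceAt (E := E) r x) →
      ∃ r' : X → Q, (∀ x, m - δ < φ x → φ x < c → NiceAt (E := E) r' x) ∧
        ∀ x, c1 ≤ φ x → r' x = r x := by
  classical
  have hφc : Continuous φ := hφ.continuous
  set K := {x | φ x = m} with hK
  have hKc : IsCompact K := by
    apply hW.of_isClosed_subset (isClosed_eq hφc continuous_const)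
    intro x hx
    have : φ x = m := hx
    change φ x ≤ c
    linarith
  -- local data
  have hdata : ∀ x : X, ∃ (D : Set X) (ρ : X → ℝ), φ x = m →
      (IsOpen D ∧ D ⊆ {x | φ x < c1} ∧ ContMDiff 𝓘(ℝ, E) 𝓘(ℝ, ℝ) ∞ ρ ∧ (∀ y, 0 ≤ ρ y) ∧
        (∀ y, y ∉ D → ρ y = 0) ∧ {y | 0 < ρ y} ∈ 𝓝 x ∧
        ∀ (n : ℕ) (g : Fin n → X → ℝ), (∀ i, ContMDiff 𝓘(ℝ, E) 𝓘(ℝ, ℝ) ∞ (g i)) →
        ∃ ε : ℝ, 0 < ε ∧ ∀ a : Fin n → ℝ, (∀ i, |a i| ≤ ε) →
        LP {x ∈ D | 0 < φ x - m + ∑ i, a i * g i x}) := by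
    intro x
    by_cases hx : φ x = m
    · obtain ⟨D, hDo, hxD, hDU, hD⟩ := hloc x hx {x | φ x < c1}
        (isOpen_lt hφc continuous_const) (by change φ x < c1; rw [hx]; exact hm)
      obtain ⟨ρ, -, hρ⟩ := (SmoothBumpFunction.nhds_basis_tsupport (I := 𝓘(ℝ, E)) x).mem_iff.1
        (hDo.mem_nhds hxD)
      refine ⟨D, ρ, fun _ => ⟨hDo, hDU, ρ.contMDiff, fun y => ρ.nonneg, ?_, ?_, ?_⟩⟩
      · intro y hy
        by_contra hne
        exact hy (hρ (subset_tsupport _ hne))
      · have := ρ.support_mem_nhds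
        filter_upwards [this] with y hy
        exact lt_of_le_of_ne ρ.nonneg (Ne.symm hy)
      · rw [hx] at hD
        exact hD
    · exact ⟨∅, fun _ => 0, fun h => absurd h hx⟩
  choose D ρ hDρ using hdata
  obtain ⟨t, htK, hKt⟩ := hKc.elim_nhds_subcover (fun x => {y | 0 < ρ x y})
    (fun x hx => (hDρ x hx).2.2.2.2.2.1)
  set n := t.card with hn
  let pt : Fin n → X := fun i => (t.equivFin.symm i : X)
  have hpt : ∀ i, φ (pt i) = m := fun i => htK _ (t.equivFin.symm i).2
  have hptsurj : ∀ x ∈ t, ∃ i, pt i = x := by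
    intro x hx
    exact ⟨t.equivFin ⟨x, hx⟩, by simp [pt]⟩
  let ρ' : Fin n → X → ℝ := fun i => ρ (pt i)
  let D' : Fin n → Set X := fun i => D (pt i)
  have hDo : ∀ i, IsOpen (D' i) := fun i => (hDρ _ (hpt i)).1
  have hDc1 : ∀ i, D' i ⊆ {x | φ x < c1} := fun i => (hDρ _ (hpt i)).2.1
  have hρs : ∀ i, ContMDiff 𝓘(ℝ, E) 𝓘(ℝ, ℝ) ∞ (ρ' i) := fun i => (hDρ _ (hpt i)).2.2.1
  have hρ0 : ∀ i y, 0 ≤ ρ' i y := fun i => (hDρ _ (hpt i)).2.2.2.1
  have hρD : ∀ i y, y ∉ D' i → ρ' i y = 0 := fun i => (hDρ _ (hpt i)).2.2.2.2.1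
  have hLP := fun i => (hDρ _ (hpt i)).2.2.2.2.2.2
  -- the family of functions
  let g : Fin (n + 1) → X → ℝ := Fin.cons (fun _ => 1) ρ'
  have hg : ∀ i, ContMDiff 𝓘(ℝ, E) 𝓘(ℝ, ℝ) ∞ (g i) := by
    intro i
    refine Fin.cases ?_ (fun j => ?_) i
    · exact contMDiff_const
    · exact hρs j
  choose ε hε hεLP using fun i => hLP i (n + 1) g hg
  -- uniform epsilon
  obtain ⟨ε0, hε0, hε0le⟩ : ∃ ε0 : ℝ, 0 < ε0 ∧ (∀ i, ε0 ≤ ε i) ∧ ε0 ≤ 1 := by
    rcases Nat.eq_zero_or_pos n with h0 | h0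
    · refine ⟨1, one_pos, fun i => ?_, le_rfl⟩
      exact absurd i.2 (by omega)
    · have hne : (Finset.univ : Finset (Fin n)).Nonempty := ⟨⟨0, h0⟩, Finset.mem_univ _⟩
      refine ⟨min 1 (Finset.univ.inf' hne ε), ?_, fun i => ?_, min_le_left _ _⟩
      · rw [lt_min_iff]
        refine ⟨one_pos, ?_⟩
        rw [Finset.lt_inf'_iff]
        intro i _
        exact hε i
      · exact (min_le_right _ _).trans (Finset.inf'_le _ (Finset.mem_univ i))
  -- kappa
  have hGc : Continuous fun x => |φ x - m| + ∑ i, ρ' i x := by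
    apply ((hφc.sub continuous_const).abs).add
    apply continuous_finsetSum
    intro i _
    exact (hρs i).continuous
  obtain ⟨κ2, hκ2, hκ2le⟩ := hW.exists_forall_le' (f := fun x => |φ x - m| + ∑ i, ρ' i x)
    hGc.continuousOn (a := 0) (by
      intro x _
      have hs : 0 ≤ ∑ i, ρ' i x := Finset.sum_nonneg fun i _ => hρ0 i x
      by_cases hx : φ x = m
      · have hxK : x ∈ K := hx
        obtain ⟨y, hy, hxy⟩ := mem_iUnion₂.1 (hKt hxK)
        obtain ⟨i, rfl⟩ := hptsurj y hy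
        have h1 : 0 < ρ' i x := hxy
        have h2 : ρ' i x ≤ ∑ i, ρ' i x :=
          Finset.single_le_sum (f := fun i => ρ' i x) (fun j _ => hρ0 j x) (Finset.mem_univ i)
        have h3 := abs_nonneg (φ x - m)
        linarith
      · have h3 : 0 < |φ x - m| := abs_pos.2 (sub_ne_zero.2 hx)
        linarith)
  set κ := κ2 / 2 with hκ
  have hκpos : 0 < κ := by positivity
  have hdich : ∀ x, φ x ≤ c → κ ≤ |φ x - m| ∨ κ ≤ ∑ i, ρ' i x := by
    intro x hx
    by_contra hcon
    push Not at hcon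
    have := hκ2le x hx
    linarith [hcon.1, hcon.2]
  -- constants
  set τ0 := ε0 * min κ 1 / (2 * (n + 1)) with hτ0
  have hτ0pos : 0 < τ0 := by positivity
  set δ := ε0 * min κ 1 / 2 with hδ
  have hδpos : 0 < δ := by positivity
  refine ⟨τ0, hτ0pos, δ, hδpos, ?_⟩
  intro τ hτ hττ0 r hr
  have hn1 : (0 : ℝ) < n + 1 := by positivity
  have hnτ : (n + 1) * τ < δ := by
    have : (n + 1) * τ < (n + 1) * τ0 := by gcongr
    calc (n + 1) * τ < (n + 1) * τ0 := this
      _ = δ := by rw [hτ0, hδ]; field_simp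
  have hδε : δ ≤ ε0 / 2 := by
    rw [hδ]
    have : min κ 1 ≤ 1 := min_le_right _ _
    nlinarith
  have hδκ : δ ≤ κ / 2 := by
    rw [hδ]
    have h1 : min κ 1 ≤ κ := min_le_left _ _
    have h2 : 0 < min κ 1 := by positivity
    have := hε0le.2
    nlinarith
  have hδεκ : δ ≤ ε0 * κ / 2 := by
    rw [hδ]
    have h1 : min κ 1 ≤ κ := min_le_left _ _
    nlinarith
  -- the functions psi_k
  let ψ : ℕ → X → ℝ := fun k x => φ x - m - (k + 1) * τ +
    ε0 * ∑ i : Fin n, if i.val < k then ρ' i x else 0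
  have hψs : ∀ k, ContMDiff 𝓘(ℝ, E) 𝓘(ℝ, ℝ) 1 (ψ k) := by
    intro k
    have hφ1 : ContMDiff 𝓘(ℝ, E) 𝓘(ℝ, ℝ) 1 φ := hφ.of_le (by norm_cast)
    have h2 : ContMDiff 𝓘(ℝ, E) 𝓘(ℝ, ℝ) 1
        (fun x => ε0 * ∑ i : Fin n, if i.val < k then ρ' i x else 0) := by
      apply contMDiff_const.mul
      apply contMDiff_finsetSum
      intro i _
      by_cases h : i.val < k
      · simp only [h, if_true]
        exact (hρs i).of_le (by norm_cast)
      · simp only [h, if_false]
        exact contMDiff_const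
    exact ((hφ1.sub contMDiff_const).sub contMDiff_const).add h2
  -- induction
  have hind : ∀ k : ℕ, k ≤ n → ∃ rk : X → Q,
      (∀ x, φ x < c → 0 < ψ k x → NiceAt (E := E) rk x) ∧ ∀ x, c1 ≤ φ x → rk x = r x := by
    intro k
    induction k with
    | zero =>
      intro _
      refine ⟨r, ?_, fun x _ => rfl⟩
      intro x hx hpos
      apply hr x _ hx
      simp only [ψ, Nat.cast_zero, zero_add, one_mul, not_lt_zero, if_false,
        Finset.sum_const_zero, mul_zero, add_zero] at hpos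
      linarith
    | succ k ih =>
      intro hk
      obtain ⟨rk, hrk, hrkc⟩ := ih (by omega)
      let i0 : Fin n := ⟨k, by omega⟩
      -- LP for the set
      have hLPk : LP {x ∈ D' i0 | 0 < ψ k x} := by
        let a : Fin (n + 1) → ℝ := Fin.cons (-((k + 1) * τ))
          (fun i : Fin n => if i.val < k then ε0 else 0)
        have ha : ∀ i, |a i| ≤ ε i0 := by
          intro i
          refine Fin.cases ?_ (fun j => ?_) i
          · simp only [a, Fin.cons_zero, abs_neg]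
            rw [abs_of_nonneg (by positivity)]
            have h1 : ((k : ℝ) + 1) * τ ≤ (n + 1) * τ := by
              have : (k : ℝ) ≤ n := by exact_mod_cast (by omega : k ≤ n)
              gcongr
            have := hε0le.1 i0
            linarith
          · simp only [a, Fin.cons_succ]
            split_ifs
            · rw [abs_of_pos hε0]; exact hε0le.1 i0
            · rw [abs_zero]; exact (hε i0).le
        have h1 := hεLP i0 a ha
        have h2 : {x ∈ D (pt i0) | 0 < φ x - m + ∑ i, a i * g i x} = {x ∈ D' i0 | 0 < ψ k x} := by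
          ext x
          have h3 : φ x - m + ∑ i, a i * g i x = ψ k x := by
            rw [Fin.sum_univ_succ]
            simp only [a, g, Fin.cons_zero, Fin.cons_succ, ψ, mul_one]
            rw [Finset.mul_sum]
            have : ∀ i : Fin n, (if i.val < k then ε0 else 0) * ρ' i x
                = ε0 * (if i.val < k then ρ' i x else 0) := by
              intro i
              split_ifs <;> simp
            rw [Finset.sum_congr rfl fun i _ => this i]
            ring
          simp only [mem_ofPred_eq, h3, D']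
        rwa [h2] at h1
      obtain ⟨r', hr', hr'D⟩ := bump_step (hψs k) (O := {x | φ x < c}) (D := D' i0) (hDo i0)
        (fun x hx => lt_trans (hDc1 i0 hx) hc1) hrk hLPk hτ
      refine ⟨r', ?_, ?_⟩
      · intro x hx hpos
        apply hr' x hx
        by_cases hxD : x ∈ D' i0
        · exact Or.inr hxD
        · left
          have h0 : ρ' i0 x = 0 := hρD i0 x hxD
          have hsum : (∑ i : Fin n, if i.val < k + 1 then ρ' i x else 0)
              = ∑ i : Fin n, if i.val < k then ρ' i x else 0 := by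
            refine Finset.sum_congr rfl fun i _ => ?_
            by_cases h1 : i.val < k
            · simp [h1, Nat.lt_succ_of_lt h1]
            · by_cases h2 : i.val = k
              · have : i = i0 := Fin.ext h2
                rw [this, h0]; simp
              · have : ¬ i.val < k + 1 := by omega
                simp [h1, this]
          simp only [ψ, hsum] at hpos ⊢
          push_cast at hpos
          linarith
      · intro x hx
        rw [hr'D x, hrkc x hx]
        intro hxD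
        have : φ x < c1 := hDc1 i0 hxD
        linarith
  obtain ⟨r', hr', hr'c⟩ := hind n le_rfl
  refine ⟨r', ?_, hr'c⟩
  intro x hx hxc
  apply hr' x hxc
  have hsum : (∑ i : Fin n, if i.val < n then ρ' i x else 0) = ∑ i, ρ' i x := by
    refine Finset.sum_congr rfl fun i _ => ?_
    simp [i.2]
  simp only [ψ, hsum]
  have hs : 0 ≤ ∑ i, ρ' i x := Finset.sum_nonneg fun i _ => hρ0 i x
  rcases hdich x hxc.le with h | h
  · have h1 : κ ≤ φ x - m := by
      rcases abs_cases (φ x - m) with h2 | h2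
      · linarith
      · linarith
    have : 0 ≤ ε0 * ∑ i, ρ' i x := by positivity
    linarith
  · have : ε0 * κ ≤ ε0 * ∑ i, ρ' i x := by gcongr
    linarith

/-- Extension over the whole sublevel set. -/
lemma extension {φ : X → ℝ} (hφ : ContMDiff 𝓘(ℝ, E) 𝓘(ℝ, ℝ) ∞ φ) {c c0 c1 : ℝ} (h01 : c0 < c1)
    (hc1 : c1 < c) (hW : IsCompact {x | φ x ≤ c}) (hloc : ∀ x, φ x < c → LocGoodX (E := E) φ x)
    (r : X → Q) (hr : ∀ x, c0 < φ x → φ x < c → NiceAt (E := E) r x) :
    ∃ r' : X → Q, (∀ x, φ x < c → NiceAt (E := E) r' x) ∧ ∀ x, c1 ≤ φ x → r' x = r x := by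
  classical
  let S : Set ℝ := {m | ∃ r' : X → Q, (∀ x, m < φ x → φ x < c → NiceAt (E := E) r' x) ∧
    ∀ x, c1 ≤ φ x → r' x = r x}
  have hmono : ∀ m m', m ∈ S → m ≤ m' → m' ∈ S := by
    rintro m m' ⟨r', h1, h2⟩ hmm
    exact ⟨r', fun x hx hxc => h1 x (by linarith) hxc, h2⟩
  have hc0 : c0 ∈ S := ⟨r, hr, fun _ _ => rfl⟩
  have hnb : ¬ BddBelow S := by
    intro hb
    set m := sInf S with hm
    have hmc0 : m ≤ c0 := csInf_le hb hc0
    obtain ⟨τ0, hτ0, δ, hδ, hstep⟩ := level_step hφ hc1 hW m (by linarith)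
      (fun x hx => hloc x (by linarith))
    have h1 : m + τ0 / 2 ∈ S := by
      obtain ⟨m', hm', hlt⟩ := exists_lt_of_csInf_lt ⟨c0, hc0⟩
        (show sInf S < m + τ0 / 2 by rw [← hm]; linarith)
      exact hmono m' _ hm' hlt.le
    obtain ⟨r1, hr1, hr1c⟩ := h1
    obtain ⟨r2, hr2, hr2c⟩ := hstep (τ0 / 2) (by positivity) (by linarith) r1 hr1
    have h2 : m - δ ∈ S := ⟨r2, hr2, fun x hx => by rw [hr2c x hx, hr1c x hx]⟩
    have := csInf_le hb h2
    rw [← hm] at this
    linarith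
  -- the minimum
  obtain ⟨b, hb⟩ : ∃ b : ℝ, ∀ x, φ x ≤ c → b < φ x := by
    rcases ({x | φ x ≤ c} : Set X).eq_empty_or_nonempty with h | h
    · exact ⟨0, fun x hx => absurd (show x ∈ ({x | φ x ≤ c} : Set X) from hx) (by rw [h]; simp)⟩
    · obtain ⟨x0, _, hx0⟩ := hW.exists_isMinOn h hφ.continuous.continuousOn
      exact ⟨φ x0 - 1, fun x hx => by
        have := hx0 hx
        simp only [mem_ofPred_eq] at this
        linarith⟩
  have : ∃ m ∈ S, m ≤ b := by
    by_contra hcon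
    push Not at hcon
    exact hnb ⟨b, fun m hm => (hcon m hm).le⟩
  obtain ⟨m, ⟨r', h1, h2⟩, hmb⟩ := this
  exact ⟨r', fun x hx => h1 x (lt_of_le_of_lt hmb (hb x hx.le)) hx, h2⟩

end Pool.Agent.LibStein
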