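import Mathlib
import Pool.Agent.Lib_MP_4b4323_gt.ChInt

set_option autoImplicit false

open Set Filter Topology Manifold ContDiff MeasureTheory

namespace Pool.Agent.LibStein

variable {E : Type*} [NormedAddCommGroup E] [NormedSpace ℝ E] [FiniteDimensional ℝ E]
  [MeasurableSpace E] [BorelSpace E]
  {X : Type*} [TopologicalSpace X] [ChartedSpace E X] [IsManifold 𝓘(ℝ, E) ∞ X] [T2Space X]

omit [MeasurableSpace E] [BorelSpace E] in
lemma nice_data {r : X → Q} {x : X} (h : NiceAt (E := E) r x) :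
    ∃ (U : Set X) (R : X → R5) (ρ : X → ℝ), IsOpen U ∧ U ⊆ (chartAt E x).source ∧
      (∀ x' ∈ U, ContMDiffAt 𝓘(ℝ, E) 𝓘(ℝ, R5) 1 R x') ∧ (∀ x' ∈ U, r x' = mk (R x')) ∧
      ContMDiff 𝓘(ℝ, E) 𝓘(ℝ, ℝ) ∞ ρ ∧ (∀ y, 0 ≤ ρ y) ∧ tsupport ρ ⊆ U ∧
      IsCompact (tsupport ρ) ∧ {y | 0 < ρ y} ∈ 𝓝 x := by
  obtain ⟨R, hR, hr⟩ := h
  have h3 : ∀ᶠ x' in 𝓝 x, ContMDiffAt 𝓘(ℝ, E) 𝓘(ℝ, R5) 1 R x' :=
    (contMDiffAt_iff_contMDiffAt_nhds (by simp)).1 hR
  obtain ⟨U, hU, hUo, hxU⟩ := eventually_nhds_iff.1 (h3.and (hr.and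
    ((chartAt E x).open_source.eventually_mem (mem_chart_source E x))))
  obtain ⟨ρ, -, hρ⟩ := (SmoothBumpFunction.nhds_basis_tsupport (I := 𝓘(ℝ, E)) x).mem_iff.1
    (hUo.mem_nhds hxU)
  refine ⟨U, R, ρ, hUo, fun y hy => (hU y hy).2.2, fun y hy => (hU y hy).1,
    fun y hy => (hU y hy).2.1, ρ.contMDiff, fun y => ρ.nonneg, hρ, ρ.hasCompactSupport, ?_⟩
  filter_upwards [ρ.support_mem_nhds] with y hy
  exact lt_of_le_of_ne ρ.nonneg (Ne.symm hy)

/-- The main integration argument. -/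
theorem stokes_main (hor : Oriented E X) (b : Module.Basis (Fin 6) ℝ E) (μ : Measure E)
    [μ.IsAddHaarMeasure] {φ : X → ℝ}
    (hφ : ContMDiff 𝓘(ℝ, E) 𝓘(ℝ, ℝ) ∞ φ) {c1 c2 : ℝ} (hc : c1 < c2)
    (hK : IsCompact {x | φ x ≤ c2}) {r : X → Q} (hr : ∀ x, φ x ≤ c2 → NiceAt (E := E) r x)
    {χ : ℝ → ℝ} (hχ : ContDiff ℝ 1 χ) (hχ0 : ∀ t, c1 ≤ t → χ t = 0)
    (hχd : ∀ t, deriv χ t ≤ 0) (hχd0 : ∀ t, c1 ≤ t → deriv χ t = 0) {s : ℝ}
    (hs : ∀ x, φ x ≤ c2 → deriv χ (φ x) ≠ 0 → SgnAt b s φ r x) :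
    ∀ x, deriv χ (φ x) = 0 := by
  classical
  by_contra hcon
  push Not at hcon
  obtain ⟨xs, hxs⟩ := hcon
  have hφ1 : ContMDiff 𝓘(ℝ, E) 𝓘(ℝ, ℝ) 1 φ := hφ.of_le (by norm_cast)
  have hφc : Continuous φ := hφ.continuous
  have hder_lt : ∀ x, deriv χ (φ x) ≠ 0 → φ x < c1 := by
    intro x hx
    by_contra h
    exact hx (hχd0 _ (not_lt.1 h))
  -- local data
  have hdata : ∀ x ∈ {x | φ x ≤ c2}, ∃ (U : Set X) (R : X → R5) (ρ : X → ℝ), IsOpen U ∧
      U ⊆ (chartAt E x).source ∧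
      (∀ x' ∈ U, ContMDiffAt 𝓘(ℝ, E) 𝓘(ℝ, R5) 1 R x') ∧ (∀ x' ∈ U, r x' = mk (R x')) ∧
      ContMDiff 𝓘(ℝ, E) 𝓘(ℝ, ℝ) ∞ ρ ∧ (∀ y, 0 ≤ ρ y) ∧ tsupport ρ ⊆ U ∧
      IsCompact (tsupport ρ) ∧ {y | 0 < ρ y} ∈ 𝓝 x := fun x hx => nice_data (hr x hx)
  choose! U R ρ hUo hUs hR hrR hρs hρ0 hρU hρc hρn using hdata
  obtain ⟨t, htK, hcov⟩ := hK.elim_nhds_subcover (fun x => {y | 0 < ρ x y}) hρn
  let B : X → ℝ := fun y => ∑ i ∈ t, ρ i y
  have hBs : ContMDiff 𝓘(ℝ, E) 𝓘(ℝ, ℝ) 1 B := by
    apply contMDiff_finsetSum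
    intro i hi
    exact (hρs i (htK i hi)).of_le (by norm_cast)
  have hBpos : ∀ x, φ x ≤ c2 → 0 < B x := by
    intro x hx
    obtain ⟨i, hi, hxi⟩ := mem_iUnion₂.1 (hcov hx)
    have h1 : 0 < ρ i x := hxi
    exact lt_of_lt_of_le h1 (Finset.single_le_sum (f := fun i => ρ i x)
      (fun j hj => hρ0 j (htK j hj) x) hi)
  let F : X → ℝ := fun x => χ (φ x)
  have hFs : ContMDiff 𝓘(ℝ, E) 𝓘(ℝ, ℝ) 1 F := hχ.contMDiff.comp hφ1
  have hF0 : ∀ x, c1 ≤ φ x → F x = 0 := fun x hx => hχ0 _ hx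
  let Fi : X → X → ℝ := fun i x => F x * (ρ i x / B x)
  let w : X → X → ℝ := fun i x => ρ i x / B x
  have hws : ∀ i ∈ t, ∀ x, φ x ≤ c2 → ContMDiffAt 𝓘(ℝ, E) 𝓘(ℝ, ℝ) 1 (w i) x := by
    intro i hi x hx
    exact (((hρs i (htK i hi)).of_le (by norm_cast)) x).div₀ (hBs x) (hBpos x hx).ne'
  have hFis : ∀ i ∈ t, ContMDiff 𝓘(ℝ, E) 𝓘(ℝ, ℝ) 1 (Fi i) := by
    intro i hi x
    by_cases hx : φ x ≤ c2
    · exact (hFs x).mul (hws i hi x hx)
    · have h1 : ∀ᶠ x' in 𝓝 x, c1 < φ x' :=
        hφc.continuousAt.eventually (lt_mem_nhds (by linarith [not_le.1 hx]))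
      apply (contMDiffAt_const (c := (0 : ℝ))).congr_of_eventuallyEq
      filter_upwards [h1] with x' hx'
      simp only [Fi]
      rw [hF0 x' hx'.le, zero_mul]
  have hFisum : ∀ x, ∑ i ∈ t, Fi i x = F x := by
    intro x
    by_cases hx : φ x ≤ c2
    · have h1 : ∑ i ∈ t, Fi i x = F x * ((∑ i ∈ t, ρ i x) / B x) := by
        rw [Finset.sum_div, Finset.mul_sum]
      rw [h1]
      have : (∑ i ∈ t, ρ i x) / B x = 1 := div_self (hBpos x hx).ne'
      rw [this, mul_one]
    · have h1 : F x = 0 := hF0 x (by linarith [not_le.1 hx])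
      simp [Fi, h1]
  have hFisupp : ∀ i ∈ t, tsupport (Fi i) ⊆ tsupport (ρ i) ∩ {x | φ x ≤ c1} := by
    intro i hi
    apply closure_minimal _ ((isClosed_tsupport _).inter (isClosed_le hφc continuous_const))
    intro x hx
    constructor
    · by_contra h
      apply hx
      simp only [Fi]
      rw [image_eq_zero_of_notMem_tsupport h, zero_div, mul_zero]
    · by_contra h
      apply hx
      simp only [Fi]
      rw [hF0 x (not_le.1 h).le, zero_mul]
  have hFiU : ∀ i ∈ t, tsupport (Fi i) ⊆ U i := fun i hi =>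
    ((hFisupp i hi).trans inter_subset_left).trans (hρU i (htK i hi))
  have hFic : ∀ i ∈ t, IsCompact (tsupport (Fi i)) := fun i hi =>
    (hρc i (htK i hi)).of_isClosed_subset (isClosed_tsupport _)
      ((hFisupp i hi).trans inter_subset_left)
  have hFile : ∀ i ∈ t, ∀ x ∈ tsupport (Fi i), φ x ≤ c2 := fun i hi x hx =>
    le_trans (hFisupp i hi hx).2 hc.le
  have hFi0 : ∀ i ∈ t, ∀ x, x ∉ tsupport (Fi i) → ∀ᶠ x' in 𝓝 x, Fi i x' = 0 := by
    intro i hi x hx
    filter_upwards [(isClosed_tsupport (Fi i)).isOpen_compl.mem_nhds hx] with x' hx'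
    exact image_eq_zero_of_notMem_tsupport hx'
  have hwsum : ∀ x, φ x ≤ c2 → ∑ i ∈ t, w i x = 1 := by
    intro x hx
    simp only [w]
    rw [← Finset.sum_div]
    exact div_self (hBpos x hx).ne'
  have hw0 : ∀ i ∈ t, ∀ x, 0 ≤ w i x := by
    intro i hi x
    apply div_nonneg (hρ0 i (htK i hi) x)
    exact Finset.sum_nonneg fun j hj => hρ0 j (htK j hj) x
  have hwsupp : ∀ i ∈ t, ∀ x, x ∉ tsupport (ρ i) → w i x = 0 := by
    intro i hi x hx
    simp only [w]
    rw [image_eq_zero_of_notMem_tsupport hx, zero_div]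
  -- the doubly indexed functions
  let G : X → X → X → X → ℝ := fun k i j x => w i x * J b (Fi j) (R j) (chartAt E k) x
  have hJ0 : ∀ j ∈ t, ∀ k, ∀ x ∈ (chartAt E k).source, x ∉ tsupport (Fi j) →
      J b (Fi j) (R j) (chartAt E k) x = 0 := fun j hj k x hx hxs =>
    J_eq_zero b hx (hFi0 j hj x hxs)
  have hJc : ∀ j ∈ t, ∀ k, ∀ x ∈ (chartAt E k).source, x ∈ tsupport (Fi j) →
      ContinuousAt (J b (Fi j) (R j) (chartAt E k)) x := fun j hj k x hx hxs =>
    J_continuousAt b hx (hFis j hj x) (hR j (htK j hj) x (hFiU j hj hxs))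
  have hGint1 : ∀ i ∈ t, ∀ j ∈ t,
      IntegrableOn (fun z => G j i j ((chartAt E j).symm z)) (chartAt E j).target μ := by
    intro i hi j hj
    apply integrableOn_chInt μ (chartAt E j) (hFic j hj)
      ((hFiU j hj).trans (hUs j (htK j hj)))
    · intro x hx hxs
      simp only [G]
      rw [hJ0 j hj j x hx hxs, mul_zero]
    · intro x hx
      exact (hws i hi x (hFile j hj x hx)).continuousAt.mul
        (hJc j hj j x (hUs j (htK j hj) (hFiU j hj hx)) hx)
  have hGint2 : ∀ i ∈ t, ∀ j ∈ t,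
      IntegrableOn (fun z => G i i j ((chartAt E i).symm z)) (chartAt E i).target μ := by
    intro i hi j hj
    have hsrc : tsupport (ρ i) ⊆ (chartAt E i).source :=
      (hρU i (htK i hi)).trans (hUs i (htK i hi))
    apply integrableOn_chInt μ (chartAt E i) (K := tsupport (ρ i) ∩ tsupport (Fi j))
      ((hρc i (htK i hi)).inter_right (isClosed_tsupport _)) (inter_subset_left.trans hsrc)
    · intro x hx hxs
      simp only [G]
      by_cases h1 : x ∈ tsupport (ρ i)
      · have h2 : x ∉ tsupport (Fi j) := fun h => hxs ⟨h1, h⟩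
        rw [hJ0 j hj i x hx h2, mul_zero]
      · rw [hwsupp i hi x h1, zero_mul]
    · intro x hx
      exact (hws i hi x (hFile j hj x hx.2)).continuousAt.mul
        (hJc j hj i x (hsrc hx.1) hx.2)
  -- step 1
  have hstep1 : ∀ j ∈ t, ∑ i ∈ t, chInt μ (chartAt E j) (G j i j) = 0 := by
    intro j hj
    have h1 := chInt_exact b μ j (F := Fi j) (R := R j) (hUo j (htK j hj)) (hUs j (htK j hj))
      (fun x _ => hFis j hj x) (hR j (htK j hj)) (hFic j hj) (hFiU j hj)
    rw [← h1]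
    unfold chInt
    rw [← integral_finsetSum t (fun i hi => hGint1 i hi j hj)]
    apply setIntegral_congr_fun (chartAt E j).open_target.measurableSet
    intro z hz
    simp only [G]
    rw [← Finset.sum_mul]
    by_cases hx : (chartAt E j).symm z ∈ tsupport (Fi j)
    · rw [hwsum _ (hFile j hj _ hx), one_mul]
    · rw [hJ0 j hj j _ ((chartAt E j).map_target hz) hx, mul_zero]
  -- step 2
  have hstep2 : ∀ i ∈ t, ∀ j ∈ t, chInt μ (chartAt E j) (G j i j)
      = chInt μ (chartAt E i) (G i i j) := by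
    intro i hi j hj
    apply chInt_change hor μ j i
    · intro x hx hxi
      simp only [G]
      rw [hwsupp i hi x (fun h => hxi (hUs i (htK i hi) (hρU i (htK i hi) h))), zero_mul]
    · intro x hx hxj
      simp only [G]
      rw [hJ0 j hj i x hx (fun h => hxj (hUs j (htK j hj) (hFiU j hj h))), mul_zero]
    · intro x hxj hxi
      simp only [G]
      by_cases hx : x ∈ tsupport (Fi j)
      · rw [J_chart b hxj hxi (hFis j hj x) (hR j (htK j hj) x (hFiU j hj hx))]
        ring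
      · rw [hJ0 j hj i x hxi hx, hJ0 j hj j x hxj hx]
        ring
  -- step 3
  let g : X → X → ℝ := fun i x => w i x * (deriv χ (φ x) * J b φ (R i) (chartAt E i) x)
  have hstep3 : ∀ i ∈ t, ∀ x ∈ (chartAt E i).source, ∑ j ∈ t, G i i j x = g i x := by
    intro i hi x hx
    by_cases hxw : w i x = 0
    · simp [G, g, hxw]
    have hxρ : x ∈ tsupport (ρ i) := by
      by_contra h
      exact hxw (hwsupp i hi x h)
    have hxU : x ∈ U i := hρU i (htK i hi) hxρ
    have hRi : ContMDiffAt 𝓘(ℝ, E) 𝓘(ℝ, R5) 1 (R i) x := hR i (htK i hi) x hxU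
    have h1 : ∀ j ∈ t, J b (Fi j) (R j) (chartAt E i) x = J b (Fi j) (R i) (chartAt E i) x := by
      intro j hj
      by_cases hxj : x ∈ tsupport (Fi j)
      · have hxUj : x ∈ U j := hFiU j hj hxj
        obtain ⟨γ, hγ⟩ := exists_smul_eq_near (R := R j) (R' := R i)
          (hR j (htK j hj) x hxUj).continuousAt hRi.continuousAt (by
            filter_upwards [(hUo j (htK j hj)).mem_nhds hxUj,
              (hUo i (htK i hi)).mem_nhds hxU] with x' h3 h4
            rw [← hrR j (htK j hj) x' h3, ← hrR i (htK i hi) x' h4])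
        exact J_lift b hx hRi hγ
      · rw [hJ0 j hj i x hx hxj, J_eq_zero b hx (hFi0 j hj x hxj)]
    have h2 : ∑ j ∈ t, J b (Fi j) (R i) (chartAt E i) x = J b F (R i) (chartAt E i) x := by
      unfold J
      rw [← wd_sum]
      congr 1
      have h3 : ∀ j ∈ t, HasFDerivAt (Fi j ∘ (chartAt E i).symm)
          (fderiv ℝ (Fi j ∘ (chartAt E i).symm) (chartAt E i x)) (chartAt E i x) := fun j hj =>
        ((contDiffAt_comp_symm hx (hFis j hj x)).differentiableAt one_ne_zero).hasFDerivAt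
      have h4 := HasFDerivAt.fun_sum h3
      have h5 : (fun z => ∑ j ∈ t, (Fi j ∘ (chartAt E i).symm) z) = F ∘ (chartAt E i).symm := by
        ext z
        exact hFisum _
      rw [h5] at h4
      exact h4.fderiv.symm
    have h3 : J b F (R i) (chartAt E i) x = deriv χ (φ x) * J b φ (R i) (chartAt E i) x := by
      unfold J
      rw [← wd_smul]
      congr 1
      have h4 : HasFDerivAt (φ ∘ (chartAt E i).symm)
          (fderiv ℝ (φ ∘ (chartAt E i).symm) (chartAt E i x)) (chartAt E i x) :=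
        ((contDiffAt_comp_symm hx (hφ1 x)).differentiableAt one_ne_zero).hasFDerivAt
      have h5 : HasDerivAt χ (deriv χ (φ x)) ((φ ∘ (chartAt E i).symm) (chartAt E i x)) := by
        simp only [Function.comp_apply]
        rw [(chartAt E i).left_inv hx]
        exact (hχ.differentiable one_ne_zero _).hasDerivAt
      exact (h5.comp_hasFDerivAt _ h4).fderiv
    simp only [G, g]
    rw [← Finset.mul_sum, Finset.sum_congr rfl h1, h2, h3]
  have hgint : ∀ i ∈ t, IntegrableOn (fun z => g i ((chartAt E i).symm z))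
      (chartAt E i).target μ := by
    intro i hi
    have h1 : IntegrableOn (fun z => ∑ j ∈ t, G i i j ((chartAt E i).symm z))
        (chartAt E i).target μ := integrable_finsetSum t fun j hj => hGint2 i hi j hj
    apply h1.congr_fun _ (chartAt E i).open_target.measurableSet
    intro z hz
    exact hstep3 i hi _ ((chartAt E i).map_target hz)
  have hsum0 : ∑ i ∈ t, chInt μ (chartAt E i) (g i) = 0 := by
    have h1 : ∀ i ∈ t, chInt μ (chartAt E i) (g i) = ∑ j ∈ t, chInt μ (chartAt E i) (G i i j) := by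
      intro i hi
      unfold chInt
      rw [← integral_finsetSum t (fun j hj => hGint2 i hi j hj)]
      apply setIntegral_congr_fun (chartAt E i).open_target.measurableSet
      intro z hz
      exact (hstep3 i hi _ ((chartAt E i).map_target hz)).symm
    rw [Finset.sum_congr rfl h1, Finset.sum_comm]
    apply Finset.sum_eq_zero
    intro j hj
    rw [← hstep1 j hj]
    apply Finset.sum_congr rfl
    intro i hi
    exact (hstep2 i hi j hj).symm
  -- sign
  have hsgn : ∀ i ∈ t, ∀ x ∈ (chartAt E i).source, 0 ≤ -(s * g i x) := by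
    intro i hi x hx
    simp only [g]
    by_cases hxw : w i x = 0
    · simp [hxw]
    by_cases hxd : deriv χ (φ x) = 0
    · simp [hxd]
    have hxρ : x ∈ tsupport (ρ i) := by
      by_contra h
      exact hxw (hwsupp i hi x h)
    have hxU : x ∈ U i := hρU i (htK i hi) hxρ
    have h1 := hs x (by linarith [hder_lt x hxd]) hxd i (R i) hx (hR i (htK i hi) x hxU) (by
      filter_upwards [(hUo i (htK i hi)).mem_nhds hxU] with x' hx'
      exact (hrR i (htK i hi) x' hx').symm)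
    have h2 := hw0 i hi x
    have h3 : 0 ≤ w i x * (-(deriv χ (φ x))) * (s * J b φ (R i) (chartAt E i) x) :=
      mul_nonneg (mul_nonneg h2 (by linarith [hχd (φ x)])) h1.le
    linarith [h3]
  have hnn : ∀ i ∈ t, 0 ≤ ∫ z in (chartAt E i).target, -(s * g i ((chartAt E i).symm z)) ∂μ := by
    intro i hi
    apply setIntegral_nonneg (chartAt E i).open_target.measurableSet
    intro z hz
    exact hsgn i hi _ ((chartAt E i).map_target hz)
  have hsum0' : ∑ i ∈ t, ∫ z in (chartAt E i).target, -(s * g i ((chartAt E i).symm z)) ∂μ = 0 := by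
    have h1 : ∀ i ∈ t, ∫ z in (chartAt E i).target, -(s * g i ((chartAt E i).symm z)) ∂μ
        = -s * chInt μ (chartAt E i) (g i) := by
      intro i hi
      unfold chInt
      rw [← integral_const_mul]
      congr 1
      ext z
      ring
    rw [Finset.sum_congr rfl h1, ← Finset.mul_sum, hsum0, mul_zero]
  have heach := (Finset.sum_eq_zero_iff_of_nonneg hnn).1 hsum0'
  -- contradiction at xs
  have hxsc : φ xs < c1 := hder_lt xs hxs
  obtain ⟨i, hi, hxi⟩ := mem_iUnion₂.1 (hcov (show φ xs ≤ c2 by linarith))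
  have hρpos : 0 < ρ i xs := hxi
  have hxsρ : xs ∈ tsupport (ρ i) := subset_tsupport _ (ne_of_gt hρpos)
  have hxsU : xs ∈ U i := hρU i (htK i hi) hxsρ
  have hxssrc : xs ∈ (chartAt E i).source := hUs i (htK i hi) hxsU
  have hwpos : 0 < w i xs := div_pos hρpos (hBpos xs (by linarith))
  have hJpos : 0 < s * J b φ (R i) (chartAt E i) xs := by
    apply hs xs (by linarith) hxs i (R i) hxssrc (hR i (htK i hi) xs hxsU)
    filter_upwards [(hUo i (htK i hi)).mem_nhds hxsU] with x' hx'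
    exact (hrR i (htK i hi) x' hx').symm
  have hgpos : 0 < -(s * g i xs) := by
    have h1 : deriv χ (φ xs) < 0 := lt_of_le_of_ne (hχd _) hxs
    have h3 : 0 < w i xs * (-(deriv χ (φ xs))) * (s * J b φ (R i) (chartAt E i) xs) :=
      mul_pos (mul_pos hwpos (by linarith)) hJpos
    simp only [g]
    linarith [h3]
  have hgc : ContinuousAt (fun x => -(s * g i x)) xs := by
    have h1 : ContinuousAt (w i) xs := (hws i hi xs (by linarith)).continuousAt
    have h2 : ContinuousAt (fun x => deriv χ (φ x)) xs :=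
      ((hχ.continuous_deriv le_rfl).comp hφc).continuousAt
    have h3 : ContinuousAt (J b φ (R i) (chartAt E i)) xs :=
      J_continuousAt b hxssrc (hφ1 xs) (hR i (htK i hi) xs hxsU)
    exact (continuousAt_const.mul (h1.mul (h2.mul h3))).neg
  have hev : ∀ᶠ z in 𝓝 (chartAt E i xs), 0 < -(s * g i ((chartAt E i).symm z)) :=
    eventually_comp_symm hxssrc (hgc.eventually (lt_mem_nhds hgpos))
  have hev2 : ∀ᶠ z in 𝓝 (chartAt E i xs), 0 < -(s * g i ((chartAt E i).symm z)) ∧
      z ∈ (chartAt E i).target :=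
    hev.and ((chartAt E i).open_target.eventually_mem ((chartAt E i).map_source hxssrc))
  have hae := (setIntegral_eq_zero_iff_of_nonneg_ae (by
      rw [EventuallyLE, ae_restrict_iff' (chartAt E i).open_target.measurableSet]
      exact Eventually.of_forall fun z hz => hsgn i hi _ ((chartAt E i).map_target hz))
    ((hgint i hi).const_mul s).neg).1 (heach i hi)
  rw [EventuallyEq, ae_restrict_iff' (chartAt E i).open_target.measurableSet] at hae
  have hnull : μ {z | 0 < -(s * g i ((chartAt E i).symm z)) ∧ z ∈ (chartAt E i).target} = 0 := by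
    apply measure_mono_null _ hae
    rintro z ⟨h1, h2⟩
    simp only [mem_compl_iff]
    intro h3
    have h4 : -(s * g i ((chartAt E i).symm z)) = 0 := h3 h2
    rw [h4] at h1
    exact lt_irrefl _ h1
  exact (Measure.measure_pos_of_mem_nhds μ hev2).ne' hnull

end Pool.Agent.LibStein
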