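import Mathlib
import Pool.Agent.Lib_MP_4b4323_gt.Stokes
import Pool.Agent.Lib_MP_4b4323_gt.Level
import Pool.Agent.Lib_MP_4b4323_gt.Glue

set_option autoImplicit false

open Set Filter Topology Manifold ContDiff MeasureTheory

namespace Pool.Agent.LibStein

/-- A decreasing cutoff function whose derivative lives near `v`. -/
lemma exists_chi {a v b : ℝ} (hav : a < v) (hvb : v < b) :
    ∃ (χ : ℝ → ℝ) (c1 : ℝ), v < c1 ∧ c1 < b ∧ ContDiff ℝ 1 χ ∧ (∀ t, c1 ≤ t → χ t = 0) ∧
      (∀ t, deriv χ t ≤ 0) ∧ (∀ t, c1 ≤ t → deriv χ t = 0) ∧ (∀ t, deriv χ t ≠ 0 → a < t) ∧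
      deriv χ v ≠ 0 := by
  set ρ : ℝ := min (v - a) (b - v) / 2 with hρ
  have h1 : 0 < v - a := by linarith
  have h2 : 0 < b - v := by linarith
  have hρpos : 0 < ρ := by positivity
  have hρ1 : ρ < v - a := by
    have : min (v - a) (b - v) ≤ v - a := min_le_left _ _
    linarith [lt_min h1 h2]
  have hρ2 : ρ < b - v := by
    have : min (v - a) (b - v) ≤ b - v := min_le_right _ _
    linarith [lt_min h1 h2]
  let f : ContDiffBump v := ⟨ρ / 2, ρ, by positivity, by linarith⟩
  have hfc : Continuous (f : ℝ → ℝ) := f.continuous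
  have hd : ∀ t, HasDerivAt (fun t => ∫ u in t..(v + ρ), (f : ℝ → ℝ) u) (-(f t)) t := by
    intro t
    exact intervalIntegral.integral_hasDerivAt_left (hfc.intervalIntegrable _ _)
      (hfc.stronglyMeasurableAtFilter _ _) hfc.continuousAt
  have hd' : deriv (fun t => ∫ u in t..(v + ρ), (f : ℝ → ℝ) u) = fun t => -(f t) := by
    ext t
    exact (hd t).deriv
  have hzero : ∀ t, v + ρ ≤ t → f t = 0 := by
    intro t ht
    apply f.zero_of_le_dist
    rw [Real.dist_eq]
    have : ρ ≤ t - v := by linarith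
    exact this.trans (le_abs_self _)
  refine ⟨fun t => ∫ u in t..(v + ρ), (f : ℝ → ℝ) u, v + ρ, by linarith, by linarith, ?_, ?_, ?_,
    ?_, ?_, ?_⟩
  · rw [contDiff_one_iff_deriv]
    refine ⟨fun t => (hd t).differentiableAt, ?_⟩
    rw [hd']
    exact hfc.neg
  · intro t ht
    have : ∫ u in t..(v + ρ), (f : ℝ → ℝ) u = ∫ u in t..(v + ρ), (0 : ℝ) := by
      apply intervalIntegral.integral_congr
      intro u hu
      rw [uIcc_of_ge ht] at hu
      exact hzero u hu.1
    simp only [this, intervalIntegral.integral_zero]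
  · intro t
    rw [hd']
    simp only [Left.neg_nonpos_iff]
    exact f.nonneg
  · intro t ht
    rw [hd']
    simp only [neg_eq_zero]
    exact hzero t ht
  · intro t ht
    rw [hd'] at ht
    by_contra hcon
    push Not at hcon
    apply ht
    simp only [neg_eq_zero]
    apply f.zero_of_le_dist
    rw [Real.dist_eq, abs_sub_comm]
    have : ρ ≤ v - t := by linarith
    exact this.trans (le_abs_self _)
  · rw [hd']
    simp only [ne_eq, neg_eq_zero]
    have : f v = 1 := f.one_of_mem_closedBall (Metric.mem_closedBall_self f.rIn_pos.le)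
    rw [this]
    exact one_ne_zero

variable {E : Type*} [NormedAddCommGroup E] [NormedSpace ℝ E] [FiniteDimensional ℝ E]
  {X : Type*} [TopologicalSpace X] [ChartedSpace E X]

omit [FiniteDimensional ℝ E] in
lemma SgnAt.congr {b : Module.Basis (Fin 6) ℝ E} {s : ℝ} {F : X → ℝ} {r r' : X → Q} {x : X}
    (h : SgnAt b s F r x) (heq : ∀ᶠ x' in 𝓝 x, r' x' = r x') : SgnAt b s F r' x := by
  intro x1 R hx1 hR hRr
  apply h x1 R hx1 hR
  filter_upwards [hRr, heq] with x' h1 h2
  rw [h1, h2]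

variable [IsManifold 𝓘(ℝ, E) ∞ X] [T2Space X]

/-- The real version of the theorem. -/
theorem no_filling_real (hor : Oriented E X) (hE : Module.finrank ℝ E = 6) {φ : X → ℝ}
    (hφ : ContMDiff 𝓘(ℝ, E) 𝓘(ℝ, ℝ) ∞ φ) {c : ℝ} (hW : IsCompact {x | φ x ≤ c})
    (hreg : ∀ x, φ x = c → mfderiv 𝓘(ℝ, E) 𝓘(ℝ, ℝ) φ x ≠ 0)
    (hloc : ∀ x, φ x < c → LocGoodX (E := E) φ x)
    {p : R5 → X} (hp : ContMDiff 𝓘(ℝ, R5) 𝓘(ℝ, E) ∞ p)
    (himm : ∀ y, Function.Injective (mfderiv 𝓘(ℝ, R5) 𝓘(ℝ, E) p y))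
    (hrange : range p = {x | φ x = c})
    (hfib : ∀ y y', p y = p y' → mk y = mk y') : False := by
  classical
  have hφc : Continuous φ := hφ.continuous
  have hφ1 : ContMDiff 𝓘(ℝ, E) 𝓘(ℝ, ℝ) 1 φ := hφ.of_le (by norm_cast)
  have hpc : ∀ y, φ (p y) = c := by
    intro y
    have : p y ∈ {x | φ x = c} := by rw [← hrange]; exact mem_range_self y
    exact this
  have hS : IsCompact (range p) := by
    rw [hrange]
    apply hW.of_isClosed_subset (isClosed_eq hφc continuous_const)
    intro x hx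
    exact le_of_eq hx
  obtain ⟨r, O, hO, hpO, hnice, hrp'⟩ := exists_collar hS
    (local_collar hE hφ hp himm hrange hreg hfib)
  have hrp : ∀ y, r (p y) = mk y := fun y => hrp' y (hpO (mem_range_self y))
  let b : Module.Basis (Fin 6) ℝ E := Module.finBasisOfFinrankEq ℝ E hE
  obtain ⟨s, hs⟩ := exists_sign hor hE b hφ hp himm hpc hreg (r := r)
    (fun y => hnice _ (hpO (mem_range_self y))) hrp
  set V : Set X := interior {x | NiceAt (E := E) r x ∧ SgnAt b s φ r x} with hV
  have hpV : range p ⊆ V := by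
    rintro _ ⟨y, rfl⟩
    rw [hV, mem_interior_iff_mem_nhds]
    filter_upwards [hO.mem_nhds (hpO (mem_range_self y)), SgnAt.eventually hor b hφ1
      (hnice _ (hpO (mem_range_self y))) (hs y)] with x h1 h2
    exact ⟨hnice x h1, h2⟩
  have hK' : IsCompact ({x | φ x ≤ c} \ V) := hW.diff isOpen_interior
  have hlt : ∀ x ∈ {x | φ x ≤ c} \ V, φ x < c := by
    rintro x ⟨hx1, hx2⟩
    apply lt_of_le_of_ne hx1
    intro hx
    apply hx2
    apply hpV
    rw [hrange]
    exact hx
  obtain ⟨c0, hc0, hc0K⟩ : ∃ c0 < c, ∀ x ∈ {x | φ x ≤ c} \ V, φ x ≤ c0 := by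
    rcases ({x | φ x ≤ c} \ V).eq_empty_or_nonempty with h | h
    · exact ⟨c - 1, by linarith, by rw [h]; simp⟩
    · obtain ⟨x0, hx0, hx0m⟩ := hK'.exists_isMaxOn h hφc.continuousOn
      exact ⟨φ x0, hlt x0 hx0, fun x hx => hx0m hx⟩
  have hcollar : ∀ x, c0 < φ x → φ x ≤ c → NiceAt (E := E) r x ∧ SgnAt b s φ r x := by
    intro x hx1 hx2
    have hxV : x ∈ V := by
      by_contra hcon
      have := hc0K x ⟨hx2, hcon⟩
      linarith
    have h1 : x ∈ {x | NiceAt (E := E) r x ∧ SgnAt b s φ r x} := interior_subset hxV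
    exact h1
  set c1 := (c0 + c) / 2 with hc1
  have hc01 : c0 < c1 := by linarith
  have hc1c : c1 < c := by linarith
  obtain ⟨r', hr', hr'r⟩ := extension hφ hc01 hc1c hW hloc r
    (fun x hx1 hx2 => (hcollar x hx1 hx2.le).1)
  -- the point xs
  obtain ⟨xs, hxs1, hxs2⟩ : ∃ xs, c1 < φ xs ∧ φ xs < c := by
    by_contra hcon
    push Not at hcon
    have hloc2 : IsLocalMin φ (p 0) := by
      have h1 : ∀ᶠ x in 𝓝 (p 0), c1 < φ x := by
        apply hφc.continuousAt.eventually
        rw [hpc]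
        exact lt_mem_nhds hc1c
      filter_upwards [h1] with x hx
      rw [hpc]
      exact hcon x hx
    apply hreg (p 0) (hpc 0)
    rw [mfderiv_eq_fderiv_symm ((hφ _).mdifferentiableAt (by simp))]
    apply IsLocalMin.fderiv_eq_zero
    have h2 : ∀ᶠ z in 𝓝 (chartAt E (p 0) (p 0)), φ (p 0) ≤ φ ((chartAt E (p 0)).symm z) :=
      eventually_comp_symm (mem_chart_source E (p 0)) hloc2
    filter_upwards [h2] with z hz
    simp only [Function.comp_apply]
    rw [(chartAt E (p 0)).left_inv (mem_chart_source E (p 0))]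
    exact hz
  obtain ⟨χ, c1', hv1, hv2, hχ, hχ0, hχd, hχd0, hχa, hχv⟩ := exists_chi hxs1 hxs2
  borelize E
  have hfin := stokes_main hor b (MeasureTheory.Measure.addHaar) hφ (c1 := c1')
    (c2 := (c1' + c) / 2) (by linarith)
    (hW.of_isClosed_subset (isClosed_le hφc continuous_const) (fun x (hx : φ x ≤ _) =>
      show φ x ≤ c by linarith)) (r := r')
    (fun x hx => hr' x (by linarith)) hχ hχ0 hχd hχd0 (s := s) (by
      intro x hx hxd
      have hax : c1 < φ x := hχa _ hxd
      have h1 := (hcollar x (by linarith) (by linarith)).2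
      apply h1.congr
      have h2 : ∀ᶠ x' in 𝓝 x, c1 < φ x' := hφc.continuousAt.eventually (lt_mem_nhds hax)
      filter_upwards [h2] with x' h3
      exact hr'r x' h3.le)
  exact hχv (hfin xs)

end Pool.Agent.LibStein
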