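import Mathlib
import Pool.Agent.Lib_MP_4b4323_gt.RealMain
import Pool.Agent.Lib_MP_4b4323_gt.Frame

set_option autoImplicit false

open Set Filter Topology Manifold ContDiff

namespace Pool.Agent.LibStein

variable {E : Type*} [NormedAddCommGroup E] [NormedSpace ℂ E] [NormedSpace ℝ E]
  [IsScalarTower ℝ ℂ E]
  {X : Type*} [TopologicalSpace X] [ChartedSpace E X]

lemma isManifold_real (h : IsManifold 𝓘(ℂ, E) ∞ X) : IsManifold 𝓘(ℝ, E) ∞ X := by
  apply isManifold_of_contDiffOn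
  intro e e' he he'
  have h1 : e.symm ≫ₕ e' ∈ contDiffGroupoid ∞ 𝓘(ℂ, E) := HasGroupoid.compatible he he'
  rw [contDiffGroupoid, mem_groupoid_of_pregroupoid] at h1
  have h2 : ContDiffOn ℂ ∞ (𝓘(ℂ, E) ∘ (e.symm ≫ₕ e') ∘ 𝓘(ℂ, E).symm)
      (𝓘(ℂ, E).symm ⁻¹' (e.symm ≫ₕ e').source ∩ range 𝓘(ℂ, E)) := h1.1
  exact h2.restrict_scalars ℝ

omit [NormedSpace ℝ E] [IsScalarTower ℝ ℂ E] in
lemma contDiffAt_transition_complex [IsManifold 𝓘(ℂ, E) ∞ X] {x x1 x2 : X}
    (hx1 : x ∈ (chartAt E x1).source)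
    (hx2 : x ∈ (chartAt E x2).source) :
    ContDiffAt ℂ ∞ (chartAt E x2 ∘ (chartAt E x1).symm) (chartAt E x1 x) := by
  have h1 : ContMDiffAt 𝓘(ℂ, E) 𝓘(ℂ, E) ∞ (chartAt E x1).symm (chartAt E x1 x) :=
    (contMDiffOn_chart_symm (I := 𝓘(ℂ, E)) (n := ∞)).contMDiffAt
      ((chartAt E x1).open_target.mem_nhds ((chartAt E x1).map_source hx1))
  have h2 : ContMDiffAt 𝓘(ℂ, E) 𝓘(ℂ, E) ∞ (chartAt E x2)
      ((chartAt E x1).symm (chartAt E x1 x)) := by
    rw [(chartAt E x1).left_inv hx1]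
    exact (contMDiffOn_chart (I := 𝓘(ℂ, E)) (n := ∞)).contMDiffAt
      ((chartAt E x2).open_source.mem_nhds hx2)
  exact contMDiffAt_iff_contDiffAt.1 (h2.comp _ h1)

lemma det_restrictScalars_pos [FiniteDimensional ℂ E] (A : E →L[ℂ] E)
    (h : (A.restrictScalars ℝ).det ≠ 0) : 0 < (A.restrictScalars ℝ).det := by
  have h1 : (A.restrictScalars ℝ).det = LinearMap.det ((A : E →ₗ[ℂ] E).restrictScalars ℝ) := rfl
  rw [h1] at h ⊢
  rw [LinearMap.det_restrictScalars, Algebra.norm_complex_apply] at h ⊢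
  exact lt_of_le_of_ne (Complex.normSq_nonneg _) (Ne.symm h)

lemma oriented_of_complex [FiniteDimensional ℂ E] (h : IsManifold 𝓘(ℂ, E) ∞ X) :
    Oriented E X := by
  have : IsManifold 𝓘(ℝ, E) ∞ X := isManifold_real h
  have : FiniteDimensional ℝ E := FiniteDimensional.trans ℝ ℂ E
  intro x x1 x2 hx1 hx2
  have h1 : DifferentiableAt ℂ (chartAt E x2 ∘ (chartAt E x1).symm) (chartAt E x1 x) :=
    (contDiffAt_transition_complex hx1 hx2).differentiableAt (by simp)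
  have h2 : fderiv ℝ (chartAt E x2 ∘ (chartAt E x1).symm) (chartAt E x1 x)
      = (fderiv ℂ (chartAt E x2 ∘ (chartAt E x1).symm) (chartAt E x1 x)).restrictScalars ℝ :=
    h1.fderiv_restrictScalars ℝ
  rw [h2]
  apply det_restrictScalars_pos
  rw [← h2]
  have h3 : ContMDiffAt 𝓘(ℝ, E) 𝓘(ℝ, E) 1 (chartAt E x1) x :=
    ((contMDiffOn_chart (I := 𝓘(ℝ, E)) (n := ∞)).contMDiffAt
      ((chartAt E x1).open_source.mem_nhds hx1)).of_le (by norm_cast)
  have h4 := fderiv_chart_change hx1 hx2 h3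
  have h5 : (chartAt E x1 ∘ (chartAt E x1).symm) =ᶠ[𝓝 (chartAt E x1 x)] id := by
    filter_upwards [(chartAt E x1).open_target.mem_nhds ((chartAt E x1).map_source hx1)] with z hz
    exact (chartAt E x1).right_inv hz
  rw [h5.fderiv_eq, fderiv_id] at h4
  have h6 : (ContinuousLinearMap.id ℝ E).det = 1 := by
    change LinearMap.det (LinearMap.id : E →ₗ[ℝ] E) = 1
    exact LinearMap.det_id
  rw [h4] at h6
  have h7 : ∀ A B : E →L[ℝ] E, (A.comp B).det = A.det * B.det := fun A B => by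
    change LinearMap.det ((A : E →ₗ[ℝ] E) ∘ₗ (B : E →ₗ[ℝ] E)) = _
    exact LinearMap.det_comp _ _
  rw [h7] at h6
  intro h8
  rw [h8, mul_zero] at h6
  exact zero_ne_one h6

lemma locGoodX_of_psh [FiniteDimensional ℂ E] [IsManifold 𝓘(ℝ, E) ∞ X]
    (hE : 6 ≤ Module.finrank ℝ E) {φ : X → ℝ}
    (hφ : ContMDiff 𝓘(ℝ, E) 𝓘(ℝ, ℝ) ∞ φ) {x : X}
    (hpsh : ∀ v : E, v ≠ 0 →
      0 < fderiv ℝ (fderiv ℝ (φ ∘ (chartAt E x).symm)) (chartAt E x x) v v
        + fderiv ℝ (fderiv ℝ (φ ∘ (chartAt E x).symm)) (chartAt E x x) (Complex.I • v)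
          (Complex.I • v)) : LocGoodX (E := E) φ x := by
  have : FiniteDimensional ℝ E := FiniteDimensional.trans ℝ ℂ E
  apply locGoodX_of_locGood
  have hf : ContDiffOn ℝ ∞ (φ ∘ (chartAt E x).symm) (chartAt E x).target :=
    contDiffOn_comp_symm hφ x
  have hz0 : chartAt E x x ∈ (chartAt E x).target :=
    (chartAt E x).map_source (mem_chart_source E x)
  by_cases hcrit : fderiv ℝ (φ ∘ (chartAt E x).symm) (chartAt E x x) = 0
  · have hsymm : IsSymmSndFDerivAt ℝ (φ ∘ (chartAt E x).symm) (chartAt E x x) := by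
      apply (hf.contDiffAt ((chartAt E x).open_target.mem_nhds hz0)).isSymmSndFDerivAt
      rw [minSmoothness_of_isRCLikeNormedField]
      norm_cast
    obtain ⟨e, he⟩ := exists_orthonormal_three hE
      (fderiv ℝ (fderiv ℝ (φ ∘ (chartAt E x).symm)) (chartAt E x x))
      (fun v w => hsymm v w) hpsh
    exact locGood_of_orthonormal (chartAt E x).open_target hz0 (hf.of_le (by norm_cast)) hcrit e he
  · exact locGood_of_fderiv_ne_zero (chartAt E x).open_target hz0 (hf.of_le (by norm_cast)) hcrit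

end Pool.Agent.LibStein
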