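import Mathlib

set_option autoImplicit false

/-!
# The prequantization bundle over the 4-torus is not Stein fillable

The total space `P` of the principal circle bundle over `T⁴ = ℝ⁴/ℤ⁴` with Chern class `[ω]`,
`ω = dx₁∧dy₁ + dx₂∧dy₂`, is `P = ℝ⁵/Γ`: on `ℝ⁵`, with coordinates `(x₁, y₁, x₂, y₂, z)` written
`(y 0, y 1, y 2, y 3, y 4)` below, the one-form `α = dz + x₁dy₁ + x₂dy₂` satisfies `dα = ω`, and `Γ`
is the group of all transformations
`(x₁, y₁, x₂, y₂, z) ↦ (x₁ + a, y₁ + b, x₂ + c, y₂ + d, z + n - a y₁ - c y₂)` with integers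
`a, b, c, d, n`.  It preserves `α` and commutes with translations in `z`.  So `P → ℝ⁴/ℤ⁴` is a
principal bundle for `ℝ/ℤ`, `α` is a connection form on it with curvature `ω`, and
`ξ = ker α` is the prequantization contact structure.

The theorem says more: no field of subspaces `ξ` whatsoever on `P` makes `(P, ξ)` Stein fillable,
that is, `P` is not diffeomorphic to the boundary of a Stein domain.
-/

open Set Filter Topology Manifold ContDiff

namespace Pool.Agent.LibStein

/-- The orbit relation of the lattice `Γ` acting on `ℝ⁵`; the quotient `ℝ⁵/Γ` is `P`. -/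
def SameOrbit (y y' : Fin 5 → ℝ) : Prop :=
  ∃ a b c d n : ℤ, y' 0 = y 0 + a ∧ y' 1 = y 1 + b ∧ y' 2 = y 2 + c ∧ y' 3 = y 3 + d ∧
    y' 4 = y 4 + n - a * y 1 - c * y 3

section Definitions

variable (E : Type*) [NormedAddCommGroup E] [NormedSpace ℂ E]
  {X : Type*} [TopologicalSpace X] [ChartedSpace E X]

/-- The derivative `dφ(v)` at `x` of a real function `φ` on a manifold modelled on the vector space
`E`, in the direction of the tangent vector with coordinates `v` in the preferred chart at `x`. -/
noncomputable def diffFun (φ : X → ℝ) (x : X) (v : E) : ℝ :=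
  lineDeriv ℝ (φ ∘ (chartAt E x).symm) (chartAt E x x) v

/-- The coordinates, in the preferred chart at `p y`, of the tangent vector `dp(v)` at `p y`, for a
map `p` from a vector space `V` to a manifold modelled on the vector space `E`. -/
noncomputable def diffMap {V : Type*} [NormedAddCommGroup V] [NormedSpace ℝ V]
    (p : V → X) (y v : V) : E :=
  lineDeriv ℝ (chartAt E (p y) ∘ p) y v

/-- The second derivative `(d/dt)² f(z + t v)` at `t = 0`, for the expression `f` of `φ` in the
preferred chart at `x`, where `z` is the point of `E` corresponding to `x`. -/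
noncomputable def secondDeriv (φ : X → ℝ) (x : X) (v : E) : ℝ :=
  iteratedDeriv 2 (fun t : ℝ => φ ((chartAt E x).symm (chartAt E x x + t • v))) 0

/-- A real function on a complex manifold modelled on the complex vector space `E` is strictly
plurisubharmonic at `x` if, in the preferred holomorphic chart at `x`, its Levi form is positive
definite, in other words if the Laplacian of its restriction to each complex line through the point
is positive there. -/
def StrictPSHAt (φ : X → ℝ) (x : X) : Prop :=
  ∀ v : E, v ≠ 0 → 0 < secondDeriv E φ x v + secondDeriv E φ x (Complex.I • v)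

/-- `W = {φ ≤ c}` is a Stein domain in the complex manifold `X`: it is compact, `φ` is smooth,
strictly plurisubharmonic on `W`, and its boundary `{φ = c}`, where `φ` is maximal on `W`, is a
regular level set. -/
structure IsSteinDomain (φ : X → ℝ) (c : ℝ) : Prop where
  smooth : ContMDiff 𝓘(ℝ, E) 𝓘(ℝ, ℝ) ∞ φ
  compact : IsCompact {x | φ x ≤ c}
  strictPSH : ∀ x, φ x ≤ c → StrictPSHAt E φ x
  regular : ∀ x, φ x = c → ∃ v : E, diffFun E φ x v ≠ 0

/-- `p : ℝ⁵ → X` induces a diffeomorphism of `P = ℝ⁵/Γ` onto the hypersurface `M = {φ = c}`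
(it is a smooth immersion whose image is `M` and whose fibres are exactly the orbits of `Γ`) which
takes the field of subspaces `ξ` to the field of complex tangencies: `v ∈ ξ y` if and only if
the vector `w = dp(v)`, which is tangent to `M`, is such that `i w` is tangent to `M` too, that is,
`dφ(i w) = 0`. -/
structure IsBoundaryDiffeo (ξ : (Fin 5 → ℝ) → Submodule ℝ (Fin 5 → ℝ)) (φ : X → ℝ) (c : ℝ)
    (p : (Fin 5 → ℝ) → X) : Prop where
  smooth : ContMDiff 𝓘(ℝ, Fin 5 → ℝ) 𝓘(ℝ, E) ∞ p
  immersion : ∀ y v, v ≠ 0 → diffMap E p y v ≠ 0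
  range_eq : range p = {x | φ x = c}
  fibres : ∀ y y', p y = p y' ↔ SameOrbit y y'
  tangencies : ∀ y v, v ∈ ξ y ↔ diffFun E φ (p y) (Complex.I • diffMap E p y v) = 0

end Definitions

/-- `(P, ξ)` has a Stein filling, that is, it is the contact boundary of a Stein domain in a
complex manifold of dimension three. -/
def SteinFillable.{u} (ξ : (Fin 5 → ℝ) → Submodule ℝ (Fin 5 → ℝ)) : Prop :=
  ∃ (X : Type u) (_ : TopologicalSpace X) (_ : T2Space X)
    (_ : ChartedSpace (EuclideanSpace ℂ (Fin 3)) X)
    (_ : IsManifold 𝓘(ℂ, EuclideanSpace ℂ (Fin 3)) ∞ X) (φ : X → ℝ) (c : ℝ)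
    (p : (Fin 5 → ℝ) → X), IsSteinDomain (EuclideanSpace ℂ (Fin 3)) φ c ∧
      IsBoundaryDiffeo (EuclideanSpace ℂ (Fin 3)) ξ φ c p

end Pool.Agent.LibStein
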