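import Mathlib
import Pool.Agent.Lib_MP_4b4323_gt.Cplx
import Pool.Agent.Lib_MP_4b4323_gt.Defs

set_option autoImplicit false

open Set Filter Topology Manifold ContDiff

namespace Pool.Agent.LibStein

section Proofs

variable {E : Type*} [NormedAddCommGroup E] [NormedSpace ℂ E]
  {X : Type*} [TopologicalSpace X] [ChartedSpace E X]

lemma diffFun_eq [IsManifold 𝓘(ℝ, E) ∞ X] {φ : X → ℝ}
    (hφ : ContMDiff 𝓘(ℝ, E) 𝓘(ℝ, ℝ) ∞ φ) (x : X) (v : E) :
    diffFun E φ x v = mfderiv 𝓘(ℝ, E) 𝓘(ℝ, ℝ) φ x v := by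
  rw [mfderiv_eq_fderiv_symm ((hφ _).mdifferentiableAt (by simp))]
  have h1 : DifferentiableAt ℝ (φ ∘ (chartAt E x).symm) (chartAt E x x) :=
    (contDiffAt_comp_symm (mem_chart_source E x) ((hφ x).of_le (by norm_cast))).differentiableAt
      one_ne_zero
  exact h1.lineDeriv_eq_fderiv

lemma diffMap_eq [IsManifold 𝓘(ℝ, E) ∞ X] {V : Type*} [NormedAddCommGroup V] [NormedSpace ℝ V]
    {p : V → X} (hp : ContMDiff 𝓘(ℝ, V) 𝓘(ℝ, E) ∞ p) (y v : V) :
    diffMap E p y v = mfderiv 𝓘(ℝ, V) 𝓘(ℝ, E) p y v := by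
  rw [mfderiv_eq_fderiv_chart ((hp _).mdifferentiableAt (by simp))]
  have h0 : ContMDiffAt 𝓘(ℝ, E) 𝓘(ℝ, E) 1 (chartAt E (p y)) (p y) :=
    ((contMDiffOn_chart (I := 𝓘(ℝ, E)) (n := ∞)).contMDiffAt
      ((chartAt E (p y)).open_source.mem_nhds (mem_chart_source E _))).of_le (by norm_cast)
  have h1 : DifferentiableAt ℝ (chartAt E (p y) ∘ p) y := by
    have h2 : ContMDiffAt 𝓘(ℝ, V) 𝓘(ℝ, E) 1 p y := (hp y).of_le (by norm_cast)
    have h3 : ContDiffAt ℝ 1 (chartAt E (p y) ∘ p) y :=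
      contMDiffAt_iff_contDiffAt.1 (h0.comp y h2)
    exact h3.differentiableAt one_ne_zero
  exact h1.lineDeriv_eq_fderiv

lemma secondDeriv_eq [IsManifold 𝓘(ℝ, E) ∞ X] {φ : X → ℝ}
    (hφ : ContMDiff 𝓘(ℝ, E) 𝓘(ℝ, ℝ) ∞ φ) (x : X) (v : E) :
    secondDeriv E φ x v
      = fderiv ℝ (fderiv ℝ (φ ∘ (chartAt E x).symm)) (chartAt E x x) v v := by
  have hΩ := (chartAt E x).open_target
  have hf : ContDiffOn ℝ 2 (φ ∘ (chartAt E x).symm) (chartAt E x).target :=
    (contDiffOn_comp_symm hφ x).of_le (by norm_cast)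
  have hz0 : chartAt E x x + (0 : ℝ) • v ∈ (chartAt E x).target := by
    rw [zero_smul, add_zero]
    exact (chartAt E x).map_source (mem_chart_source E x)
  have hcont : Continuous fun t : ℝ => chartAt E x x + t • v := by fun_prop
  have hev : ∀ᶠ t : ℝ in 𝓝 0, chartAt E x x + t • v ∈ (chartAt E x).target :=
    hcont.continuousAt.eventually (hΩ.mem_nhds hz0)
  have h1 : deriv (fun t : ℝ => (φ ∘ (chartAt E x).symm) (chartAt E x x + t • v)) =ᶠ[𝓝 0]
      fun t => fderiv ℝ (φ ∘ (chartAt E x).symm) (chartAt E x x + t • v) v := by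
    filter_upwards [hev] with t ht
    exact (hasDerivAt_line hΩ hf _ v t ht).deriv
  unfold secondDeriv
  rw [iteratedDeriv_succ, iteratedDeriv_one]
  have h2 : (fun t : ℝ => φ ((chartAt E x).symm (chartAt E x x + t • v)))
      = fun t : ℝ => (φ ∘ (chartAt E x).symm) (chartAt E x x + t • v) := rfl
  rw [h2, h1.deriv_eq, (hasDerivAt_line2 hΩ hf _ v 0 hz0).deriv, zero_smul, add_zero]

end Proofs

theorem not_filling (E : Type*) [NormedAddCommGroup E] [NormedSpace ℂ E] (hE3 : Module.finrank ℂ E = 3)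
    {X : Type*} [TopologicalSpace X] [T2Space X] [ChartedSpace E X]
    (hX : IsManifold 𝓘(ℂ, E) ∞ X) (ξ : (Fin 5 → ℝ) → Submodule ℝ (Fin 5 → ℝ))
    (φ : X → ℝ) (c : ℝ) (p : (Fin 5 → ℝ) → X) (hW : IsSteinDomain E φ c)
    (hp : IsBoundaryDiffeo E ξ φ c p) : False := by
  have hfin : FiniteDimensional ℂ E := FiniteDimensional.of_finrank_pos (by omega)
  have hXr : IsManifold 𝓘(ℝ, E) ∞ X := isManifold_real hX
  have hfinr : FiniteDimensional ℝ E := FiniteDimensional.trans ℝ ℂ E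
  have hE : Module.finrank ℝ E = 6 := by
    rw [← Module.finrank_mul_finrank ℝ ℂ E, hE3, Complex.finrank_real_complex]
  let L : (Fin 5 → ℝ) →L[ℝ] (Fin 5 → ℝ) := ContinuousLinearMap.pi
    ![ContinuousLinearMap.proj 0, ContinuousLinearMap.proj 1, ContinuousLinearMap.proj 2,
      ContinuousLinearMap.proj 3, -ContinuousLinearMap.proj 4]
  have hL : ∀ y, L y = ![y 0, y 1, y 2, y 3, -y 4] := by
    intro y
    ext i
    fin_cases i <;> rfl
  have hLL : ∀ y, L (L y) = y := by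
    intro y
    rw [hL, hL]
    ext i
    fin_cases i <;> simp
  have hLinj : Function.Injective L := fun y y' h => by rw [← hLL y, h, hLL]
  have hLs : ContMDiff 𝓘(ℝ, Fin 5 → ℝ) 𝓘(ℝ, Fin 5 → ℝ) ∞ L := L.contDiff.contMDiff
  have hreg : ∀ x, φ x = c → mfderiv 𝓘(ℝ, E) 𝓘(ℝ, ℝ) φ x ≠ 0 := by
    intro x hx h0
    obtain ⟨v, hv⟩ := hW.regular x hx
    apply hv
    rw [diffFun_eq hW.smooth, h0]
    rfl
  have himm : ∀ y, Function.Injective (mfderiv 𝓘(ℝ, Fin 5 → ℝ) 𝓘(ℝ, E) p y) := by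
    intro y
    apply (injective_iff_map_eq_zero _).2
    intro v hv
    by_contra hv0
    apply hp.immersion y v hv0
    rw [diffMap_eq hp.smooth]
    exact hv
  have hpsh : ∀ x, φ x ≤ c → ∀ v : E, v ≠ 0 →
      0 < fderiv ℝ (fderiv ℝ (φ ∘ (chartAt E x).symm)) (chartAt E x x) v v
        + fderiv ℝ (fderiv ℝ (φ ∘ (chartAt E x).symm)) (chartAt E x x) (Complex.I • v)
          (Complex.I • v) := by
    intro x hx v hv
    rw [← secondDeriv_eq hW.smooth, ← secondDeriv_eq hW.smooth]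
    exact hW.strictPSH x hx v hv
  apply no_filling_real (oriented_of_complex hX) hE hW.smooth hW.compact hreg
    (fun x hx => locGoodX_of_psh hE.ge hW.smooth (hpsh x hx.le)) (p := p ∘ L)
    (hp.smooth.comp hLs)
  · intro y
    rw [mfderiv_comp y ((hp.smooth _).mdifferentiableAt (by simp))
      ((hLs _).mdifferentiableAt (by simp))]
    have h1 : mfderiv 𝓘(ℝ, Fin 5 → ℝ) 𝓘(ℝ, Fin 5 → ℝ) L y = L := by
      rw [mfderiv_eq_fderiv]
      exact L.fderiv
    rw [h1]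
    exact (himm (L y)).comp hLinj
  · rw [← hp.range_eq]
    exact Function.Surjective.range_comp (fun y => ⟨L y, hLL y⟩) p
  · intro y y' h
    obtain ⟨a, b, c', d, n, h0, h1, h2, h3, h4⟩ := (hp.fibres (L y) (L y')).1 h
    simp only [hL] at h0 h1 h2 h3 h4
    apply Eq.symm
    apply mk_eq_mk.2
    refine ⟨⟨a, b, c', d, -n⟩, ?_⟩
    ext i
    have e0 : y' 0 = y 0 + a := h0
    have e1 : y' 1 = y 1 + b := h1
    have e2 : y' 2 = y 2 + c' := h2
    have e3 : y' 3 = y 3 + d := h3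
    have e4 : -y' 4 = -y 4 + n - a * y 1 - c' * y 3 := h4
    fin_cases i
    · exact e0.symm
    · exact e1.symm
    · exact e2.symm
    · exact e3.symm
    · change y 4 + ((-n : ℤ) : ℝ) + a * y 1 + c' * y 3 = y' 4
      push_cast
      linarith

end Pool.Agent.LibStein
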